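import Pool.Agent.V5helper28.SSK.Cell

/-!
# The entropy between two levels of `X + S`, where `S` contains arithmetic progressions
-/

set_option autoImplicit false

namespace Pool.Agent.V5helper28.SSK

open Finset

variable {d : ℕ}

section general

variable {Ω S T U : Type*} {s : Finset Ω}

theorem CE_ge_sub (A : Ω → S) (B : Ω → T) (G : Ω → U) : CE s A G - CE s B G ≤ CE s A B := by
  have h1 := CE_mono (s := s) A B G
  have h2 := chain (s := s) A B G
  have h3 : CE s A G ≤ CE s (fun x => (A x, B x)) G :=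
    CE_le_of_fun fun _ _ _ _ _ h => (Prod.mk.inj h).1
  linarith

end general

variable {I : Type} [Fintype I] [Nonempty I]

/-- base case: the block entropy of `X + const` -/
theorem base_block (c : I → E d) {r R : ℝ} (hr : 0 < r) (hR : 0 ≤ R)
    (hX : ∀ (k : ℕ) (ω : Fin k → I), ‖X c r k ω‖ ≤ R) (m l e : ℕ) (x₀ : E d) :
    he c r l ≤ Ent univ (fun f : (Fin l → I) × (Fin e → I) =>
      cl r (m + l) (x₀ + r ^ m • (X c r l f.1 + r ^ l • X c r e f.2))) + KC d (2 * R + 1) := by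
  have h1 : he c r l = Ent univ (fun f : (Fin l → I) × (Fin e → I) => cl r l (X c r l f.1)) :=
    (Ent_fst (Ω₂ := Fin e → I) (fun ω : Fin l → I => cl r l (X c r l ω))).symm
  rw [h1]
  refine Ent_cl_shift Finset.univ_nonempty hr m l _ _ hR x₀ fun f _ k => ?_
  have h2 := (abs_apply_le_norm _ k).trans (hX e f.2)
  simp only [PiLp.add_apply, PiLp.smul_apply, smul_eq_mul]
  have h3 : x₀ k + r ^ m * (X c r l f.1 k + r ^ l * X c r e f.2 k) -
      (x₀ k + r ^ m * X c r l f.1 k) = r ^ (m + l) * X c r e f.2 k := by ring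
  rw [h3, abs_mul, abs_of_pos (pow_pos hr _), mul_comm]
  exact mul_le_mul_of_nonneg_right h2 (pow_pos hr _).le

/-- the block entropy of `X + (arithmetic progression with step z)` -/
theorem ap_block (c : I → E d) {r R : ℝ} (hr : 0 < r) (hR : 0 ≤ R)
    (hX : ∀ (k : ℕ) (ω : Fin k → I), ‖X c r k ω‖ ≤ R) (P : E d →ₗ[ℝ] E d)
    (hP : ∀ x, ‖P x‖ ≤ ‖x‖) (m l e L : ℕ) (hL : 1 ≤ L) (x₀ z : E d) (hz : P z = 0)
    (σ : Fin L → E d) {C₀ β : ℝ} (hC₀ : 0 ≤ C₀) (hβ : 0 < β)
    (hσ : ∀ h : Fin L, ‖σ h - ((h : ℕ) : ℝ) • z‖ ≤ C₀ * r ^ (m + l))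
    (hz' : β * r ^ (m + l) ≤ ‖z‖) :
    he (fun i => P (c i)) r l + Real.log L ≤
      Ent univ (fun x : ((Fin l → I) × (Fin e → I)) × Fin L =>
        cl r (m + l) (x₀ + r ^ m • (X c r l x.1.1 + r ^ l • X c r e x.1.2) + σ x.2)) +
      (KC d (Real.sqrt d + 2 * R + 2 * C₀) +
        Real.log (2 * ((Real.sqrt d + 2 * C₀) / β) + 1)) := by
  have : Nonempty (Fin L) := ⟨⟨0, hL⟩⟩
  set T : ((Fin l → I) × (Fin e → I)) × Fin L → E d := fun x =>
    x₀ + r ^ m • (X c r l x.1.1 + r ^ l • X c r e x.1.2) + σ x.2 with hT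
  set B := fun x => cl r (m + l) (T x) with hB
  set A := fun x : ((Fin l → I) × (Fin e → I)) × Fin L => cl r l (P (X c r l x.1.1)) with hA
  have hri : 0 < r ^ (m + l) := pow_pos hr _
  have hrm : 0 < r ^ m := pow_pos hr _
  have hrl : 0 < r ^ l := pow_pos hr _
  have hsd : 0 ≤ Real.sqrt d := Real.sqrt_nonneg _
  -- the entropy of `A`
  have hEA : Ent univ A = he (fun i => P (c i)) r l := by
    have e1 : Ent univ A = Ent univ (fun f : (Fin l → I) × (Fin e → I) => cl r l (P (X c r l f.1))) :=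
      Ent_fst (Ω₂ := Fin L) (fun f : (Fin l → I) × (Fin e → I) => cl r l (P (X c r l f.1)))
    rw [e1, Ent_fst (Ω₂ := Fin e → I) (fun ω : Fin l → I => cl r l (P (X c r l ω)))]
    unfold he
    congr 1
    funext ω
    rw [X_map]
  -- difference in the same cell
  have hdiff : ∀ x y, B x = B y → ‖T x - T y‖ ≤ Real.sqrt d * r ^ (m + l) := fun x y h =>
    norm_sub_le_of_cl_eq hr h
  -- `A` given `B`
  have h1 : CE univ A B ≤ KC d (Real.sqrt d + 2 * R + 2 * C₀) := by
    refine CE_le_KC Finset.univ_nonempty hr (by positivity) fun x _ y _ hxy k => ?_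
    have hd := hdiff y x hxy
    rw [← PiLp.sub_apply]
    refine (abs_apply_le_norm _ k).trans ?_
    have e1 : r ^ m • (P (X c r l y.1.1) - P (X c r l x.1.1)) =
        P (T y - T x) - r ^ (m + l) • P (X c r e y.1.2) + r ^ (m + l) • P (X c r e x.1.2) -
        P (σ y.2 - ((y.2 : ℕ) : ℝ) • z) + P (σ x.2 - ((x.2 : ℕ) : ℝ) • z) := by
      simp only [hT, map_sub, map_add, map_smul, hz, smul_zero, sub_zero, pow_add, mul_smul,
        smul_add]
      module
    have e2 : ‖r ^ m • (P (X c r l y.1.1) - P (X c r l x.1.1))‖ ≤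
        Real.sqrt d * r ^ (m + l) + r ^ (m + l) * R + r ^ (m + l) * R + C₀ * r ^ (m + l) +
          C₀ * r ^ (m + l) := by
      rw [e1]
      have n1 : ‖P (T y - T x)‖ ≤ Real.sqrt d * r ^ (m + l) := (hP _).trans hd
      have n2 : ‖r ^ (m + l) • P (X c r e y.1.2)‖ ≤ r ^ (m + l) * R := by
        rw [norm_smul, Real.norm_eq_abs, abs_of_pos hri]
        exact mul_le_mul_of_nonneg_left ((hP _).trans (hX _ _)) hri.le
      have n3 : ‖r ^ (m + l) • P (X c r e x.1.2)‖ ≤ r ^ (m + l) * R := by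
        rw [norm_smul, Real.norm_eq_abs, abs_of_pos hri]
        exact mul_le_mul_of_nonneg_left ((hP _).trans (hX _ _)) hri.le
      have n4 : ‖P (σ y.2 - ((y.2 : ℕ) : ℝ) • z)‖ ≤ C₀ * r ^ (m + l) := (hP _).trans (hσ _)
      have n5 : ‖P (σ x.2 - ((x.2 : ℕ) : ℝ) • z)‖ ≤ C₀ * r ^ (m + l) := (hP _).trans (hσ _)
      refine (norm_add_le _ _).trans (add_le_add ?_ n5)
      refine (norm_sub_le _ _).trans (add_le_add ?_ n4)
      refine (norm_add_le _ _).trans (add_le_add ?_ n3)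
      exact (norm_sub_le _ _).trans (add_le_add n1 n2)
    rw [norm_smul, Real.norm_eq_abs, abs_of_pos hrm, pow_add] at e2
    refine le_of_mul_le_mul_left (e2.trans (le_of_eq ?_)) hrm
    ring
  -- `B` given `A`
  have h2 : Real.log L - Real.log (2 * ((Real.sqrt d + 2 * C₀) / β) + 1) ≤ CE univ B A := by
    have h3 : CE univ B (fun x => x.1) ≤ CE univ B A := CE_anti fun x _ y _ h => by
      simp only [hA, h]
    refine le_trans ?_ h3
    refine CE_fst_ge _ fun f => ?_
    have hK : (0 : ℝ) < 2 * ((Real.sqrt d + 2 * C₀) / β) + 1 := by positivity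
    have hLpos : (0 : ℝ) < L := by exact_mod_cast hL
    rw [← Real.log_div hLpos.ne' hK.ne']
    have h4 := log_le_Ent (s := (univ : Finset (Fin L))) (A := fun h => B (f, h))
      Finset.univ_nonempty (K := 2 * ((Real.sqrt d + 2 * C₀) / β) + 1) (fun h _ => by
        unfold nf
        have hinj : Function.Injective (fun h : Fin L => ((h : ℕ) : ℤ)) := by
          intro a b hab
          exact Fin.ext (Int.natCast_inj.1 hab)
        have hsub : (fib univ (fun h => B (f, h)) h).image (fun h : Fin L => ((h : ℕ) : ℤ)) ⊆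
            Finset.Icc (((h : ℕ) : ℤ) - ⌊(Real.sqrt d + 2 * C₀) / β⌋)
              (((h : ℕ) : ℤ) + ⌊(Real.sqrt d + 2 * C₀) / β⌋) := by
          intro v hv
          obtain ⟨h', hh', rfl⟩ := Finset.mem_image.1 hv
          have h5 := (mem_fib.1 hh').2
          have h6 := hdiff (f, h') (f, h) h5
          have e1 : (((h' : ℕ) : ℝ) - ((h : ℕ) : ℝ)) • z = (T (f, h') - T (f, h)) -
              (σ h' - ((h' : ℕ) : ℝ) • z) + (σ h - ((h : ℕ) : ℝ) • z) := by
            simp only [hT]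
            module
          have e2 : |((h' : ℕ) : ℝ) - ((h : ℕ) : ℝ)| * ‖z‖ ≤
              (Real.sqrt d + 2 * C₀) * r ^ (m + l) := by
            rw [← Real.norm_eq_abs, ← norm_smul, e1]
            refine (norm_add_le _ _).trans ?_
            have n1 := norm_sub_le (T (f, h') - T (f, h)) (σ h' - ((h' : ℕ) : ℝ) • z)
            have n2 := hσ h'
            have n3 := hσ h
            linarith
          have e3 : |((h' : ℕ) : ℝ) - ((h : ℕ) : ℝ)| ≤ (Real.sqrt d + 2 * C₀) / β := by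
            rw [le_div_iff₀ hβ]
            have e4 : |((h' : ℕ) : ℝ) - ((h : ℕ) : ℝ)| * (β * r ^ (m + l)) ≤
                (Real.sqrt d + 2 * C₀) * r ^ (m + l) :=
              (mul_le_mul_of_nonneg_left hz' (abs_nonneg _)).trans e2
            rw [← mul_assoc] at e4
            exact le_of_mul_le_mul_right e4 hri
          have e5 : |((h' : ℕ) : ℤ) - ((h : ℕ) : ℤ)| ≤ ⌊(Real.sqrt d + 2 * C₀) / β⌋ := by
            rw [Int.le_floor]
            push_cast
            exact e3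
          rw [abs_le] at e5
          rw [Finset.mem_Icc]
          constructor <;> linarith [e5.1, e5.2]
        have hcard := Finset.card_le_card hsub
        rw [Finset.card_image_of_injective _ hinj, Int.card_Icc] at hcard
        have h0 : 0 ≤ ⌊(Real.sqrt d + 2 * C₀) / β⌋ := Int.floor_nonneg.2 (by positivity)
        have e6 : (((h : ℕ) : ℤ) + ⌊(Real.sqrt d + 2 * C₀) / β⌋ + 1 -
            (((h : ℕ) : ℤ) - ⌊(Real.sqrt d + 2 * C₀) / β⌋)) =
            2 * ⌊(Real.sqrt d + 2 * C₀) / β⌋ + 1 := by ring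
        rw [e6] at hcard
        have e7 : (((fib univ (fun h => B (f, h)) h).card : ℤ)) ≤
            2 * ⌊(Real.sqrt d + 2 * C₀) / β⌋ + 1 := by
          have := Int.toNat_of_nonneg (show 0 ≤ 2 * ⌊(Real.sqrt d + 2 * C₀) / β⌋ + 1 by linarith)
          rw [← this]
          exact_mod_cast hcard
        have e8 : (((fib univ (fun h => B (f, h)) h).card : ℝ)) ≤
            2 * (⌊(Real.sqrt d + 2 * C₀) / β⌋ : ℝ) + 1 := by exact_mod_cast e7
        have := Int.floor_le ((Real.sqrt d + 2 * C₀) / β)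
        linarith)
    rw [Finset.card_univ, Fintype.card_fin] at h4
    exact h4
  have h5 : Ent univ B + CE univ A B = Ent univ A + CE univ B A := by
    rw [← chain_Ent, ← chain_Ent]
    exact Ent_congr fun x _ y _ => by simp only [Prod.mk.injEq]; tauto
  rw [← hEA]
  linarith

section bcl

variable {Ω₀ M₀ : Type}

open Classical in
/-- the class of `y`: either the progression which contains it, or `y` itself -/
noncomputable def bcl {L : ℕ} (Φ : Fin L × M₀ → Ω₀) (y : Ω₀) : M₀ ⊕ Ω₀ :=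
  if h : ∃ x, Φ x = y then Sum.inl (Classical.choose h).2 else Sum.inr y

theorem bcl_apply {L : ℕ} {Φ : Fin L × M₀ → Ω₀} (hΦ : Function.Injective Φ) (x : Fin L × M₀) :
    bcl Φ (Φ x) = Sum.inl x.2 := by
  have h : ∃ x', Φ x' = Φ x := ⟨x, rfl⟩
  unfold bcl
  rw [dif_pos h, hΦ (Classical.choose_spec h)]

theorem bcl_eq_inl {L : ℕ} {Φ : Fin L × M₀ → Ω₀} {y : Ω₀} {m : M₀} (h : bcl Φ y = Sum.inl m) :
    ∃ a, Φ (a, m) = y := by
  unfold bcl at h
  split_ifs at h with h1
  · refine ⟨(Classical.choose h1).1, ?_⟩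
    rw [← Sum.inl.inj h]
    exact Classical.choose_spec h1

theorem bcl_eq_inr {L : ℕ} {Φ : Fin L × M₀ → Ω₀} {y y' : Ω₀} (h : bcl Φ y = Sum.inr y') :
    y = y' := by
  unfold bcl at h
  split_ifs at h with h1
  exact Sum.inr.inj h

end bcl

section gain

variable {ΩY M' : Type} [Fintype ΩY] [Nonempty ΩY] [Fintype M']

/-- **Gain in a block.** -/
theorem gain_block' (c : I → E d) {r R : ℝ} (hr : 0 < r) (hr1 : r < 1) (hR : 0 ≤ R)
    (hX : ∀ (k : ℕ) (ω : Fin k → I), ‖X c r k ω‖ ≤ R) (P : E d →ₗ[ℝ] E d)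
    (hP : ∀ x, ‖P x‖ ≤ ‖x‖) (m l e L : ℕ) (hL : 1 ≤ L) (z : E d) (hz : P z = 0)
    (Y : ΩY → E d) (Φ : Fin L × M' → ΩY) (hΦ : Function.Injective Φ) (s : M' → E d)
    {C₀ β : ℝ} (hC₀ : 0 ≤ C₀) (hβ : 0 < β)
    (hσ : ∀ (h : Fin L) (m' : M'), ‖Y (Φ (h, m')) - s m' - ((h : ℕ) : ℝ) • z‖ ≤ C₀ * r ^ (m + l))
    (hz' : β * r ^ (m + l) ≤ ‖z‖) (hLz : L * ‖z‖ ≤ C₀ * r ^ m) {x G : ℝ}
    (hx : x ≤ he c r l - KC d (2 * R + 1))
    (hG : x + G ≤ he (fun i => P (c i)) r l + Real.log L -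
      (KC d (Real.sqrt d + 2 * R + 2 * C₀) +
        Real.log (2 * ((Real.sqrt d + 2 * C₀) / β) + 1))) :
    x + G * ((L * Fintype.card M' : ℕ) / Fintype.card ΩY) - KC d (2 * R + 3 * C₀) ≤
      CE univ (fun ω : ((Fin m → I) × ((Fin l → I) × (Fin e → I))) × ΩY =>
        cl r (m + l) (X c r m ω.1.1 + r ^ m • (X c r l ω.1.2.1 + r ^ l • X c r e ω.1.2.2) + Y ω.2))
        (fun ω => cl r m (X c r m ω.1.1 + r ^ m • (X c r l ω.1.2.1 + r ^ l • X c r e ω.1.2.2) +
          Y ω.2)) := by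
  classical
  have hri : 0 < r ^ (m + l) := pow_pos hr _
  have hrm : 0 < r ^ m := pow_pos hr _
  have hrl : 0 < r ^ l := pow_pos hr _
  have hrl1 : r ^ l ≤ 1 := pow_le_one₀ hr.le hr1.le
  set Z := fun ω : ((Fin m → I) × ((Fin l → I) × (Fin e → I))) × ΩY =>
    X c r m ω.1.1 + r ^ m • (X c r l ω.1.2.1 + r ^ l • X c r e ω.1.2.2) + Y ω.2 with hZ
  set Gf := fun ω : ((Fin m → I) × ((Fin l → I) × (Fin e → I))) × ΩY => (ω.1.1, bcl Φ ω.2)
    with hGf
  refine le_trans ?_ (CE_ge_sub (fun ω => cl r (m + l) (Z ω)) (fun ω => cl r m (Z ω)) Gf)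
  -- the coarse cell is determined up to a constant
  have h1 : CE univ (fun ω => cl r m (Z ω)) Gf ≤ KC d (2 * R + 3 * C₀) := by
    refine CE_le_KC Finset.univ_nonempty hr (by positivity) fun ω _ ω' _ hG' k => ?_
    simp only [hGf, Prod.mk.injEq] at hG'
    rw [← PiLp.sub_apply]
    refine (abs_apply_le_norm _ k).trans ?_
    have hXf : ∀ f : (Fin l → I) × (Fin e → I), ‖X c r l f.1 + r ^ l • X c r e f.2‖ ≤ R := by
      intro f
      rw [← X_append]
      exact hX _ _
    have hY : ‖Y ω'.2 - Y ω.2‖ ≤ 3 * C₀ * r ^ m := by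
      obtain ⟨m', hb⟩ | ⟨y', hb⟩ : (∃ m', bcl Φ ω.2 = Sum.inl m') ∨ ∃ y', bcl Φ ω.2 = Sum.inr y' := by
        cases bcl Φ ω.2 with
        | inl m' => exact Or.inl ⟨m', rfl⟩
        | inr y' => exact Or.inr ⟨y', rfl⟩
      · obtain ⟨a, ha⟩ := bcl_eq_inl hb
        obtain ⟨a', ha'⟩ := bcl_eq_inl (hG'.2.trans hb)
        rw [← ha, ← ha']
        have e1 : Y (Φ (a', m')) - Y (Φ (a, m')) =
            (Y (Φ (a', m')) - s m' - ((a' : ℕ) : ℝ) • z) - (Y (Φ (a, m')) - s m' - ((a : ℕ) : ℝ) • z) +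
              (((a' : ℕ) : ℝ) - ((a : ℕ) : ℝ)) • z := by module
        rw [e1]
        have n1 := hσ a' m'
        have n2 := hσ a m'
        have n3 : ‖(((a' : ℕ) : ℝ) - ((a : ℕ) : ℝ)) • z‖ ≤ C₀ * r ^ m := by
          rw [norm_smul, Real.norm_eq_abs]
          refine le_trans (mul_le_mul_of_nonneg_right ?_ (norm_nonneg _)) hLz
          rw [abs_le]
          have q1 : ((a : ℕ) : ℝ) < L := by exact_mod_cast a.2
          have q2 : ((a' : ℕ) : ℝ) < L := by exact_mod_cast a'.2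
          have q3 : (0 : ℝ) ≤ (a : ℕ) := Nat.cast_nonneg _
          have q4 : (0 : ℝ) ≤ (a' : ℕ) := Nat.cast_nonneg _
          constructor <;> linarith
        have n4 : C₀ * r ^ (m + l) ≤ C₀ * r ^ m := by
          rw [pow_add]
          refine mul_le_mul_of_nonneg_left ?_ hC₀
          nlinarith
        refine (norm_add_le _ _).trans ?_
        have n5 := norm_sub_le (Y (Φ (a', m')) - s m' - ((a' : ℕ) : ℝ) • z)
          (Y (Φ (a, m')) - s m' - ((a : ℕ) : ℝ) • z)
        linarith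
      · have e1 := bcl_eq_inr hb
        have e2 := bcl_eq_inr (hG'.2.trans hb)
        rw [e1, e2, sub_self, norm_zero]
        positivity
    have e1 : Z ω' - Z ω = (X c r m ω'.1.1 - X c r m ω.1.1) +
        (r ^ m • (X c r l ω'.1.2.1 + r ^ l • X c r e ω'.1.2.2) -
          r ^ m • (X c r l ω.1.2.1 + r ^ l • X c r e ω.1.2.2)) + (Y ω'.2 - Y ω.2) := by
      simp only [hZ]
      module
    rw [e1, hG'.1, sub_self, zero_add]
    refine (norm_add_le _ _).trans ?_
    have n1 : ‖r ^ m • (X c r l ω'.1.2.1 + r ^ l • X c r e ω'.1.2.2) -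
          r ^ m • (X c r l ω.1.2.1 + r ^ l • X c r e ω.1.2.2)‖ ≤ 2 * R * r ^ m := by
      rw [← smul_sub, norm_smul, Real.norm_eq_abs, abs_of_pos hrm]
      have q1 := hXf ω'.1.2
      have q2 := hXf ω.1.2
      have q3 := norm_sub_le (X c r l ω'.1.2.1 + r ^ l • X c r e ω'.1.2.2)
        (X c r l ω.1.2.1 + r ^ l • X c r e ω.1.2.2)
      nlinarith
    linarith
  -- lower bound on the fibres
  set lb : ((Fin m → I) × ((Fin l → I) × (Fin e → I))) × ΩY → ℝ := fun ω =>
    x + (if ω.2 ∈ Set.range Φ then G else 0) with hlb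
  have h2 : (∑ ω, lb ω) / (univ : Finset (((Fin m → I) × ((Fin l → I) × (Fin e → I))) × ΩY)).card ≤
      CE univ (fun ω => cl r (m + l) (Z ω)) Gf := by
    refine le_CE_of_fib fun ω _ => ?_
    simp only [hlb]
    by_cases hy : ω.2 ∈ Set.range Φ
    · rw [if_pos hy]
      obtain ⟨⟨a, m'⟩, ha⟩ := hy
      have hfib : fib univ Gf ω = (univ : Finset (((Fin l → I) × (Fin e → I)) × Fin L)).map
          ⟨fun q => ((ω.1.1, q.1), Φ (q.2, m')), fun q q' h => by
            simp only [Prod.mk.injEq, true_and] at h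
            have h3 := hΦ h.2
            simp only [Prod.mk.injEq, and_true] at h3
            exact Prod.ext h.1 h3⟩ := by
        ext ω'
        rw [mem_fib, Finset.mem_map]
        simp only [hGf, Finset.mem_univ, true_and, Prod.mk.injEq]
        rw [← ha, bcl_apply hΦ]
        constructor
        · rintro ⟨h3, h4⟩
          obtain ⟨a', ha'⟩ := bcl_eq_inl h4
          exact ⟨(ω'.1.2, a'), Prod.ext (Prod.ext h3.symm rfl) ha'⟩
        · rintro ⟨q, hq⟩
          rw [← hq]
          exact ⟨rfl, bcl_apply hΦ _⟩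
      rw [hfib, Ent_map]
      have h3 := ap_block c hr hR hX P hP m l e L hL (X c r m ω.1.1 + s m') z hz
        (fun h => Y (Φ (h, m')) - s m') hC₀ hβ (fun h => hσ h m') hz'
      have h4 : (fun q : ((Fin l → I) × (Fin e → I)) × Fin L =>
          cl r (m + l) (X c r m ω.1.1 + s m' + r ^ m • (X c r l q.1.1 + r ^ l • X c r e q.1.2) +
            (Y (Φ (q.2, m')) - s m'))) = (fun ω => cl r (m + l) (Z ω)) ∘
            (⟨fun q => ((ω.1.1, q.1), Φ (q.2, m')), fun q q' h => by
            simp only [Prod.mk.injEq, true_and] at h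
            have h3 := hΦ h.2
            simp only [Prod.mk.injEq, and_true] at h3
            exact Prod.ext h.1 h3⟩ : (((Fin l → I) × (Fin e → I)) × Fin L) ↪ _) := by
        funext q
        simp only [hZ, Function.comp]
        congr 1
        module
      rw [h4] at h3
      linarith
    · rw [if_neg hy, add_zero]
      have hb : bcl Φ ω.2 = Sum.inr ω.2 := by
        unfold bcl
        rw [dif_neg]
        exact fun h => hy h
      have hfib : fib univ Gf ω = (univ : Finset ((Fin l → I) × (Fin e → I))).map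
          ⟨fun q => ((ω.1.1, q), ω.2), fun q q' h => by
            simpa using h⟩ := by
        ext ω'
        rw [mem_fib, Finset.mem_map]
        simp only [hGf, Finset.mem_univ, true_and, Prod.mk.injEq]
        rw [hb]
        constructor
        · rintro ⟨h3, h4⟩
          exact ⟨ω'.1.2, Prod.ext (Prod.ext h3.symm rfl) (bcl_eq_inr h4).symm⟩
        · rintro ⟨q, hq⟩
          rw [← hq]
          exact ⟨rfl, hb⟩
      rw [hfib, Ent_map]
      have h3 := base_block c hr hR hX m l e (X c r m ω.1.1 + Y ω.2)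
      have h4 : (fun f : (Fin l → I) × (Fin e → I) =>
          cl r (m + l) (X c r m ω.1.1 + Y ω.2 + r ^ m • (X c r l f.1 + r ^ l • X c r e f.2))) =
          (fun ω => cl r (m + l) (Z ω)) ∘
            (⟨fun q => ((ω.1.1, q), ω.2), fun q q' h => by
            simpa using h⟩ : ((Fin l → I) × (Fin e → I)) ↪ _) := by
        funext q
        simp only [hZ, Function.comp]
        congr 1
        module
      rw [h4] at h3
      linarith
  have h3 : (∑ ω, lb ω) / (univ : Finset (((Fin m → I) × ((Fin l → I) × (Fin e → I))) × ΩY)).card =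
      x + G * ((L * Fintype.card M' : ℕ) / Fintype.card ΩY) := by
    have hc1 : (0 : ℝ) < Fintype.card ΩY := by exact_mod_cast Fintype.card_pos
    have hc2 : (0 : ℝ) < Fintype.card ((Fin m → I) × ((Fin l → I) × (Fin e → I))) := by
      exact_mod_cast Fintype.card_pos
    simp only [hlb]
    rw [Finset.sum_add_distrib, Finset.sum_const, nsmul_eq_mul]
    have e1 : ∑ ω : ((Fin m → I) × ((Fin l → I) × (Fin e → I))) × ΩY,
        (if ω.2 ∈ Set.range Φ then G else 0) =
        Fintype.card ((Fin m → I) × ((Fin l → I) × (Fin e → I))) *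
          (((L * Fintype.card M' : ℕ) : ℝ) * G) := by
      rw [Fintype.sum_prod_type]
      have e3 : ∀ x₁ : (Fin m → I) × ((Fin l → I) × (Fin e → I)),
          (∑ y : ΩY, if ((x₁, y) : ((Fin m → I) × ((Fin l → I) × (Fin e → I))) × ΩY).2 ∈ Set.range Φ
            then G else 0) = ((L * Fintype.card M' : ℕ) : ℝ) * G := by
        intro x₁
        rw [← Finset.sum_filter, Finset.sum_const, nsmul_eq_mul]
        congr 2
        have e2 : (univ.filter fun y => ((x₁, y) : ((Fin m → I) × ((Fin l → I) × (Fin e → I))) ×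
            ΩY).2 ∈ Set.range Φ) = (univ : Finset (Fin L × M')).image Φ := by
          ext y
          simp
        rw [e2, Finset.card_image_of_injective _ hΦ, Finset.card_univ, Fintype.card_prod,
          Fintype.card_fin]
      rw [Finset.sum_congr rfl fun x₁ _ => e3 x₁, Finset.sum_const, nsmul_eq_mul,
        Finset.card_univ]
    rw [e1, Finset.card_univ, Fintype.card_prod]
    push_cast
    field_simp
  rw [h3] at h2
  linarith

/-- The same for words of length `k ≥ m + l`. -/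
theorem gain_block (c : I → E d) {r R : ℝ} (hr : 0 < r) (hr1 : r < 1) (hR : 0 ≤ R)
    (hX : ∀ (k : ℕ) (ω : Fin k → I), ‖X c r k ω‖ ≤ R) (P : E d →ₗ[ℝ] E d)
    (hP : ∀ x, ‖P x‖ ≤ ‖x‖) {k m l : ℕ} (hk : m + l ≤ k) (L : ℕ) (hL : 1 ≤ L) (z : E d)
    (hz : P z = 0) (Y : ΩY → E d) (Φ : Fin L × M' → ΩY) (hΦ : Function.Injective Φ)
    (s : M' → E d) {C₀ β : ℝ} (hC₀ : 0 ≤ C₀) (hβ : 0 < β)
    (hσ : ∀ (h : Fin L) (m' : M'), ‖Y (Φ (h, m')) - s m' - ((h : ℕ) : ℝ) • z‖ ≤ C₀ * r ^ (m + l))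
    (hz' : β * r ^ (m + l) ≤ ‖z‖) (hLz : L * ‖z‖ ≤ C₀ * r ^ m) {x G : ℝ}
    (hx : x ≤ he c r l - KC d (2 * R + 1))
    (hG : x + G ≤ he (fun i => P (c i)) r l + Real.log L -
      (KC d (Real.sqrt d + 2 * R + 2 * C₀) +
        Real.log (2 * ((Real.sqrt d + 2 * C₀) / β) + 1))) :
    x + G * ((L * Fintype.card M' : ℕ) / Fintype.card ΩY) - KC d (2 * R + 3 * C₀) ≤
      CE univ (fun ω : (Fin k → I) × ΩY => cl r (m + l) (X c r k ω.1 + Y ω.2))
        (fun ω => cl r m (X c r k ω.1 + Y ω.2)) := by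
  obtain ⟨e, rfl⟩ := Nat.exists_eq_add_of_le hk
  rw [Nat.add_assoc]
  refine (gain_block' c hr hr1 hR hX P hP m l e L hL z hz Y Φ hΦ s hC₀ hβ hσ hz' hLz hx hG).trans
    (le_of_eq ?_)
  let f : ((Fin m → I) × ((Fin l → I) × (Fin e → I))) × ΩY ≃ (Fin (m + (l + e)) → I) × ΩY :=
    ((((Equiv.refl _).prodCongr (splitW l e)).trans (splitW m (l + e)))).prodCongr (Equiv.refl _)
  rw [← CE_equiv f]
  have hf : ∀ ω, X c r (m + (l + e)) (f ω).1 =
      X c r m ω.1.1 + r ^ m • (X c r l ω.1.2.1 + r ^ l • X c r e ω.1.2.2) := by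
    intro ω
    have : (f ω).1 = Fin.append ω.1.1 (Fin.append ω.1.2.1 ω.1.2.2) := rfl
    rw [this, X_append, X_append]
  have hf2 : ∀ ω, (f ω).2 = ω.2 := fun ω => rfl
  congr 1 <;> funext ω <;> simp only [Function.comp, hf, hf2]

end gain

end Pool.Agent.V5helper28.SSK
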