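import Pool.Agent.V5helper28.SSK.Cell

/-!
# Levels at which a variable branches, and matchings
-/

set_option autoImplicit false

namespace Pool.Agent.V5helper28.SSK

open Finset

variable {d : ℕ} {F : Type} [Fintype F] [Nonempty F]

/-- the entropy between the levels `n` and `n + g` -/
noncomputable def bE (r : ℝ) (Y : F → E d) (g n : ℕ) : ℝ :=
  CE univ (fun ω => cl r (n + g) (Y ω)) (fun ω => cl r n (Y ω))

theorem Ent_succ_le {Ω S T : Type*} (s : Finset Ω) (A : Ω → S) (B : Ω → T) :
    Ent s A ≤ Ent s B + CE s A B := by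
  rw [← chain_Ent]
  exact Ent_le_of_fun fun _ _ _ _ h => (Prod.mk.inj h).1

theorem bE_le {r : ℝ} (hr : 0 < r) (Y : F → E d) (g n : ℕ) : bE r Y g n ≤ KC d ((r ^ g)⁻¹) := by
  unfold bE
  refine CE_le_KC Finset.univ_nonempty hr (inv_pos.2 (pow_pos hr _)).le fun ω _ ω' _ h k => ?_
  have h1 := abs_sub_le_of_cl_eq hr h k
  refine h1.trans (le_of_eq ?_)
  rw [pow_add]
  field_simp

theorem Ent_le_sum {r : ℝ} (hr : 0 < r) (Y : F → E d)
    (hY : ∀ ω ω' k, |Y ω' k - Y ω k| ≤ 1) (g n : ℕ) :
    Ent univ (fun ω => cl r (n * g) (Y ω)) ≤ KC d 1 + ∑ b ∈ range n, bE r Y g (b * g) := by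
  induction n with
  | zero =>
    simp only [Finset.range_zero, Finset.sum_empty, add_zero]
    refine Ent_le_KC Finset.univ_nonempty hr zero_le_one fun ω _ ω' _ k => ?_
    simpa using hY ω ω' k
  | succ n ih =>
    rw [Finset.sum_range_succ]
    have h1 := Ent_succ_le univ (fun ω => cl r ((n + 1) * g) (Y ω)) (fun ω => cl r (n * g) (Y ω))
    have h2 : CE univ (fun ω => cl r ((n + 1) * g) (Y ω)) (fun ω => cl r (n * g) (Y ω)) =
        bE r Y g (n * g) := by
      unfold bE
      rw [Nat.succ_mul]
    linarith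

/-- The number of levels with large branching. -/
theorem good_levels {r : ℝ} (hr : 0 < r) (hr1 : r < 1) (Y : F → E d)
    (hY : ∀ ω ω' k, |Y ω' k - Y ω k| ≤ 1) (g k : ℕ) (hg : 0 < g) {A ε : ℝ}
    (hA : A = ε * g / 2) (hε : 0 ≤ ε) (hk : ε * k ≤ Ent univ (fun ω => cl r k (Y ω))) :
    ε * k / 2 - KC d 1 - KC d ((r ^ g)⁻¹) ≤
      (((range (k / g)).filter fun b => A ≤ bE r Y g (b * g)).card : ℝ) * KC d ((r ^ g)⁻¹) := by
  classical
  set n := k / g with hn
  have h1 := Ent_le_sum hr Y hY g n
  have h2 := Ent_succ_le univ (fun ω => cl r k (Y ω)) (fun ω => cl r (n * g) (Y ω))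
  have hnk : n * g ≤ k := Nat.div_mul_le_self k g
  have h3 : CE univ (fun ω => cl r k (Y ω)) (fun ω => cl r (n * g) (Y ω)) ≤
      KC d ((r ^ g)⁻¹) := by
    refine CE_le_KC Finset.univ_nonempty hr (inv_pos.2 (pow_pos hr _)).le fun ω _ ω' _ h l => ?_
    have h4 := abs_sub_le_of_cl_eq hr h l
    refine h4.trans ?_
    have h5 : k = n * g + k % g := by
      rw [hn, mul_comm]
      exact (Nat.div_add_mod k g).symm
    have h6 : k % g ≤ g := (Nat.mod_lt k hg).le
    have h7 : r ^ g ≤ r ^ (k % g) := pow_le_pow_of_le_one hr.le hr1.le h6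
    have h8 : r ^ k = r ^ (n * g) * r ^ (k % g) := by
      rw [← pow_add, ← h5]
    rw [h8]
    have h9 : 0 < r ^ g := pow_pos hr _
    have h10 : 0 < r ^ (n * g) := pow_pos hr _
    calc r ^ (n * g) = (r ^ g)⁻¹ * (r ^ (n * g) * r ^ g) := by field_simp
      _ ≤ (r ^ g)⁻¹ * (r ^ (n * g) * r ^ (k % g)) := by gcongr
  have h4 : ∑ b ∈ range n, bE r Y g (b * g) ≤
      (((range n).filter fun b => A ≤ bE r Y g (b * g)).card : ℝ) * KC d ((r ^ g)⁻¹) + n * A := by
    rw [← Finset.sum_filter_add_sum_filter_not (range n) (fun b => A ≤ bE r Y g (b * g))]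
    refine add_le_add ?_ ?_
    · rw [← nsmul_eq_mul, ← Finset.sum_const]
      exact Finset.sum_le_sum fun b _ => bE_le hr Y g _
    · have h5 : ∑ b ∈ (range n).filter (fun b => ¬ A ≤ bE r Y g (b * g)), bE r Y g (b * g) ≤
          ∑ b ∈ (range n).filter (fun b => ¬ A ≤ bE r Y g (b * g)), A := by
        refine Finset.sum_le_sum fun b hb => ?_
        rw [Finset.mem_filter, not_le] at hb
        exact hb.2.le
      refine h5.trans ?_
      rw [Finset.sum_const, nsmul_eq_mul]
      have hA0 : 0 ≤ A := by rw [hA]; positivity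
      refine mul_le_mul_of_nonneg_right ?_ hA0
      have := Finset.card_filter_le (range n) (fun b => ¬ A ≤ bE r Y g (b * g))
      rw [Finset.card_range] at this
      exact_mod_cast this
  have h5 : (n : ℝ) * A ≤ ε * k / 2 := by
    rw [hA]
    have h6 : (n : ℝ) * g ≤ k := by exact_mod_cast hnk
    nlinarith
  linarith

/-- **Matching.** If the entropy between two levels is large, then a positive proportion of the
elements can be matched in pairs of the same coarse cell at a large distance. -/
theorem exists_matching {r : ℝ} (hr : 0 < r) (Y : F → E d) (g n : ℕ) {A : ℝ}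
    (hA : A ≤ bE r Y g n) :
    ∃ (M : ℕ) (φ : Bool × Fin M → F), Function.Injective φ ∧
      (∀ m, cl r n (Y (φ (true, m))) = cl r n (Y (φ (false, m))) ∧
        r ^ (n + g) ≤ ‖Y (φ (true, m)) - Y (φ (false, m))‖) ∧
      (A - Real.log 2 - KC d 1) * Fintype.card F ≤ 2 * M * KC d ((r ^ g)⁻¹) := by
  classical
  -- a matching of maximal size
  let Pr : ℕ → Prop := fun M => ∃ φ : Bool × Fin M → F, Function.Injective φ ∧
      (∀ m, cl r n (Y (φ (true, m))) = cl r n (Y (φ (false, m))) ∧
        r ^ (n + g) ≤ ‖Y (φ (true, m)) - Y (φ (false, m))‖)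
  have hP0 : Pr 0 := ⟨fun x => x.2.elim0, fun x => x.2.elim0, fun m => m.elim0⟩
  have hbound : ∀ M, Pr M → M ≤ Fintype.card F := by
    rintro M ⟨φ, hφ, _⟩
    have := Fintype.card_le_of_injective φ hφ
    rw [Fintype.card_prod, Fintype.card_bool, Fintype.card_fin] at this
    omega
  obtain ⟨M, hM, hmax⟩ : ∃ M, Pr M ∧ ∀ M', Pr M' → M' ≤ M := by
    refine ⟨Nat.findGreatest Pr (Fintype.card F), ?_, ?_⟩
    · exact Nat.findGreatest_spec (P := Pr) (Nat.zero_le _) hP0
    · intro M' hM'
      exact Nat.le_findGreatest (hbound M' hM') hM'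
  obtain ⟨φ, hφ, hφ2⟩ := hM
  refine ⟨M, φ, hφ, hφ2, ?_⟩
  -- unmatched elements of the same cell are close
  have hun : ∀ ω ω', ω ∉ Set.range φ → ω' ∉ Set.range φ → cl r n (Y ω) = cl r n (Y ω') →
      ‖Y ω - Y ω'‖ ≤ r ^ (n + g) := by
    intro ω ω' h1 h2 h3
    by_contra hcon
    push Not at hcon
    have hne : ω ≠ ω' := by
      rintro rfl
      rw [sub_self, norm_zero] at hcon
      exact absurd hcon (not_lt.2 (pow_pos hr _).le)
    have hPM : Pr (M + 1) := by
      refine ⟨fun x => Fin.lastCases (motive := fun _ => F) (if x.1 then ω else ω')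
        (fun m => φ (x.1, m)) x.2, ?_, ?_⟩
      · rintro ⟨b, m⟩ ⟨b', m'⟩ h
        induction m using Fin.lastCases with
        | last =>
          induction m' using Fin.lastCases with
          | last =>
            simp only [Fin.lastCases_last] at h
            cases b <;> cases b' <;> simp_all
          | cast m' =>
            simp only [Fin.lastCases_last, Fin.lastCases_castSucc] at h
            exfalso
            cases b
            · simp only [Bool.false_eq_true, if_false] at h
              exact h2 ⟨_, h.symm⟩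
            · simp only [if_true] at h
              exact h1 ⟨_, h.symm⟩
        | cast m =>
          induction m' using Fin.lastCases with
          | last =>
            simp only [Fin.lastCases_last, Fin.lastCases_castSucc] at h
            exfalso
            cases b'
            · simp only [Bool.false_eq_true, if_false] at h
              exact h2 ⟨_, h⟩
            · simp only [if_true] at h
              exact h1 ⟨_, h⟩
          | cast m' =>
            simp only [Fin.lastCases_castSucc] at h
            have := hφ h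
            simp only [Prod.mk.injEq] at this
            rw [this.1, this.2]
      · intro m
        induction m using Fin.lastCases with
        | last =>
          simp only [Fin.lastCases_last, if_true, Bool.false_eq_true, if_false]
          exact ⟨h3, hcon.le⟩
        | cast m =>
          simp only [Fin.lastCases_castSucc]
          exact hφ2 m
    have := hmax _ hPM
    omega
  -- entropy
  set D : F → Bool := fun ω => decide (ω ∈ Set.range φ) with hD
  have h1 : bE r Y g n ≤ CE univ D (fun ω => cl r n (Y ω)) +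
      CE univ (fun ω => cl r (n + g) (Y ω)) (fun ω => (D ω, cl r n (Y ω))) := by
    rw [← chain]
    exact CE_le_of_fun fun _ _ _ _ _ h => (Prod.mk.inj h).1
  have h2 : CE univ D (fun ω => cl r n (Y ω)) ≤ Real.log 2 := by
    refine CE_le_log Finset.univ_nonempty fun ω _ => ?_
    have := Finset.card_le_univ ((fib univ (fun ω => cl r n (Y ω)) ω).image D)
    rw [Fintype.card_bool] at this
    exact_mod_cast this
  have h3 : CE univ (fun ω => cl r (n + g) (Y ω)) (fun ω => (D ω, cl r n (Y ω))) ≤
      (∑ ω : F, (KC d 1 + if ω ∈ Set.range φ then KC d ((r ^ g)⁻¹) else 0)) / Fintype.card F := by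
    rw [CE_eq_avg, Finset.card_univ]
    refine div_le_div_of_nonneg_right (Finset.sum_le_sum fun ω _ => ?_) (Nat.cast_nonneg _)
    have hne : (fib univ (fun ω => (D ω, cl r n (Y ω))) ω).Nonempty :=
      ⟨ω, self_mem_fib (Finset.mem_univ _)⟩
    by_cases hω : ω ∈ Set.range φ
    · rw [if_pos hω]
      have : Ent (fib univ (fun ω => (D ω, cl r n (Y ω))) ω) (fun ω => cl r (n + g) (Y ω)) ≤
          KC d ((r ^ g)⁻¹) := by
        refine Ent_le_KC hne hr (inv_pos.2 (pow_pos hr _)).le fun ω₁ h₁ ω₂ h₂ k => ?_
        have e1 := (mem_fib.1 h₁).2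
        have e2 := (mem_fib.1 h₂).2
        simp only [Prod.mk.injEq] at e1 e2
        have h4 := abs_sub_le_of_cl_eq hr (e2.2.trans e1.2.symm) k
        refine h4.trans (le_of_eq ?_)
        rw [pow_add]
        field_simp
      have h0 : 0 ≤ KC d 1 := KC_nonneg zero_le_one
      linarith
    · rw [if_neg hω, add_zero]
      refine Ent_le_KC hne hr zero_le_one fun ω₁ h₁ ω₂ h₂ k => ?_
      have e1 := (mem_fib.1 h₁).2
      have e2 := (mem_fib.1 h₂).2
      simp only [Prod.mk.injEq, hD, decide_eq_decide] at e1 e2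
      have m1 : ω₁ ∉ Set.range φ := fun h => hω (e1.1.1 h)
      have m2 : ω₂ ∉ Set.range φ := fun h => hω (e2.1.1 h)
      rw [one_mul, ← PiLp.sub_apply]
      exact (abs_apply_le_norm _ k).trans (hun ω₂ ω₁ m2 m1 (e2.2.trans e1.2.symm))
  have h4 : ∑ ω : F, (KC d 1 + if ω ∈ Set.range φ then KC d ((r ^ g)⁻¹) else 0) =
      Fintype.card F * KC d 1 + 2 * M * KC d ((r ^ g)⁻¹) := by
    rw [Finset.sum_add_distrib, Finset.sum_const, nsmul_eq_mul, Finset.card_univ,
      ← Finset.sum_filter, Finset.sum_const, nsmul_eq_mul]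
    congr 2
    have : (univ.filter fun ω => ω ∈ Set.range φ) = (univ : Finset (Bool × Fin M)).image φ := by
      ext y
      simp
    rw [this, Finset.card_image_of_injective _ hφ, Finset.card_univ, Fintype.card_prod,
      Fintype.card_bool, Fintype.card_fin]
    push_cast
    ring
  have hc : (0 : ℝ) < Fintype.card F := by exact_mod_cast Fintype.card_pos
  rw [h4] at h3
  have h5 : A - Real.log 2 ≤
      (Fintype.card F * KC d 1 + 2 * M * KC d ((r ^ g)⁻¹)) / Fintype.card F := by linarith
  rw [le_div_iff₀ hc] at h5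
  linarith

end Pool.Agent.V5helper28.SSK
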