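import Mathlib

/-!
# Kakeya sets whose segments lie on a self-similar family of lines (MP_b1773a_an)

Jobs for the theorem: let `Γ ⊆ ℝ^d × ℝ^d` (slope, position) be a nonempty compact set with
`Γ = ⋃ i, S i Γ`, `S i z = r i • z + b i`, `0 < r i < 1` (finitely many homotheties).  Then
(1) outside a set of heights `t` of Hausdorff dimension zero,
`dim {a + t v | (v, a) ∈ Γ} ≥ dim {v | (v, a) ∈ Γ}`;
(2) every closed `K ⊆ ℝ^(d+1)` containing a segment of each line `{(a + t v, t)}`, `(v, a) ∈ Γ`, has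
`dim K ≥ 1 + dim {v | (v, a) ∈ Γ}`.
-/

set_option autoImplicit false

namespace Pool.Agent.V5helper28.SSK

open MeasureTheory Set
open scoped ENNReal

/-- Euclidean space. -/
abbrev E (d : ℕ) := EuclideanSpace ℝ (Fin d)

/-- `∑ j < n, r ^ j c (ω j)`; so `S (ω 0) (S (ω 1) (... x)) = X c r n ω + r ^ n • x` for
`S i x = r • x + c i`. -/
noncomputable def X {d : ℕ} {I : Type} (c : I → E d) (r : ℝ) (n : ℕ) (ω : Fin n → I) : E d :=
  ∑ j : Fin n, r ^ (j : ℕ) • c (ω j)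

/-- the digits at height `t` -/
noncomputable def ct {d : ℕ} {I : Type} (v a : I → E d) (t : ℝ) (i : I) : E d := a i + t • v i

/-- Sets of words whose points are `ρ r ^ n`-separated are small (for all large `n`). -/
def Thin {d : ℕ} {I : Type} [Fintype I] (c : I → E d) (r ρ η : ℝ) : Prop :=
  ∃ n₀ : ℕ, ∀ n : ℕ, n₀ ≤ n → ∀ F : Finset (Fin n → I),
    (∀ ω ∈ F, ∀ ω' ∈ F, ω ≠ ω' → ρ * r ^ n ≤ ‖X c r n ω - X c r n ω'‖) →
    (F.card : ℝ) ≤ ((Fintype.card I : ℝ) * r ^ η) ^ n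

/-- At level `n` there are more than `r⁻¹ ^ ((dim W + θ) n)` words whose points are within
`r ^ (q n)` of each other modulo the subspace `W`. -/
def Clump {d : ℕ} {I : Type} (c : I → E d) (r θ : ℝ) (q n : ℕ) : Prop :=
  ∃ (W : Submodule ℝ (E d)) (F : Finset (Fin n → I)),
    r⁻¹ ^ (((Module.finrank ℝ W : ℝ) + θ) * n) ≤ (F.card : ℝ) ∧
    ∀ ω ∈ F, ∀ ω' ∈ F, ∃ w ∈ W, ‖X c r n ω - X c r n ω' - w‖ ≤ r ^ (q * n)

/-- distinct words of length `n` have `κ r ^ n`-separated points -/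
def Sep {d : ℕ} {I : Type} (v : I → E d) (r κ : ℝ) : Prop :=
  ∀ (n : ℕ) (ω ω' : Fin n → I), ω ≠ ω' → κ * r ^ n ≤ ‖X v r n ω - X v r n ω'‖

/-- The point of `ℝ^(d+1)` with first coordinate (height) `t` and remaining coordinates `y`. -/
noncomputable def pt {d : ℕ} (t : ℝ) (y : E d) : E (d + 1) :=
  WithLp.toLp 2 (Fin.cons t (WithLp.ofLp y))

/-- JOB A (helper28): dimension drop implies clumps at all scales. -/
def JobA : Prop :=
  ∀ (d : ℕ) (I : Type) [Fintype I] [Nonempty I] (c : I → E d) (r ρ η : ℝ), 0 < r → r < 1 → 0 < ρ →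
    0 < η → Thin c r ρ η → ∀ q : ℕ, ∃ n₁ : ℕ, ∀ n : ℕ, n₁ ≤ n → Clump c r (η / 4) q n

/-- JOB W: the heights with clumps at all large levels, for all `q`, form a set of dimension zero. -/
def JobW : Prop :=
  ∀ (d : ℕ) (I : Type) [Fintype I] [Nonempty I] (v a : I → E d) (r κ θ : ℝ), 0 < r → r < 1 →
    0 < κ → 0 < θ → Sep v r κ →
    dimH {t : ℝ | ∀ q : ℕ, ∃ n₁ : ℕ, ∀ n : ℕ, n₁ ≤ n → Clump (ct v a t) r θ q n} = 0

/-- JOB H: a self-similar set without dimension drop. -/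
def JobH : Prop :=
  ∀ (d : ℕ) (I : Type) [Fintype I] [Nonempty I] (c : I → E d) (r ρ D : ℝ) (A : Set (E d)), 0 < r →
    r < 1 → D < ρ → A.Nonempty → IsClosed A → (∀ x ∈ A, ∀ y ∈ A, ‖x - y‖ ≤ D) →
    (∀ i, ∀ x ∈ A, r • x + c i ∈ A) → (∀ η : ℝ, 0 < η → ¬ Thin c r ρ η) →
    ENNReal.ofReal (Real.log (Fintype.card I) / Real.log r⁻¹) ≤ dimH A

/-- JOB S: slices. -/
def JobS : Prop :=
  ∀ (d : ℕ) (K : Set (E (d + 1))) (T : Set ℝ) (s : ℝ≥0∞), 0 < volume T →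
    (∀ t ∈ T, {y : E d | pt t y ∈ K}.Nonempty ∧ s ≤ dimH {y : E d | pt t y ∈ K}) → s + 1 ≤ dimH K

/-- JOB G: subsystems with equal ratios and separated slopes. -/
def JobG : Prop :=
  ∀ (d : ℕ) (I : Type) [Fintype I] [Nonempty I] (R : I → ℝ) (b : I → E d × E d)
    (Γ : Set (E d × E d)), (∀ i, 0 < R i ∧ R i < 1) → Γ.Nonempty → IsCompact Γ →
    Γ = ⋃ i, (fun z => R i • z + b i) '' Γ → ∀ s : ℝ, 0 < s →
    ENNReal.ofReal s < dimH (Prod.fst '' Γ) →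
    ∃ (m : ℕ) (r κ : ℝ) (v a : Fin m → E d), 0 < m ∧ 0 < r ∧ r < 1 ∧ 0 < κ ∧
      (∀ k, ∀ z ∈ Γ, r • z + (v k, a k) ∈ Γ) ∧ Sep v r κ ∧ s ≤ Real.log m / Real.log r⁻¹

/-- JOB B: Baire category. -/
def JobB : Prop :=
  ∀ (d : ℕ) (I : Type) [Fintype I] [Nonempty I] (R : I → ℝ) (b : I → E d × E d)
    (Γ : Set (E d × E d)), (∀ i, 0 < R i ∧ R i < 1) → Γ.Nonempty → IsCompact Γ →
    Γ = ⋃ i, (fun z => R i • z + b i) '' Γ → ∀ K : Set (E (d + 1)), IsClosed K →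
    (∀ z ∈ Γ, ∃ t₁ t₂ : ℝ, t₁ < t₂ ∧ ∀ t ∈ Icc t₁ t₂, pt t (z.2 + t • z.1) ∈ K) →
    ∃ (R' : ℝ) (b' : E d × E d) (t₁ t₂ : ℝ), 0 < R' ∧ t₁ < t₂ ∧
      ∀ z ∈ Γ, ∀ t ∈ Icc t₁ t₂,
        pt t ((R' • z + b').2 + t • (R' • z + b').1) ∈ K

end Pool.Agent.V5helper28.SSK
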