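import Pool.Agent.V5helper28.SSK.KV
import Pool.Agent.V5helper28.SSK.Defs

/-!
# Cells, and the entropies of the level sets of self-similar families
-/

set_option autoImplicit false

namespace Pool.Agent.V5helper28.SSK

open Finset

variable {d : ℕ}

/-- the cell of side `r ^ n` that contains `x` -/
noncomputable def cl (r : ℝ) (n : ℕ) (x : E d) : Fin d → ℤ := fun k => ⌊x k / r ^ n⌋

/-- the number of cells of side one that meet a cube of side `2 C` -/
noncomputable def KC (d : ℕ) (C : ℝ) : ℝ := d * Real.log (2 * C + 3)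

theorem KC_nonneg {C : ℝ} (hC : 0 ≤ C) : 0 ≤ KC d C := by
  unfold KC
  exact mul_nonneg (Nat.cast_nonneg _) (Real.log_nonneg (by linarith))

theorem KC_mono {C C' : ℝ} (hC : 0 ≤ C) (h : C ≤ C') : KC d C ≤ KC d C' := by
  unfold KC
  exact mul_le_mul_of_nonneg_left (Real.log_le_log (by linarith) (by linarith)) (Nat.cast_nonneg _)

theorem card_int_le {C : ℝ} (hC : 0 ≤ C) (z : ℤ) :
    ((Finset.Icc (z - ⌊C + 1⌋) (z + ⌊C + 1⌋)).card : ℝ) ≤ 2 * C + 3 := by
  rw [Int.card_Icc]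
  have h0 : 0 ≤ ⌊C + 1⌋ := Int.floor_nonneg.2 (by linarith)
  have h1 : (z + ⌊C + 1⌋ + 1 - (z - ⌊C + 1⌋)) = 2 * ⌊C + 1⌋ + 1 := by ring
  rw [h1]
  have h2 : ((2 * ⌊C + 1⌋ + 1).toNat : ℤ) = 2 * ⌊C + 1⌋ + 1 := Int.toNat_of_nonneg (by linarith)
  have h3 : ((2 * ⌊C + 1⌋ + 1).toNat : ℝ) = 2 * (⌊C + 1⌋ : ℝ) + 1 := by
    calc ((2 * ⌊C + 1⌋ + 1).toNat : ℝ) = (((2 * ⌊C + 1⌋ + 1).toNat : ℤ) : ℝ) :=
          (Int.cast_natCast _).symm
      _ = ((2 * ⌊C + 1⌋ + 1 : ℤ) : ℝ) := by rw [h2]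
      _ = 2 * (⌊C + 1⌋ : ℝ) + 1 := by push_cast; ring
  rw [h3]
  have := Int.floor_le (C + 1)
  linarith

theorem abs_floor_sub_le {a b C : ℝ} (h : |a - b| ≤ C) : |⌊a⌋ - ⌊b⌋| ≤ ⌊C + 1⌋ := by
  rw [Int.le_floor]
  push_cast
  rw [abs_le] at h ⊢
  have h1 := Int.floor_le a
  have h2 := Int.lt_floor_add_one a
  have h3 := Int.floor_le b
  have h4 := Int.lt_floor_add_one b
  constructor <;> linarith [h.1, h.2]

variable {Ω S T : Type*}

/-- **Comparison lemma.** If `U` is determined by `(B, G)` up to `C r ^ n`, then its cell is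
determined up to `(2 C + 3) ^ d` values. -/
theorem comp {s : Finset Ω} (hs : s.Nonempty) {r : ℝ} (hr : 0 < r) {n : ℕ} {U : Ω → E d}
    {B : Ω → S} {G : Ω → T} {C : ℝ} (hC : 0 ≤ C)
    (h : ∀ ω ∈ s, ∀ ω' ∈ s, G ω' = G ω → B ω' = B ω → ∀ k, |U ω' k - U ω k| ≤ C * r ^ n) :
    CE s (fun ω => cl r n (U ω)) G ≤ CE s B G + KC d C := by
  classical
  have h1 : CE s (fun ω => cl r n (U ω)) G ≤ CE s (fun ω => (cl r n (U ω), B ω)) G :=
    CE_le_of_fun fun ω _ ω' _ _ hh => (Prod.mk.inj hh).1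
  rw [chain] at h1
  refine h1.trans (add_le_add le_rfl ?_)
  have h2 : CE s (fun ω => cl r n (U ω)) (fun x => (B x, G x)) ≤ Real.log ((2 * C + 3) ^ d) := by
    refine CE_le_log hs fun ω hω => ?_
    have hsub : (fib s (fun x => (B x, G x)) ω).image (fun ω => cl r n (U ω)) ⊆
        Fintype.piFinset fun k => Finset.Icc (cl r n (U ω) k - ⌊C + 1⌋)
          (cl r n (U ω) k + ⌊C + 1⌋) := by
      intro v hv
      obtain ⟨ω', hω', rfl⟩ := Finset.mem_image.1 hv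
      rw [mem_fib] at hω'
      simp only [Prod.mk.injEq] at hω'
      rw [Fintype.mem_piFinset]
      intro k
      have h3 := h ω hω ω' hω'.1 hω'.2.2 hω'.2.1 k
      have hrn : 0 < r ^ n := pow_pos hr n
      have h4 : |U ω' k / r ^ n - U ω k / r ^ n| ≤ C := by
        rw [← sub_div, abs_div, abs_of_pos hrn, div_le_iff₀ hrn]
        exact h3
      have h5 := abs_floor_sub_le h4
      rw [abs_le] at h5
      rw [Finset.mem_Icc]
      unfold cl
      constructor <;> linarith [h5.1, h5.2]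
    calc (((fib s (fun x => (B x, G x)) ω).image (fun ω => cl r n (U ω))).card : ℝ) ≤
        ((Fintype.piFinset fun k => Finset.Icc (cl r n (U ω) k - ⌊C + 1⌋)
          (cl r n (U ω) k + ⌊C + 1⌋)).card : ℝ) := by exact_mod_cast Finset.card_le_card hsub
      _ = ∏ k : Fin d, ((Finset.Icc (cl r n (U ω) k - ⌊C + 1⌋)
          (cl r n (U ω) k + ⌊C + 1⌋)).card : ℝ) := by
          rw [Fintype.card_piFinset]; push_cast; rfl
      _ ≤ ∏ _k : Fin d, (2 * C + 3) :=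
          Finset.prod_le_prod (fun _ _ => Nat.cast_nonneg _) fun k _ => card_int_le hC _
      _ = (2 * C + 3) ^ d := by simp
  rw [Real.log_pow] at h2
  exact h2

theorem comp_Ent {s : Finset Ω} (hs : s.Nonempty) {r : ℝ} (hr : 0 < r) {n : ℕ} {U : Ω → E d}
    {B : Ω → S} {C : ℝ} (hC : 0 ≤ C)
    (h : ∀ ω ∈ s, ∀ ω' ∈ s, B ω' = B ω → ∀ k, |U ω' k - U ω k| ≤ C * r ^ n) :
    Ent s (fun ω => cl r n (U ω)) ≤ Ent s B + KC d C := by
  rw [Ent_eq_CE, Ent_eq_CE]
  exact comp hs hr hC fun ω hω ω' hω' _ hB => h ω hω ω' hω' hB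

theorem CE_const (s : Finset Ω) (G : Ω → T) : CE s (fun _ => ()) G = 0 := by
  refine le_antisymm ?_ (CE_nonneg _ _)
  unfold CE
  have : ∀ ω ∈ s, Real.log (nf s G ω / nf s (fun x => ((), G x)) ω) = 0 := by
    intro ω hω
    have h1 : nf s G ω = nf s (fun x => ((), G x)) ω := nf_congr fun x _ => by simp
    rw [h1, div_self (nf_pos hω).ne', Real.log_one]
  rw [Finset.sum_congr rfl this]
  simp

/-- maximal conditional entropy -/
theorem CE_le_KC {s : Finset Ω} (hs : s.Nonempty) {r : ℝ} (hr : 0 < r) {n : ℕ} {U : Ω → E d}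
    {G : Ω → T} {C : ℝ} (hC : 0 ≤ C)
    (h : ∀ ω ∈ s, ∀ ω' ∈ s, G ω' = G ω → ∀ k, |U ω' k - U ω k| ≤ C * r ^ n) :
    CE s (fun ω => cl r n (U ω)) G ≤ KC d C := by
  have := comp hs hr (B := fun _ : Ω => ()) hC fun ω hω ω' hω' hG _ => h ω hω ω' hω' hG
  rwa [CE_const, zero_add] at this

theorem Ent_le_KC {s : Finset Ω} (hs : s.Nonempty) {r : ℝ} (hr : 0 < r) {n : ℕ} {U : Ω → E d}
    {C : ℝ} (hC : 0 ≤ C)
    (h : ∀ ω ∈ s, ∀ ω' ∈ s, ∀ k, |U ω' k - U ω k| ≤ C * r ^ n) :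
    Ent s (fun ω => cl r n (U ω)) ≤ KC d C := by
  rw [Ent_eq_CE]
  exact CE_le_KC hs hr hC fun ω hω ω' hω' _ => h ω hω ω' hω'

/-- points in the same cell -/
theorem abs_sub_le_of_cl_eq {r : ℝ} (hr : 0 < r) {n : ℕ} {x y : E d} (h : cl r n x = cl r n y)
    (k : Fin d) : |x k - y k| ≤ r ^ n := by
  have hrn : 0 < r ^ n := pow_pos hr n
  have h1 : ⌊x k / r ^ n⌋ = ⌊y k / r ^ n⌋ := congrFun h k
  have h2 := Int.abs_sub_lt_one_of_floor_eq_floor h1
  rw [← sub_div, abs_div, abs_of_pos hrn, div_lt_one hrn] at h2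
  exact h2.le

theorem abs_apply_le_norm (x : E d) (k : Fin d) : |x k| ≤ ‖x‖ := by
  rw [EuclideanSpace.norm_eq, ← Real.sqrt_sq_eq_abs]
  refine Real.sqrt_le_sqrt ?_
  have h : ∀ i ∈ (Finset.univ : Finset (Fin d)), 0 ≤ ‖x i‖ ^ 2 := fun _ _ => by positivity
  have h1 := Finset.single_le_sum h (Finset.mem_univ k)
  simpa using h1

theorem norm_le_of_abs_le {x : E d} {C : ℝ} (hC : 0 ≤ C) (h : ∀ k, |x k| ≤ C) :
    ‖x‖ ≤ Real.sqrt d * C := by
  rw [EuclideanSpace.norm_eq]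
  calc Real.sqrt (∑ i, ‖x i‖ ^ 2) ≤ Real.sqrt (∑ _i : Fin d, C ^ 2) := by
        refine Real.sqrt_le_sqrt (Finset.sum_le_sum fun i _ => ?_)
        rw [Real.norm_eq_abs]
        exact pow_le_pow_left₀ (abs_nonneg _) (h i) 2
    _ = Real.sqrt (d * C ^ 2) := by simp
    _ = Real.sqrt d * C := by
        rw [Real.sqrt_mul (Nat.cast_nonneg _), Real.sqrt_sq hC]

theorem norm_sub_le_of_cl_eq {r : ℝ} (hr : 0 < r) {n : ℕ} {x y : E d} (h : cl r n x = cl r n y) :
    ‖x - y‖ ≤ Real.sqrt d * r ^ n :=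
  norm_le_of_abs_le (pow_pos hr n).le fun k => by
    simpa using abs_sub_le_of_cl_eq hr h k

/-! ### words -/

variable {I : Type}

theorem X_append (c : I → E d) (r : ℝ) (n k : ℕ) (ω : Fin n → I) (ω' : Fin k → I) :
    X c r (n + k) (Fin.append ω ω') = X c r n ω + r ^ n • X c r k ω' := by
  unfold X
  rw [Fin.sum_univ_add, Finset.smul_sum]
  congr 1
  · refine Finset.sum_congr rfl fun i _ => ?_
    simp
  · refine Finset.sum_congr rfl fun i _ => ?_
    simp [pow_add, mul_smul]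

theorem norm_X_le {c : I → E d} {r R₀ : ℝ} (hr : 0 < r) (hr1 : r < 1) (hR : 0 ≤ R₀)
    (hc : ∀ i, ‖c i‖ ≤ R₀) (n : ℕ) (ω : Fin n → I) : ‖X c r n ω‖ ≤ R₀ / (1 - r) := by
  unfold X
  have h1 : ‖∑ j : Fin n, r ^ (j : ℕ) • c (ω j)‖ ≤ ∑ j : Fin n, r ^ (j : ℕ) * R₀ := by
    refine (norm_sum_le _ _).trans (Finset.sum_le_sum fun j _ => ?_)
    rw [norm_smul, Real.norm_eq_abs, abs_of_pos (pow_pos hr _)]
    exact mul_le_mul_of_nonneg_left (hc _) (pow_pos hr _).le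
  refine h1.trans ?_
  rw [← Finset.sum_mul, Fin.sum_univ_eq_sum_range (fun j => r ^ j) n]
  rw [div_eq_mul_inv, mul_comm]
  refine mul_le_mul_of_nonneg_left ?_ hR
  have h2 := geom_sum_eq (x := r) (by linarith : r ≠ 1) n
  rw [h2, div_eq_mul_inv]
  have h3 : (r ^ n - 1) * (r - 1)⁻¹ = (1 - r ^ n) * (1 - r)⁻¹ := by
    have h4 : r - 1 ≠ 0 := by linarith
    have h5 : (1 : ℝ) - r ≠ 0 := by linarith
    field_simp
    ring
  rw [h3]
  have h6 : (0 : ℝ) < (1 - r)⁻¹ := inv_pos.2 (by linarith)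
  have h7 : 0 < r ^ n := pow_pos hr n
  nlinarith

/-- image of the points under a linear map -/
theorem X_map (P : E d →ₗ[ℝ] E d) (c : I → E d) (r : ℝ) (n : ℕ) (ω : Fin n → I) :
    X (fun i => P (c i)) r n ω = P (X c r n ω) := by
  unfold X
  rw [map_sum]
  refine Finset.sum_congr rfl fun j _ => ?_
  rw [map_smul]

/-! ### level entropies -/

variable [Fintype I]

/-- the entropy at level `n` -/
noncomputable def he (c : I → E d) (r : ℝ) (n : ℕ) : ℝ :=
  Ent univ (fun ω : Fin n → I => cl r n (X c r n ω))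

theorem he_nonneg (c : I → E d) (r : ℝ) (n : ℕ) : 0 ≤ he c r n := Ent_nonneg _

/-- scaling and translation of a variable -/
theorem Ent_cl_shift {Ω : Type*} {s : Finset Ω} (hs : s.Nonempty) {r : ℝ} (hr : 0 < r) (n k : ℕ)
    (U V : Ω → E d) {C : ℝ} (hC : 0 ≤ C) (x₀ : E d)
    (h : ∀ ω ∈ s, ∀ l, |V ω l - (x₀ l + r ^ n * U ω l)| ≤ C * r ^ (n + k)) :
    Ent s (fun ω => cl r k (U ω)) ≤ Ent s (fun ω => cl r (n + k) (V ω)) + KC d (2 * C + 1) := by
  refine comp_Ent hs hr (by linarith) fun ω hω ω' hω' hB l => ?_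
  have h1 := abs_sub_le_of_cl_eq hr hB l
  have h2 := h ω hω l
  have h3 := h ω' hω' l
  have hrn : 0 < r ^ n := pow_pos hr n
  rw [pow_add] at h1 h2 h3
  have h4 : r ^ n * |U ω' l - U ω l| ≤ r ^ n * ((2 * C + 1) * r ^ k) := by
    rw [← abs_of_pos hrn, ← abs_mul, abs_of_pos hrn]
    have : r ^ n * (U ω' l - U ω l) = (V ω' l - V ω l) - (V ω' l - (x₀ l + r ^ n * U ω' l)) +
        (V ω l - (x₀ l + r ^ n * U ω l)) := by ring
    rw [this]
    refine (abs_add_le _ _).trans ?_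
    have h5 := abs_sub (V ω' l - V ω l) (V ω' l - (x₀ l + r ^ n * U ω' l))
    nlinarith
  exact le_of_mul_le_mul_left h4 hrn

theorem CE_fst_ge {Ω₁ Ω₂ S : Type*} [Fintype Ω₁] [Fintype Ω₂] [Nonempty Ω₁] [Nonempty Ω₂]
    (A : Ω₁ × Ω₂ → S) {x : ℝ} (h : ∀ y : Ω₁, x ≤ Ent univ (fun z : Ω₂ => A (y, z))) :
    x ≤ CE univ A (fun z => z.1) := by
  have h1 : CE univ A (fun z => z.1) = CE univ (fun z : Ω₂ × Ω₁ => A (z.2, z.1)) (fun z => z.2) := by
    rw [← CE_equiv (Equiv.prodComm Ω₂ Ω₁)]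
    rfl
  rw [h1, CE_snd_eq_avg]
  have hc : (0 : ℝ) < Fintype.card Ω₁ := by exact_mod_cast Fintype.card_pos
  rw [le_div_iff₀ hc]
  calc x * Fintype.card Ω₁ = ∑ _y : Ω₁, x := by simp [mul_comm]
    _ ≤ _ := Finset.sum_le_sum fun y _ => h y

theorem CE_snd_ge {Ω₁ Ω₂ S : Type*} [Fintype Ω₁] [Fintype Ω₂] [Nonempty Ω₁] [Nonempty Ω₂]
    (A : Ω₁ × Ω₂ → S) {x : ℝ} (h : ∀ y : Ω₂, x ≤ Ent univ (fun z : Ω₁ => A (z, y))) :
    x ≤ CE univ A (fun z => z.2) := by
  rw [CE_snd_eq_avg]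
  have hc : (0 : ℝ) < Fintype.card Ω₂ := by exact_mod_cast Fintype.card_pos
  rw [le_div_iff₀ hc]
  calc x * Fintype.card Ω₂ = ∑ _y : Ω₂, x := by simp [mul_comm]
    _ ≤ _ := Finset.sum_le_sum fun y _ => h y

variable [Nonempty I]

/-- splitting a word -/
def splitW (n k : ℕ) : (Fin n → I) × (Fin k → I) ≃ (Fin (n + k) → I) := Fin.appendEquiv n k

omit [Fintype I] [Nonempty I] in
theorem splitW_apply (n k : ℕ) (x : (Fin n → I) × (Fin k → I)) :
    splitW n k x = Fin.append x.1 x.2 := rfl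

theorem he_add_eq (c : I → E d) (r : ℝ) (n k : ℕ) :
    he c r (n + k) = Ent univ (fun x : (Fin n → I) × (Fin k → I) =>
      cl r (n + k) (X c r n x.1 + r ^ n • X c r k x.2)) := by
  unfold he
  rw [← Ent_equiv (splitW n k)]
  congr 1
  funext x
  simp only [Function.comp, splitW_apply, X_append]

/-- the entropy given the coarse cell of the first part -/
theorem he_add_ge (c : I → E d) {r R : ℝ} (hr : 0 < r) (hr1 : r < 1) (hR : 0 ≤ R)
    (hX : ∀ (k : ℕ) (ω : Fin k → I), ‖X c r k ω‖ ≤ R) (n k : ℕ) :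
    he c r n + CE univ (fun x : (Fin n → I) × (Fin k → I) =>
      cl r (n + k) (X c r n x.1 + r ^ n • X c r k x.2)) (fun x => cl r n (X c r n x.1)) ≤
      he c r (n + k) + KC d (2 * R + 1) := by
  have h1 : he c r n = Ent univ (fun x : (Fin n → I) × (Fin k → I) => cl r n (X c r n x.1)) :=
    (Ent_fst (Ω₂ := Fin k → I) (fun ω : Fin n → I => cl r n (X c r n ω))).symm
  rw [h1, ← chain_Ent, he_add_eq]
  set Z := fun x : (Fin n → I) × (Fin k → I) => cl r (n + k) (X c r n x.1 + r ^ n • X c r k x.2)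
    with hZ
  set A := fun x : (Fin n → I) × (Fin k → I) => cl r n (X c r n x.1) with hA
  have h2 : Ent univ (fun x => (Z x, A x)) = Ent univ Z + CE univ A Z := by
    rw [← chain_Ent]
    exact Ent_congr fun x _ y _ => by simp only [Prod.mk.injEq]; tauto
  rw [h2]
  refine add_le_add le_rfl ?_
  refine CE_le_KC Finset.univ_nonempty hr (by linarith) fun x _ y _ hxy l => ?_
  have h3 := abs_sub_le_of_cl_eq hr hxy l
  have h4 := (abs_apply_le_norm _ l).trans (hX k x.2)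
  have h5 := (abs_apply_le_norm _ l).trans (hX k y.2)
  have hrn : 0 < r ^ n := pow_pos hr n
  have hrk : r ^ k ≤ 1 := pow_le_one₀ hr.le hr1.le
  simp only [PiLp.add_apply, PiLp.smul_apply, smul_eq_mul] at h3
  rw [pow_add] at h3
  rw [abs_le] at h3 h4 h5 ⊢
  have h6 : r ^ n * r ^ k ≤ r ^ n := by nlinarith
  constructor <;> nlinarith [h3.1, h3.2, h4.1, h4.2, h5.1, h5.2]

/-- entropy of the fine part -/
theorem he_le_CE (c : I → E d) {r : ℝ} (hr : 0 < r) (n k : ℕ) :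
    he c r k ≤ CE univ (fun x : (Fin n → I) × (Fin k → I) =>
      cl r (n + k) (X c r n x.1 + r ^ n • X c r k x.2)) (fun x => cl r n (X c r n x.1)) +
      KC d 1 := by
  have h0 : he c r k - KC d 1 ≤ CE univ (fun x : (Fin n → I) × (Fin k → I) =>
      cl r (n + k) (X c r n x.1 + r ^ n • X c r k x.2)) (fun x => x.1) := by
    refine CE_fst_ge _ fun y => ?_
    have := Ent_cl_shift (s := univ) Finset.univ_nonempty hr n k (fun ω : Fin k → I => X c r k ω)
      (fun ω => X c r n y + r ^ n • X c r k ω) (C := 0) le_rfl (X c r n y) (fun ω _ l => by simp)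
    simp only [mul_zero, zero_add] at this
    unfold he
    linarith
  have h1 : CE univ (fun x : (Fin n → I) × (Fin k → I) =>
      cl r (n + k) (X c r n x.1 + r ^ n • X c r k x.2)) (fun x => x.1) ≤
      CE univ (fun x : (Fin n → I) × (Fin k → I) =>
      cl r (n + k) (X c r n x.1 + r ^ n • X c r k x.2)) (fun x => cl r n (X c r n x.1)) :=
    CE_anti fun x _ y _ h => by rw [h]
  linarith

/-- superadditivity -/
theorem he_superadd (c : I → E d) {r R : ℝ} (hr : 0 < r) (hr1 : r < 1) (hR : 0 ≤ R)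
    (hX : ∀ (k : ℕ) (ω : Fin k → I), ‖X c r k ω‖ ≤ R) (n k : ℕ) :
    he c r n + he c r k ≤ he c r (n + k) + (KC d (2 * R + 1) + KC d 1) := by
  have h1 := he_add_ge c hr hr1 hR hX n k
  have h2 := he_le_CE c hr n k
  linarith

theorem he_le_log (c : I → E d) (r : ℝ) (n : ℕ) :
    he c r n ≤ n * Real.log (Fintype.card I) := by
  classical
  have h := Ent_le_log (s := (univ : Finset (Fin n → I))) (A := fun ω => cl r n (X c r n ω))
    Finset.univ_nonempty (M := (Fintype.card I : ℝ) ^ n) (by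
      calc (((univ : Finset (Fin n → I)).image (fun ω => cl r n (X c r n ω))).card : ℝ) ≤
          ((univ : Finset (Fin n → I)).card : ℝ) := by exact_mod_cast Finset.card_image_le
        _ = (Fintype.card I : ℝ) ^ n := by
          rw [Finset.card_univ, Fintype.card_fun, Fintype.card_fin]
          push_cast
          rfl)
  rw [Real.log_pow] at h
  exact h

end Pool.Agent.V5helper28.SSK
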