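import Pool.Agent.V5helper28.SSK.Defs

/-!
# JOB F: sums of independent copies contain many arithmetic progressions

Uniform distribution on the finite set `F`; a proportion `p` of the elements is matched in pairs
(`φ`), `Y` changes by at most `δ` within each pair.  Then `F ^ j` (for some `j` depending only on
`d`, `p`, `L`) contains, up to a proportion `15/16`, a disjoint union of sets on which `∑ Y` is an
arithmetic progression of length `L` with a step `Y (φ (true, m₀)) - Y (φ (false, m₀))`, up to
errors `δ`.

Proof: round the steps `z m = Y (φ (true, m)) - Y (φ (false, m))` to a grid of mesh `τ δ`,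
`τ ≈ 1 / j'`, `j' = 2 L²`; one class `M₀` contains a proportion `≥ p₃ > 0` (depending on `d`,
`p`, `j'`) of `F` (as `φ (Bool × M₀)`).  Take `j = j' n₀`, `n₀` so large that `(1 - p₃) ^ n₀ ≤ 1 / (2 j')`.
In each of the `j'` groups of `n₀` coordinates let the first coordinate in `φ (Bool × M₀)` be the coin of
the group; the tuples for which every group has a coin have proportion at least `1/2`.  They are in
bijection with `(Fin j' → Bool) × M''`, and `∑ Y` is `s (m'') + (number of true coins) • z m₀` up to
`j' τ δ ≤ δ`.  Finally `Fin j' → Bool` contains `≥ c 2 ^ j'` disjoint transversals (sets with exactly one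
element of each weight `h₀, ..., h₀ + L - 1`), since for `j' = 2 n`, `n = L²`, one has `(2 n).choose h ≥ 4 ^ n / (4 √n)` for
`|h - n| ≤ √n / 2` (total proportion `≥ 1/4 · 1/2`).
-/

set_option autoImplicit false

namespace Pool.Agent.V5helper28.SSK

/-- JOB F -/
def JobF : Prop :=
  ∀ (d : ℕ) (p : ℝ) (L : ℕ), 0 < p → 1 ≤ L → ∃ j : ℕ, ∀ (F M : Type) [Fintype F] [Fintype M]
    (φ : Bool × M → F) (Y : F → E d) (δ : ℝ), 0 < δ → Nonempty F → Function.Injective φ →
    p * Fintype.card F ≤ 2 * Fintype.card M →
    (∀ m, ‖Y (φ (true, m)) - Y (φ (false, m))‖ ≤ δ) →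
    ∃ (m₀ : M) (M' : Type) (_ : Fintype M') (Φ : Fin L × M' → Fin j → F) (s : M' → E d),
      Function.Injective Φ ∧ (Fintype.card F) ^ j ≤ 16 * (L * Fintype.card M') ∧
      ∀ (h : Fin L) (m : M'),
        ‖∑ l, Y (Φ (h, m) l) - s m -
          ((h : ℕ) : ℝ) • (Y (φ (true, m₀)) - Y (φ (false, m₀)))‖ ≤ δ

end Pool.Agent.V5helper28.SSK
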