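import Mathlib

/-!
# Entropies of functions on finite sets with the uniform distribution
-/

set_option autoImplicit false

namespace Pool.Agent.V5helper28.SSK

open Finset

open Classical in
/-- The elements of `s` at which `A` has the same value as at `ω`. -/
noncomputable def fib {Ω S : Type*} (s : Finset Ω) (A : Ω → S) (ω : Ω) : Finset Ω :=
  s.filter fun ω' => A ω' = A ω

/-- The number of these elements. -/
noncomputable def nf {Ω S : Type*} (s : Finset Ω) (A : Ω → S) (ω : Ω) : ℝ := (fib s A ω).card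

/-- Conditional entropy of `A` given `B`, uniform distribution on `s`. -/
noncomputable def CE {Ω S T : Type*} (s : Finset Ω) (A : Ω → S) (B : Ω → T) : ℝ :=
  (∑ ω ∈ s, Real.log (nf s B ω / nf s (fun x => (A x, B x)) ω)) / s.card

/-- Entropy of `A`, uniform distribution on `s`. -/
noncomputable def Ent {Ω S : Type*} (s : Finset Ω) (A : Ω → S) : ℝ :=
  (∑ ω ∈ s, Real.log (s.card / nf s A ω)) / s.card

section basic

variable {Ω S T U : Type*} {s : Finset Ω}

theorem mem_fib {A : Ω → S} {ω ω' : Ω} : ω' ∈ fib s A ω ↔ ω' ∈ s ∧ A ω' = A ω := by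
  classical
  simp [fib]

theorem self_mem_fib {A : Ω → S} {ω : Ω} (h : ω ∈ s) : ω ∈ fib s A ω := mem_fib.2 ⟨h, rfl⟩

theorem fib_subset (A : Ω → S) (ω : Ω) : fib s A ω ⊆ s := fun _ h => (mem_fib.1 h).1

theorem nf_pos {A : Ω → S} {ω : Ω} (h : ω ∈ s) : 0 < nf s A ω := by
  unfold nf
  exact_mod_cast Finset.card_pos.2 ⟨ω, self_mem_fib h⟩

theorem one_le_nf {A : Ω → S} {ω : Ω} (h : ω ∈ s) : 1 ≤ nf s A ω := by
  unfold nf
  exact_mod_cast Finset.card_pos.2 ⟨ω, self_mem_fib h⟩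

theorem nf_le_card (A : Ω → S) (ω : Ω) : nf s A ω ≤ s.card := by
  unfold nf
  exact_mod_cast Finset.card_le_card (fib_subset A ω)

theorem nf_mono {A : Ω → S} {B : Ω → T} {ω : Ω}
    (h : ∀ ω' ∈ s, A ω' = A ω → B ω' = B ω) : nf s A ω ≤ nf s B ω := by
  unfold nf
  exact_mod_cast Finset.card_le_card fun x hx =>
    mem_fib.2 ⟨(mem_fib.1 hx).1, h x (mem_fib.1 hx).1 (mem_fib.1 hx).2⟩

theorem nf_congr {A : Ω → S} {B : Ω → T} {ω : Ω}
    (h : ∀ ω' ∈ s, A ω' = A ω ↔ B ω' = B ω) : nf s A ω = nf s B ω :=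
  le_antisymm (nf_mono fun x hx => (h x hx).1) (nf_mono fun x hx => (h x hx).2)

theorem Ent_eq_CE (A : Ω → S) : Ent s A = CE s A (fun _ => ()) := by
  unfold Ent CE
  congr 1
  refine Finset.sum_congr rfl fun ω _ => ?_
  have h1 : nf s (fun _ => ()) ω = s.card := by
    unfold nf
    congr 2
    ext x
    simp [mem_fib]
  have h2 : nf s (fun x => (A x, ())) ω = nf s A ω := nf_congr fun x _ => by simp
  rw [h1, h2]

theorem CE_congr {A : Ω → S} {B : Ω → T} {S' T' : Type*} {A' : Ω → S'} {B' : Ω → T'}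
    (hB : ∀ ω ∈ s, ∀ ω' ∈ s, B ω' = B ω ↔ B' ω' = B' ω)
    (hA : ∀ ω ∈ s, ∀ ω' ∈ s, B ω' = B ω → (A ω' = A ω ↔ A' ω' = A' ω)) :
    CE s A B = CE s A' B' := by
  unfold CE
  congr 1
  refine Finset.sum_congr rfl fun ω hω => ?_
  have h1 : nf s B ω = nf s B' ω := nf_congr (hB ω hω)
  have h2 : nf s (fun x => (A x, B x)) ω = nf s (fun x => (A' x, B' x)) ω := by
    refine nf_congr fun x hx => ?_
    simp only [Prod.mk.injEq]
    constructor
    · rintro ⟨ha, hb⟩
      exact ⟨(hA ω hω x hx hb).1 ha, (hB ω hω x hx).1 hb⟩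
    · rintro ⟨ha, hb⟩
      have hb' := (hB ω hω x hx).2 hb
      exact ⟨(hA ω hω x hx hb').2 ha, hb'⟩
  rw [h1, h2]

theorem Ent_congr {A : Ω → S} {S' : Type*} {A' : Ω → S'}
    (hA : ∀ ω ∈ s, ∀ ω' ∈ s, (A ω' = A ω ↔ A' ω' = A' ω)) : Ent s A = Ent s A' := by
  rw [Ent_eq_CE, Ent_eq_CE]
  exact CE_congr (fun _ _ _ _ => by simp) fun ω hω ω' hω' _ => hA ω hω ω' hω'

theorem CE_nonneg (A : Ω → S) (B : Ω → T) : 0 ≤ CE s A B := by
  unfold CE
  refine div_nonneg (Finset.sum_nonneg fun ω hω => Real.log_nonneg ?_) (Nat.cast_nonneg _)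
  rw [le_div_iff₀ (nf_pos hω), one_mul]
  exact nf_mono fun x _ h => (Prod.mk.inj h).2

theorem Ent_nonneg (A : Ω → S) : 0 ≤ Ent s A := by
  rw [Ent_eq_CE]; exact CE_nonneg _ _

/-- chain rule -/
theorem chain (A : Ω → S) (B : Ω → T) (C : Ω → U) :
    CE s (fun x => (A x, B x)) C = CE s B C + CE s A (fun x => (B x, C x)) := by
  unfold CE
  rw [← add_div, ← Finset.sum_add_distrib]
  congr 1
  refine Finset.sum_congr rfl fun ω hω => ?_
  have h1 : nf s (fun x => ((A x, B x), C x)) ω = nf s (fun x => (A x, B x, C x)) ω :=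
    nf_congr fun x _ => by simp [and_assoc]
  rw [h1, ← Real.log_mul (div_pos (nf_pos hω) (nf_pos hω)).ne'
    (div_pos (nf_pos hω) (nf_pos hω)).ne', div_mul_div_cancel₀ (nf_pos hω).ne']

theorem chain_Ent (A : Ω → S) (B : Ω → T) :
    Ent s (fun x => (A x, B x)) = Ent s B + CE s A B := by
  rw [Ent_eq_CE, Ent_eq_CE, chain]
  congr 1
  exact CE_congr (fun _ _ _ _ => by simp) fun _ _ _ _ _ => Iff.rfl

theorem fib_eq_of_eq {A : Ω → S} {ω ω₀ : Ω} (h : A ω = A ω₀) : fib s A ω = fib s A ω₀ := by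
  ext x
  rw [mem_fib, mem_fib, h]

theorem nf_eq_of_eq {A : Ω → S} {ω ω₀ : Ω} (h : A ω = A ω₀) : nf s A ω = nf s A ω₀ := by
  unfold nf
  rw [fib_eq_of_eq h]

/-- the sum over `t` of the reciprocals of the sizes of the fibres is the number of values -/
theorem sum_inv_nf (t : Finset Ω) (A : Ω → S) [DecidableEq S] :
    ∑ ω ∈ t, (nf t A ω)⁻¹ = (t.image A).card := by
  classical
  rw [← Finset.sum_fiberwise_of_maps_to (t := t.image A) (g := A)
    (fun x hx => Finset.mem_image_of_mem _ hx)]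
  rw [Finset.card_eq_sum_ones]
  push_cast
  refine Finset.sum_congr rfl fun a ha => ?_
  obtain ⟨ω₀, hω₀, rfl⟩ := Finset.mem_image.1 ha
  have : ∀ ω ∈ t.filter (fun i => A i = A ω₀), (nf t A ω)⁻¹ = (nf t A ω₀)⁻¹ := by
    intro ω hω
    rw [Finset.mem_filter] at hω
    congr 1
    exact nf_eq_of_eq hω.2
  rw [Finset.sum_congr rfl this, Finset.sum_const]
  have h2 : ((t.filter (fun i => A i = A ω₀)).card : ℝ) = nf t A ω₀ := by
    unfold nf fib
    congr!
  rw [nsmul_eq_mul, h2, mul_inv_cancel₀ (nf_pos hω₀).ne']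

/-- swapping sums over fibres -/
theorem sum_fib_swap (A : Ω → S) (f : Ω → Ω → ℝ) :
    ∑ ω ∈ s, ∑ ω' ∈ fib s A ω, f ω ω' = ∑ ω' ∈ s, ∑ ω ∈ fib s A ω', f ω ω' := by
  classical
  unfold fib
  simp only [Finset.sum_filter]
  rw [Finset.sum_comm]
  refine Finset.sum_congr rfl fun x _ => Finset.sum_congr rfl fun y _ => ?_
  simp only [eq_comm]

/-- submodularity -/
theorem CE_mono (A : Ω → S) (B : Ω → T) (C : Ω → U) :
    CE s A (fun x => (B x, C x)) ≤ CE s A B := by
  classical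
  unfold CE
  refine div_le_div_of_nonneg_right ?_ (Nat.cast_nonneg _)
  rw [← sub_nonneg, ← Finset.sum_sub_distrib]
  set nB := nf s B with hnB
  set nAB := nf s (fun x => (A x, B x)) with hnAB
  set nBC := nf s (fun x => (B x, C x)) with hnBC
  set nABC := nf s (fun x => (A x, B x, C x)) with hnABC
  have key : ∑ ω ∈ s, nAB ω * nBC ω / (nB ω * nABC ω) ≤ s.card := by
    -- expand `nAB` and `nBC` as sums
    have h1 : ∀ ω ∈ s, nAB ω * nBC ω / (nB ω * nABC ω) =
        ∑ ω₁ ∈ s, ∑ ω₂ ∈ s, if (A ω₁ = A ω ∧ B ω₁ = B ω) ∧ (B ω₂ = B ω ∧ C ω₂ = C ω) then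
          (nB ω * nABC ω)⁻¹ else 0 := by
      intro ω hω
      have e1 : nAB ω = ∑ ω₁ ∈ s, if (A ω₁ = A ω ∧ B ω₁ = B ω) then (1 : ℝ) else 0 := by
        rw [Finset.sum_boole, hnAB]
        unfold nf fib
        simp only [Prod.mk.injEq]
      have e2 : nBC ω = ∑ ω₁ ∈ s, if (B ω₁ = B ω ∧ C ω₁ = C ω) then (1 : ℝ) else 0 := by
        rw [Finset.sum_boole, hnBC]
        unfold nf fib
        simp only [Prod.mk.injEq]
      rw [div_eq_mul_inv, e1, e2, Finset.sum_mul_sum, Finset.sum_mul]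
      refine Finset.sum_congr rfl fun x _ => ?_
      rw [Finset.sum_mul]
      refine Finset.sum_congr rfl fun y _ => ?_
      by_cases hx : (A x = A ω ∧ B x = B ω) <;> by_cases hy : (B y = B ω ∧ C y = C ω) <;>
        simp [hx, hy]
    rw [Finset.sum_congr rfl h1, Finset.sum_comm]
    have h2 : ∀ ω₁ ∈ s, (∑ ω ∈ s, ∑ ω₂ ∈ s,
        if (A ω₁ = A ω ∧ B ω₁ = B ω) ∧ (B ω₂ = B ω ∧ C ω₂ = C ω) then (nB ω * nABC ω)⁻¹ else 0) ≤
        1 := by
      intro ω₁ hω₁
      rw [Finset.sum_comm]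
      have h3 : ∀ ω₂ ∈ s, (∑ ω ∈ s,
          if (A ω₁ = A ω ∧ B ω₁ = B ω) ∧ (B ω₂ = B ω ∧ C ω₂ = C ω) then (nB ω * nABC ω)⁻¹ else 0) ≤
          if B ω₂ = B ω₁ then (nB ω₁)⁻¹ else 0 := by
        intro ω₂ hω₂
        by_cases hb : B ω₂ = B ω₁
        · rw [if_pos hb]
          by_cases hex : ∃ ω₀ ∈ s, (A ω₁ = A ω₀ ∧ B ω₁ = B ω₀) ∧ (B ω₂ = B ω₀ ∧ C ω₂ = C ω₀)
          · obtain ⟨ω₀, hω₀, h0⟩ := hex
            rw [← Finset.sum_filter]
            have h4 : ∀ ω ∈ s.filter (fun ω => (A ω₁ = A ω ∧ B ω₁ = B ω) ∧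
                (B ω₂ = B ω ∧ C ω₂ = C ω)), (nB ω * nABC ω)⁻¹ = (nB ω₁ * nABC ω₀)⁻¹ := by
              intro ω hω
              rw [Finset.mem_filter] at hω
              obtain ⟨_, ⟨ha, hb'⟩, hb2, hc⟩ := hω
              have q1 : nB ω = nB ω₁ := nf_eq_of_eq hb'.symm
              have q2 : nABC ω = nABC ω₀ := by
                refine nf_eq_of_eq ?_
                simp only [Prod.mk.injEq]
                exact ⟨ha.symm.trans h0.1.1, hb'.symm.trans h0.1.2, hc.symm.trans h0.2.2⟩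
              rw [q1, q2]
            rw [Finset.sum_congr rfl h4, Finset.sum_const, nsmul_eq_mul]
            have h5 : ((s.filter (fun ω => (A ω₁ = A ω ∧ B ω₁ = B ω) ∧
                (B ω₂ = B ω ∧ C ω₂ = C ω))).card : ℝ) ≤ nABC ω₀ := by
              rw [hnABC]
              unfold nf
              exact_mod_cast Finset.card_le_card fun ω hω => by
                rw [Finset.mem_filter] at hω
                obtain ⟨hs, ⟨ha, hb'⟩, hb2, hc⟩ := hω
                rw [mem_fib]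
                refine ⟨hs, ?_⟩
                simp only [Prod.mk.injEq]
                exact ⟨ha.symm.trans h0.1.1, hb'.symm.trans h0.1.2, hc.symm.trans h0.2.2⟩
            have p1 : 0 < nB ω₁ := nf_pos hω₁
            have p2 : 0 < nABC ω₀ := nf_pos hω₀
            rw [mul_inv, ← mul_assoc, mul_comm _ (nB ω₁)⁻¹, mul_assoc]
            calc (nB ω₁)⁻¹ * (_ * (nABC ω₀)⁻¹) ≤ (nB ω₁)⁻¹ * (nABC ω₀ * (nABC ω₀)⁻¹) := by
                  gcongr
              _ = (nB ω₁)⁻¹ := by rw [mul_inv_cancel₀ p2.ne', mul_one]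
          · push Not at hex
            rw [Finset.sum_eq_zero]
            · exact inv_nonneg.2 (nf_pos hω₁).le
            · intro ω hω
              rw [if_neg]
              rintro ⟨h6, h7⟩
              exact hex ω hω h6 h7.1 h7.2
        · rw [if_neg hb, Finset.sum_eq_zero]
          intro ω _
          rw [if_neg]
          rintro ⟨h6, h7⟩
          exact hb (h7.1.trans h6.2.symm)
      refine (Finset.sum_le_sum h3).trans ?_
      rw [← Finset.sum_filter, Finset.sum_const, nsmul_eq_mul]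
      have : ((s.filter (fun a => B a = B ω₁)).card : ℝ) = nB ω₁ := by
        rw [hnB]; unfold nf fib; rfl
      rw [this, mul_inv_cancel₀ (nf_pos hω₁).ne']
    calc _ ≤ ∑ ω₁ ∈ s, (1 : ℝ) := Finset.sum_le_sum h2
      _ = s.card := by simp
  have h8 : ∀ ω ∈ s, 1 - nAB ω * nBC ω / (nB ω * nABC ω) ≤
      Real.log (nB ω / nAB ω) - Real.log (nBC ω / nABC ω) := by
    intro ω hω
    have p1 : 0 < nB ω := nf_pos hω
    have p2 : 0 < nAB ω := nf_pos hω
    have p3 : 0 < nBC ω := nf_pos hω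
    have p4 : 0 < nABC ω := nf_pos hω
    have h9 := Real.log_le_sub_one_of_pos (x := nAB ω * nBC ω / (nB ω * nABC ω)) (by positivity)
    have h10 : Real.log (nAB ω * nBC ω / (nB ω * nABC ω)) =
        -(Real.log (nB ω / nAB ω) - Real.log (nBC ω / nABC ω)) := by
      rw [Real.log_div (by positivity) (by positivity), Real.log_mul p2.ne' p3.ne',
        Real.log_mul p1.ne' p4.ne', Real.log_div p1.ne' p2.ne', Real.log_div p3.ne' p4.ne']
      ring
    linarith
  have h11 := Finset.sum_le_sum h8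
  rw [Finset.sum_sub_distrib] at h11
  have h12 : ∑ ω ∈ s, (1 : ℝ) = s.card := by simp
  rw [h12] at h11
  linarith

/-- Conditioning on more: `C` is a function of `B`. -/
theorem CE_anti {A : Ω → S} {B : Ω → T} {C : Ω → U}
    (h : ∀ ω ∈ s, ∀ ω' ∈ s, B ω' = B ω → C ω' = C ω) : CE s A B ≤ CE s A C := by
  have h1 : CE s A B = CE s A (fun x => (C x, B x)) := by
    refine CE_congr (fun ω hω ω' hω' => ?_) fun _ _ _ _ _ => Iff.rfl
    simp only [Prod.mk.injEq]
    exact ⟨fun hb => ⟨h ω hω ω' hω' hb, hb⟩, fun hb => hb.2⟩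
  rw [h1]
  exact CE_mono A C B

theorem CE_le_Ent (A : Ω → S) (B : Ω → T) : CE s A B ≤ Ent s A := by
  rw [Ent_eq_CE]
  exact CE_anti fun _ _ _ _ _ => rfl

/-- `A` is a function of `(A', B)`. -/
theorem CE_le_of_fun {A : Ω → S} {B : Ω → T} {A' : Ω → U}
    (h : ∀ ω ∈ s, ∀ ω' ∈ s, B ω' = B ω → A' ω' = A' ω → A ω' = A ω) : CE s A B ≤ CE s A' B := by
  unfold CE
  refine div_le_div_of_nonneg_right (Finset.sum_le_sum fun ω hω => ?_) (Nat.cast_nonneg _)
  refine Real.log_le_log (div_pos (nf_pos hω) (nf_pos hω)) ?_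
  refine div_le_div_of_nonneg_left (nf_pos hω).le (nf_pos hω) (nf_mono fun x hx hh => ?_)
  simp only [Prod.mk.injEq] at hh ⊢
  exact ⟨h ω hω x hx hh.2 hh.1, hh.2⟩

theorem Ent_le_of_fun {A : Ω → S} {A' : Ω → U}
    (h : ∀ ω ∈ s, ∀ ω' ∈ s, A' ω' = A' ω → A ω' = A ω) : Ent s A ≤ Ent s A' := by
  rw [Ent_eq_CE, Ent_eq_CE]
  exact CE_le_of_fun fun ω hω ω' hω' _ => h ω hω ω' hω'

/-- The conditional entropy is the average of the entropies on the fibres. -/
theorem CE_eq_avg (A : Ω → S) (B : Ω → T) :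
    CE s A B = (∑ ω ∈ s, Ent (fib s B ω) A) / s.card := by
  classical
  unfold CE
  congr 1
  have h1 : ∀ ω ∈ s, Ent (fib s B ω) A =
      ∑ ω' ∈ fib s B ω, Real.log (nf s B ω' / nf s (fun x => (A x, B x)) ω') / nf s B ω' := by
    intro ω hω
    unfold Ent
    rw [Finset.sum_div]
    refine Finset.sum_congr rfl fun x hx => ?_
    have hx' := mem_fib.1 hx
    have e1 : ((fib s B ω).card : ℝ) = nf s B x := (nf_eq_of_eq (s := s) hx'.2).symm
    have e2 : nf (fib s B ω) A x = nf s (fun x => (A x, B x)) x := by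
      unfold nf
      congr 2
      ext y
      simp only [mem_fib, Prod.mk.injEq, hx'.2]
      tauto
    rw [e1, e2]
  rw [Finset.sum_congr rfl h1, sum_fib_swap]
  refine Finset.sum_congr rfl fun ω hω => ?_
  rw [Finset.sum_const, nsmul_eq_mul]
  change _ = nf s B ω * _
  field_simp [(nf_pos (A := B) hω).ne']

theorem avg_const {x : ℝ} (hs : s.Nonempty) : (∑ _ω ∈ s, x) / s.card = x := by
  have : (0 : ℝ) < s.card := by exact_mod_cast hs.card_pos
  rw [Finset.sum_const, nsmul_eq_mul]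
  field_simp

/-- lower bound from the fibres -/
theorem le_CE_of_fib {A : Ω → S} {B : Ω → T} {lb : Ω → ℝ}
    (h : ∀ ω ∈ s, lb ω ≤ Ent (fib s B ω) A) : (∑ ω ∈ s, lb ω) / s.card ≤ CE s A B := by
  rw [CE_eq_avg]
  exact div_le_div_of_nonneg_right (Finset.sum_le_sum h) (Nat.cast_nonneg _)

theorem le_CE_of_fib_const {A : Ω → S} {B : Ω → T} {x : ℝ} (hs : s.Nonempty)
    (h : ∀ ω ∈ s, x ≤ Ent (fib s B ω) A) : x ≤ CE s A B := by
  rw [← avg_const (s := s) (x := x) hs]
  exact le_CE_of_fib h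

theorem CE_le_of_fib_const {A : Ω → S} {B : Ω → T} {x : ℝ} (hs : s.Nonempty)
    (h : ∀ ω ∈ s, Ent (fib s B ω) A ≤ x) : CE s A B ≤ x := by
  rw [← avg_const (s := s) (x := x) hs, CE_eq_avg]
  exact div_le_div_of_nonneg_right (Finset.sum_le_sum h) (Nat.cast_nonneg _)

/-- entropy at most the logarithm of the number of values -/
theorem Ent_le_log {A : Ω → S} [DecidableEq S] (hs : s.Nonempty) {M : ℝ}
    (hM : ((s.image A).card : ℝ) ≤ M) : Ent s A ≤ Real.log M := by
  have hc : (0 : ℝ) < s.card := by exact_mod_cast hs.card_pos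
  have hM0 : 0 < M := lt_of_lt_of_le (by exact_mod_cast (hs.image A).card_pos) hM
  unfold Ent
  rw [div_le_iff₀ hc]
  have h1 : ∀ ω ∈ s, Real.log (s.card / nf s A ω) ≤
      Real.log M - 1 + s.card / M * (nf s A ω)⁻¹ := by
    intro ω hω
    have p := nf_pos (A := A) hω
    have h2 := Real.log_le_sub_one_of_pos (x := s.card / (M * nf s A ω)) (by positivity)
    have h3 : Real.log (s.card / (M * nf s A ω)) = Real.log (s.card / nf s A ω) - Real.log M := by
      rw [Real.log_div hc.ne' (by positivity), Real.log_mul hM0.ne' p.ne',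
        Real.log_div hc.ne' p.ne']
      ring
    rw [h3] at h2
    have h4 : (s.card : ℝ) / (M * nf s A ω) = s.card / M * (nf s A ω)⁻¹ := by
      field_simp
    rw [h4] at h2
    linarith
  refine (Finset.sum_le_sum h1).trans ?_
  rw [Finset.sum_add_distrib, ← Finset.mul_sum, sum_inv_nf, Finset.sum_const, nsmul_eq_mul]
  have h5 : (s.card : ℝ) / M * ((s.image A).card : ℝ) ≤ s.card := by
    rw [div_mul_eq_mul_div, div_le_iff₀ hM0]
    exact mul_le_mul_of_nonneg_left hM hc.le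
  linarith

/-- conditional entropy at most the logarithm of the number of values on each fibre -/
theorem CE_le_log {A : Ω → S} {B : Ω → T} [DecidableEq S] (hs : s.Nonempty) {M : ℝ}
    (hM : ∀ ω ∈ s, (((fib s B ω).image A).card : ℝ) ≤ M) : CE s A B ≤ Real.log M :=
  CE_le_of_fib_const hs fun ω hω => Ent_le_log ⟨ω, self_mem_fib hω⟩ (hM ω hω)

/-- entropy at least `log (|s| / K)` if the fibres have at most `K` elements -/
theorem log_le_Ent {A : Ω → S} (hs : s.Nonempty) {K : ℝ}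
    (hK : ∀ ω ∈ s, nf s A ω ≤ K) : Real.log (s.card / K) ≤ Ent s A := by
  have hc : (0 : ℝ) < s.card := by exact_mod_cast hs.card_pos
  unfold Ent
  rw [le_div_iff₀ hc]
  calc Real.log (s.card / K) * s.card = ∑ _ω ∈ s, Real.log (s.card / K) := by
        rw [Finset.sum_const, nsmul_eq_mul]; ring
    _ ≤ _ := by
        refine Finset.sum_le_sum fun ω hω => ?_
        have p := nf_pos (A := A) hω
        exact Real.log_le_log (div_pos hc (p.trans_le (hK ω hω)))
          (div_le_div_of_nonneg_left hc.le p (hK ω hω))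

end basic

section maps

variable {Ω Ω' S T : Type*}

theorem Ent_map (t : Finset Ω') (f : Ω' ↪ Ω) (A : Ω → S) :
    Ent (t.map f) A = Ent t (A ∘ f) := by
  classical
  unfold Ent
  rw [Finset.sum_map, Finset.card_map]
  congr 1
  refine Finset.sum_congr rfl fun x _ => ?_
  congr 2
  unfold nf fib
  rw [Finset.filter_map, Finset.card_map]
  rfl

open Classical in
/-- the preimage of a point -/
noncomputable def pre [Fintype Ω'] (f : Ω' → Ω) (ω : Ω) : Finset Ω' :=
  Finset.univ.filter fun x => f x = ω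

theorem mem_pre [Fintype Ω'] {f : Ω' → Ω} {ω : Ω} {x : Ω'} : x ∈ pre f ω ↔ f x = ω := by
  classical
  simp [pre]

/-- A map all of whose fibres have the same size `K` preserves entropies. -/
theorem nf_comp [Fintype Ω] [Fintype Ω'] (f : Ω' → Ω) {K : ℕ}
    (hf : ∀ ω, (pre f ω).card = K) (A : Ω → S) (x : Ω') :
    nf univ (A ∘ f) x = K * nf univ A (f x) := by
  classical
  unfold nf
  have h1 : (fib univ (A ∘ f) x).card = ∑ ω ∈ fib univ A (f x), K := by
    rw [Finset.card_eq_sum_card_fiberwise (f := f) (t := fib univ A (f x))]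
    · refine Finset.sum_congr rfl fun ω hω => ?_
      rw [← hf ω]
      congr 1
      ext y
      simp only [Finset.mem_filter, mem_fib, mem_pre, Finset.mem_univ, true_and, Function.comp]
      constructor
      · rintro ⟨_, h⟩
        exact h
      · intro h
        refine ⟨?_, h⟩
        rw [h]
        exact (mem_fib.1 hω).2
    · intro y hy
      have := (mem_fib.1 (Finset.mem_coe.1 hy)).2
      exact Finset.mem_coe.2 (mem_fib.2 ⟨Finset.mem_univ _, this⟩)
  rw [h1, Finset.sum_const, smul_eq_mul]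
  push_cast
  ring

theorem CE_comp [Fintype Ω] [Fintype Ω'] [Nonempty Ω'] (f : Ω' → Ω) {K : ℕ}
    (hf : ∀ ω, (pre f ω).card = K) (A : Ω → S) (B : Ω → T) :
    CE univ (A ∘ f) (B ∘ f) = CE univ A B := by
  classical
  have hK : 0 < K := by
    obtain ⟨x⟩ := ‹Nonempty Ω'›
    rw [← hf (f x)]
    exact Finset.card_pos.2 ⟨x, mem_pre.2 rfl⟩
  have hf' : ∀ ω, (Finset.univ.filter fun x => f x = ω).card = K := fun ω => by
    rw [← hf ω]; congr 1
  have hK' : (0 : ℝ) < K := by exact_mod_cast hK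
  have hcard : ((univ : Finset Ω').card : ℝ) = K * (univ : Finset Ω).card := by
    have := Finset.card_eq_sum_card_fiberwise (f := f) (s := (univ : Finset Ω')) (t := univ)
      (fun _ _ => Finset.mem_coe.2 (Finset.mem_univ _))
    rw [this]
    simp only [hf']
    rw [Finset.sum_const, smul_eq_mul]
    push_cast
    ring
  unfold CE
  rw [hcard]
  have h1 : ∑ x : Ω', Real.log (nf univ (B ∘ f) x / nf univ (fun y => ((A ∘ f) y, (B ∘ f) y)) x) =
      K * ∑ ω : Ω, Real.log (nf univ B ω / nf univ (fun y => (A y, B y)) ω) := by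
    rw [← Finset.sum_fiberwise_of_maps_to (s := (univ : Finset Ω')) (t := univ) (g := f)
      (fun _ _ => Finset.mem_univ _), Finset.mul_sum]
    refine Finset.sum_congr rfl fun ω _ => ?_
    have h2 : ∀ x ∈ (univ : Finset Ω').filter (fun i => f i = ω),
        Real.log (nf univ (B ∘ f) x / nf univ (fun y => ((A ∘ f) y, (B ∘ f) y)) x) =
        Real.log (nf univ B ω / nf univ (fun y => (A y, B y)) ω) := by
      intro x hx
      rw [Finset.mem_filter] at hx
      have e : (fun y => ((A ∘ f) y, (B ∘ f) y)) = (fun y => (A y, B y)) ∘ f := rfl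
      rw [e, nf_comp f hf, nf_comp f hf, hx.2, mul_div_mul_left _ _ hK'.ne']
    rw [Finset.sum_congr rfl h2, Finset.sum_const, nsmul_eq_mul, hf']
  rw [h1, mul_div_mul_left _ _ hK'.ne']

theorem Ent_comp [Fintype Ω] [Fintype Ω'] [Nonempty Ω'] (f : Ω' → Ω) {K : ℕ}
    (hf : ∀ ω, (pre f ω).card = K) (A : Ω → S) :
    Ent univ (A ∘ f) = Ent univ A := by
  rw [Ent_eq_CE, Ent_eq_CE]
  exact CE_comp f hf A (fun _ => ())

theorem CE_equiv [Fintype Ω] [Fintype Ω'] [Nonempty Ω'] (e : Ω' ≃ Ω) (A : Ω → S) (B : Ω → T) :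
    CE univ (A ∘ e) (B ∘ e) = CE univ A B := by
  classical
  refine CE_comp e (K := 1) (fun ω => ?_) A B
  rw [Finset.card_eq_one]
  exact ⟨e.symm ω, by ext x; simp [mem_pre, Equiv.eq_symm_apply]⟩

theorem Ent_equiv [Fintype Ω] [Fintype Ω'] [Nonempty Ω'] (e : Ω' ≃ Ω) (A : Ω → S) :
    Ent univ (A ∘ e) = Ent univ A := by
  rw [Ent_eq_CE, Ent_eq_CE]
  exact CE_equiv e A (fun _ => ())

variable {Ω₁ Ω₂ : Type*} [Fintype Ω₁] [Fintype Ω₂]

theorem Ent_fst [Nonempty Ω₁] [Nonempty Ω₂] (A : Ω₁ → S) :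
    Ent univ (fun x : Ω₁ × Ω₂ => A x.1) = Ent univ A := by
  classical
  refine Ent_comp (fun x : Ω₁ × Ω₂ => x.1) (K := Fintype.card Ω₂) (fun ω => ?_) A
  have : pre (fun x : Ω₁ × Ω₂ => x.1) ω = {ω} ×ˢ univ := by
    ext ⟨a, b⟩
    simp [mem_pre, eq_comm]
  rw [this, Finset.card_product]
  simp

theorem Ent_snd [Nonempty Ω₁] [Nonempty Ω₂] (A : Ω₂ → S) :
    Ent univ (fun x : Ω₁ × Ω₂ => A x.2) = Ent univ A := by
  rw [← Ent_fst (Ω₂ := Ω₁) A, ← Ent_equiv (Equiv.prodComm Ω₁ Ω₂)]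
  rfl

/-- independence -/
theorem CE_fst_snd [Nonempty Ω₁] [Nonempty Ω₂] (A : Ω₁ → S) (B : Ω₁ → T) :
    CE univ (fun x : Ω₁ × Ω₂ => A x.1) (fun x => (B x.1, x.2)) = CE univ A B := by
  classical
  unfold CE
  have h1 : ∀ (x : Ω₁ × Ω₂), nf univ (fun x : Ω₁ × Ω₂ => (B x.1, x.2)) x = nf univ B x.1 := by
    intro x
    unfold nf
    congr 1
    refine Finset.card_bij (fun y _ => y.1) ?_ ?_ ?_
    · intro y hy
      have := (mem_fib.1 hy).2
      simp only [Prod.mk.injEq] at this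
      exact mem_fib.2 ⟨Finset.mem_univ _, this.1⟩
    · intro y hy z hz h
      have h1 := (mem_fib.1 hy).2
      have h2 := (mem_fib.1 hz).2
      simp only [Prod.mk.injEq] at h1 h2
      exact Prod.ext h (h1.2.trans h2.2.symm)
    · intro b hb
      exact ⟨(b, x.2), mem_fib.2 ⟨Finset.mem_univ _, by simp [(mem_fib.1 hb).2]⟩, rfl⟩
  have h2 : ∀ (x : Ω₁ × Ω₂), nf univ (fun x : Ω₁ × Ω₂ => (A x.1, (B x.1, x.2))) x =
      nf univ (fun x => (A x, B x)) x.1 := by
    intro x
    unfold nf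
    congr 1
    refine Finset.card_bij (fun y _ => y.1) ?_ ?_ ?_
    · intro y hy
      have := (mem_fib.1 hy).2
      simp only [Prod.mk.injEq] at this
      exact mem_fib.2 ⟨Finset.mem_univ _, by simp [this.1, this.2.1]⟩
    · intro y hy z hz h
      have h1 := (mem_fib.1 hy).2
      have h2 := (mem_fib.1 hz).2
      simp only [Prod.mk.injEq] at h1 h2
      exact Prod.ext h (h1.2.2.trans h2.2.2.symm)
    · intro b hb
      have h3 := (mem_fib.1 hb).2
      simp only [Prod.mk.injEq] at h3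
      exact ⟨(b, x.2), mem_fib.2 ⟨Finset.mem_univ _, by simp [h3.1, h3.2]⟩, rfl⟩
  have hc : (0 : ℝ) < Fintype.card Ω₂ := by exact_mod_cast Fintype.card_pos
  simp only [h1, h2]
  rw [← Finset.univ_product_univ, Finset.sum_product, Finset.card_product]
  simp only [Finset.sum_const, nsmul_eq_mul, Finset.card_univ]
  rw [← Finset.mul_sum]
  push_cast
  rw [mul_comm (Fintype.card Ω₁ : ℝ), mul_div_mul_left _ _ hc.ne']

/-- averaging over the second coordinate -/
theorem CE_snd_eq_avg [Nonempty Ω₁] [Nonempty Ω₂] (A : Ω₁ × Ω₂ → S) :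
    CE univ A (fun x => x.2) = (∑ y : Ω₂, Ent univ (fun x : Ω₁ => A (x, y))) / Fintype.card Ω₂ := by
  classical
  rw [CE_eq_avg]
  have h1 : ∀ x : Ω₁ × Ω₂, Ent (fib univ (fun x : Ω₁ × Ω₂ => x.2) x) A =
      Ent univ (fun z : Ω₁ => A (z, x.2)) := by
    intro x
    have : fib univ (fun x : Ω₁ × Ω₂ => x.2) x =
        (univ : Finset Ω₁).map ⟨fun z => (z, x.2), fun a b h => (Prod.mk.inj h).1⟩ := by
      ext y
      simp only [mem_fib, Finset.mem_univ, true_and, Finset.mem_map]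
      constructor
      · intro h
        exact ⟨y.1, Prod.ext rfl h.symm⟩
      · rintro ⟨z, rfl⟩
        rfl
    rw [this, Ent_map]
    rfl
  simp only [h1]
  have hc : (0 : ℝ) < Fintype.card Ω₁ := by exact_mod_cast Fintype.card_pos
  rw [← Finset.univ_product_univ, Finset.sum_product, Finset.card_product]
  simp only [Finset.sum_const, nsmul_eq_mul, Finset.card_univ]
  push_cast
  rw [mul_div_mul_left _ _ hc.ne']

end maps

end Pool.Agent.V5helper28.SSK
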