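import Pool.Agent.V5helper28.SSK.Cell

/-!
# The level entropies modulo subspaces, and a subspace that is nearly optimal at a given level
-/

set_option autoImplicit false

namespace Pool.Agent.V5helper28.SSK

open Finset Filter Topology

variable {d : ℕ} {I : Type}

/-- the orthogonal projection to the complement of `W` -/
noncomputable def PW (W : Submodule ℝ (E d)) : E d →ₗ[ℝ] E d := (Wᗮ.starProjection : E d →L[ℝ] E d)

theorem PW_norm_le (W : Submodule ℝ (E d)) (x : E d) : ‖PW W x‖ ≤ ‖x‖ :=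
  Submodule.norm_starProjection_apply_le _ _

theorem PW_bot (x : E d) : PW (⊥ : Submodule ℝ (E d)) x = x := by
  unfold PW
  have h : x ∈ (⊥ : Submodule ℝ (E d))ᗮ := by simp
  exact (Submodule.starProjection_eq_self_iff (K := (⊥ : Submodule ℝ (E d))ᗮ)).2 h

theorem PW_sub_mem (W : Submodule ℝ (E d)) (x : E d) : x - PW W x ∈ W := by
  have h := Submodule.sub_starProjection_mem_orthogonal (K := Wᗮ) x
  rwa [Submodule.orthogonal_orthogonal] at h

theorem PW_mem (W : Submodule ℝ (E d)) (x : E d) : PW W x ∈ Wᗮ :=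
  Submodule.starProjection_apply_mem _ _

theorem PW_eq_zero {W : Submodule ℝ (E d)} {x : E d} (h : x ∈ W) : PW W x = 0 := by
  unfold PW
  have : x ∈ Wᗮᗮ := by rwa [Submodule.orthogonal_orthogonal]
  simpa using (Submodule.starProjection_apply_eq_zero_iff (K := Wᗮ)).2 this

theorem X_PW (W : Submodule ℝ (E d)) (c : I → E d) (r : ℝ) (n : ℕ) (ω : Fin n → I) :
    X (fun i => PW W (c i)) r n ω = PW W (X c r n ω) := X_map (PW W) c r n ω

variable [Fintype I] [Nonempty I]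

/-- the level entropy modulo `W` -/
noncomputable def hW (c : I → E d) (r : ℝ) (W : Submodule ℝ (E d)) (n : ℕ) : ℝ :=
  he (fun i => PW W (c i)) r n

/-- the optimal value at level `n` -/
noncomputable def MM (c : I → E d) (r θ : ℝ) (n : ℕ) : ℝ :=
  ⨅ W : Submodule ℝ (E d), (hW c r W n + θ * (Module.finrank ℝ W) * n)

omit [Nonempty I] in
theorem hW_nonneg (c : I → E d) (r : ℝ) (W : Submodule ℝ (E d)) (n : ℕ) : 0 ≤ hW c r W n :=
  he_nonneg _ _ _

omit [Nonempty I] in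
theorem MM_bdd (c : I → E d) (r : ℝ) {θ : ℝ} (hθ : 0 ≤ θ) (n : ℕ) :
    BddBelow (Set.range fun W : Submodule ℝ (E d) =>
      hW c r W n + θ * (Module.finrank ℝ W) * n) := by
  refine ⟨0, ?_⟩
  rintro _ ⟨W, rfl⟩
  have := hW_nonneg c r W n
  positivity

omit [Nonempty I] in
theorem MM_le (c : I → E d) (r : ℝ) {θ : ℝ} (hθ : 0 ≤ θ) (n : ℕ) (W : Submodule ℝ (E d)) :
    MM c r θ n ≤ hW c r W n + θ * (Module.finrank ℝ W) * n :=
  ciInf_le (MM_bdd c r hθ n) W

omit [Nonempty I] in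
theorem exists_near (c : I → E d) (r : ℝ) {θ : ℝ} (n : ℕ) :
    ∃ W : Submodule ℝ (E d), hW c r W n + θ * (Module.finrank ℝ W) * n ≤ MM c r θ n + 1 := by
  obtain ⟨W, hW⟩ := exists_lt_of_ciInf_lt (show MM c r θ n < MM c r θ n + 1 by linarith)
  exact ⟨W, hW.le⟩

theorem MM_superadd (c : I → E d) {r R θ : ℝ} (hr : 0 < r) (hr1 : r < 1) (hR : 0 ≤ R)
    (hX : ∀ (k : ℕ) (ω : Fin k → I), ‖X c r k ω‖ ≤ R) (hθ : 0 ≤ θ) (n k : ℕ) :
    MM c r θ n + MM c r θ k ≤ MM c r θ (n + k) + (KC d (2 * R + 1) + KC d 1) := by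
  rw [← sub_le_iff_le_add]
  refine le_ciInf fun W => ?_
  have h1 := MM_le c r hθ n W
  have h2 := MM_le c r hθ k W
  have h3 := he_superadd (fun i => PW W (c i)) hr hr1 hR
    (fun k ω => by rw [X_PW]; exact (PW_norm_le _ _).trans (hX k ω)) n k
  unfold hW at *
  push_cast
  linarith

theorem MM_le_log (c : I → E d) (r : ℝ) {θ : ℝ} (hθ : 0 ≤ θ) (n : ℕ) :
    MM c r θ n ≤ n * Real.log (Fintype.card I) := by
  have h1 := MM_le c r hθ n ⊥
  have h2 := he_le_log (fun i => PW (⊥ : Submodule ℝ (E d)) (c i)) r n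
  simp only [finrank_bot, Nat.cast_zero, mul_zero, zero_mul, add_zero] at h1
  exact h1.trans h2

theorem MM_tendsto (c : I → E d) {r R θ : ℝ} (hr : 0 < r) (hr1 : r < 1) (hR : 0 ≤ R)
    (hX : ∀ (k : ℕ) (ω : Fin k → I), ‖X c r k ω‖ ≤ R) (hθ : 0 ≤ θ) :
    ∃ m : ℝ, Tendsto (fun n : ℕ => MM c r θ n / n) atTop (𝓝 m) := by
  set C := KC d (2 * R + 1) + KC d 1 with hC
  have hC0 : 0 ≤ C := add_nonneg (KC_nonneg (by linarith)) (KC_nonneg zero_le_one)
  set u : ℕ → ℝ := fun n => C - MM c r θ n with hu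
  have hsub : Subadditive u := by
    intro n k
    have := MM_superadd c hr hr1 hR hX hθ n k
    simp only [hu]
    linarith
  have hbdd : BddBelow (Set.range fun n : ℕ => u n / n) := by
    refine ⟨-Real.log (Fintype.card I), ?_⟩
    rintro _ ⟨n, rfl⟩
    rcases Nat.eq_zero_or_pos n with rfl | hn
    · simp only [Nat.cast_zero, div_zero]
      have : 0 ≤ Real.log (Fintype.card I) := Real.log_natCast_nonneg _
      linarith
    · have hn' : (0 : ℝ) < n := by exact_mod_cast hn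
      rw [le_div_iff₀ hn']
      have := MM_le_log c r hθ n
      simp only [hu]
      linarith
  have h1 := hsub.tendsto_lim hbdd
  refine ⟨-hsub.lim, ?_⟩
  have h2 : Tendsto (fun n : ℕ => C / (n : ℝ)) atTop (𝓝 0) := tendsto_const_div_atTop_nhds_zero_nat C
  have h3 := h2.sub h1
  rw [zero_sub] at h3
  refine h3.congr fun n => ?_
  simp only [hu]
  ring

/-- **A nearly optimal subspace at each level.** -/
theorem exists_family (c : I → E d) {r R θ : ℝ} (hr : 0 < r) (hr1 : r < 1) (hR : 0 ≤ R)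
    (hX : ∀ (k : ℕ) (ω : Fin k → I), ‖X c r k ω‖ ≤ R) (hθ : 0 ≤ θ) :
    ∃ m : ℝ, ∀ ε : ℝ, 0 < ε → ∃ n₀ : ℕ, 1 ≤ n₀ ∧
      (∀ Λ : ℕ, n₀ ≤ Λ → ∃ W : Submodule ℝ (E d),
        hW c r W Λ ≤ (m - θ * Module.finrank ℝ W + ε) * Λ) ∧
      ∀ l : ℕ, n₀ ≤ l → ∀ W : Submodule ℝ (E d),
        (m - θ * Module.finrank ℝ W - ε) * l ≤ hW c r W l := by
  obtain ⟨m, hm⟩ := MM_tendsto c hr hr1 hR hX hθ
  refine ⟨m, fun ε hε => ?_⟩
  have h1 : ∀ᶠ n : ℕ in atTop, |MM c r θ n / n - m| < ε / 2 := by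
    have := Metric.tendsto_atTop.1 hm (ε / 2) (by linarith)
    obtain ⟨N, hN⟩ := this
    filter_upwards [eventually_ge_atTop N] with n hn
    simpa [Real.dist_eq] using hN n hn
  have h2 : ∀ᶠ n : ℕ in atTop, 1 / (n : ℝ) < ε / 2 :=
    (tendsto_one_div_atTop_nhds_zero_nat).eventually_lt_const (by linarith)
  obtain ⟨n₀, hn₀⟩ := eventually_atTop.1 (h1.and (h2.and (eventually_ge_atTop 1)))
  refine ⟨max n₀ 1, le_max_right _ _, fun Λ hΛ => ?_, fun l hl W => ?_⟩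
  · obtain ⟨h3, h4, h5⟩ := hn₀ Λ ((le_max_left _ _).trans hΛ)
    obtain ⟨W, hW'⟩ := exists_near c r (θ := θ) Λ
    refine ⟨W, ?_⟩
    have hΛ' : (0 : ℝ) < Λ := by exact_mod_cast h5
    rw [abs_lt, sub_lt_iff_lt_add, div_lt_iff₀ hΛ'] at h3
    rw [div_lt_iff₀ hΛ'] at h4
    nlinarith [h3.2]
  · obtain ⟨h3, h4, h5⟩ := hn₀ l ((le_max_left _ _).trans hl)
    have hl' : (0 : ℝ) < l := by exact_mod_cast h5
    have h6 := MM_le c r hθ l W
    rw [abs_lt, lt_sub_iff_add_lt, lt_div_iff₀ hl'] at h3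
    nlinarith [h3.1]

end Pool.Agent.V5helper28.SSK
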