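import Pool.Agent.V5helper28.SSK.IL1

/-!
# The inverse lemma
-/

set_option autoImplicit false

namespace Pool.Agent.V5helper28.SSK

open Finset

theorem residue (B : Finset ℕ) (n l : ℕ) (hl : 0 < l) (hB : B ⊆ range n) :
    ∃ ρ < l, (B.card : ℝ) ≤
      l * (((range ((n - 1 - ρ) / l)).filter fun q => ρ + l * (q + 1) ∈ B).card : ℝ) + l := by
  classical
  set B' := B.filter fun b => l ≤ b with hB'
  have h1 : B.card ≤ B'.card + l := by
    have h2 : B ⊆ B' ∪ range l := by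
      intro b hb
      by_cases h : l ≤ b
      · exact Finset.mem_union_left _ (Finset.mem_filter.2 ⟨hb, h⟩)
      · exact Finset.mem_union_right _ (Finset.mem_range.2 (by omega))
    have h3 := (Finset.card_le_card h2).trans (Finset.card_union_le _ _)
    rwa [Finset.card_range] at h3
  have h2 : ∃ ρ ∈ range l, B'.card ≤ l * (B'.filter fun b => b % l = ρ).card := by
    by_contra hcon
    push Not at hcon
    have h3 : ∑ ρ ∈ range l, l * (B'.filter fun b => b % l = ρ).card <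
        ∑ _ρ ∈ range l, B'.card :=
      Finset.sum_lt_sum_of_nonempty ⟨0, Finset.mem_range.2 hl⟩ hcon
    rw [← Finset.mul_sum, Finset.sum_const, smul_eq_mul, Finset.card_range,
      ← Finset.card_eq_sum_card_fiberwise (f := fun b => b % l)
        (fun b _ => Finset.mem_coe.2 (Finset.mem_range.2 (Nat.mod_lt b hl)))] at h3
    exact lt_irrefl _ h3
  obtain ⟨ρ, hρ, h3⟩ := h2
  rw [Finset.mem_range] at hρ
  refine ⟨ρ, hρ, ?_⟩
  have h4 : (B'.filter fun b => b % l = ρ).card ≤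
      ((range ((n - 1 - ρ) / l)).filter fun q => ρ + l * (q + 1) ∈ B).card := by
    refine Finset.card_le_card_of_injOn (fun b => b / l - 1) ?_ ?_
    · intro b hb
      simp only [hB', Finset.coe_filter, Finset.mem_filter, Set.mem_ofPred_eq] at hb
      obtain ⟨⟨hb1, hb2⟩, hb3⟩ := hb
      have hbn := Finset.mem_range.1 (hB hb1)
      have hq : 1 ≤ b / l := (Nat.one_le_div_iff hl).2 hb2
      have e1 : ρ + l * (b / l - 1 + 1) = b := by
        rw [Nat.sub_add_cancel hq, ← hb3]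
        exact Nat.mod_add_div b l
      simp only [Finset.coe_filter, Finset.mem_range, Set.mem_ofPred_eq]
      refine ⟨?_, by rw [e1]; exact hb1⟩
      have e2 : l * (b / l) = b - ρ := by
        have := Nat.mod_add_div b l
        omega
      have e3 : b / l ≤ (n - 1 - ρ) / l := by
        rw [Nat.le_div_iff_mul_le hl, mul_comm, e2]
        omega
      omega
    · intro b hb b' hb' h
      simp only [hB', Finset.coe_filter, Finset.mem_filter, Set.mem_ofPred_eq] at hb hb'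
      simp only at h
      have hq : 1 ≤ b / l := (Nat.one_le_div_iff hl).2 hb.1.2
      have hq' : 1 ≤ b' / l := (Nat.one_le_div_iff hl).2 hb'.1.2
      have e1 : b / l = b' / l := by omega
      have e2 := Nat.mod_add_div b l
      have e3 := Nat.mod_add_div b' l
      rw [hb.2, e1] at e2
      rw [hb'.2] at e3
      exact e2.symm.trans e3
  have h5 : (B.card : ℝ) ≤ B'.card + l := by exact_mod_cast h1
  have h6 : (B'.card : ℝ) ≤ l * (B'.filter fun b => b % l = ρ).card := by exact_mod_cast h3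
  have h7 : ((B'.filter fun b => b % l = ρ).card : ℝ) ≤
      (((range ((n - 1 - ρ) / l)).filter fun q => ρ + l * (q + 1) ∈ B).card : ℝ) := by
    exact_mod_cast h4
  have hl' : (0 : ℝ) ≤ l := Nat.cast_nonneg _
  nlinarith

/-- **Gain at a good level.** -/
theorem good_gain (hF : JobF) (d : ℕ) {r R : ℝ} (hr : 0 < r) (hr1 : r < 1) (hR : 0 ≤ R)
    {p : ℝ} (hp : 0 < p) (g l : ℕ) : ∃ j : ℕ, ∀ (I : Type) [Fintype I] [Nonempty I]
      (c : I → E d) (V : Submodule ℝ (E d)) (x G : ℝ), 0 ≤ G →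
      (∀ (k : ℕ) (ω : Fin k → I), ‖X c r k ω‖ ≤ R) →
      x ≤ he c r l - KC d (2 * R + 1) →
      (∀ z ∈ V, z ≠ 0 → ∃ P : E d →ₗ[ℝ] E d, (∀ x, ‖P x‖ ≤ ‖x‖) ∧ P z = 0 ∧
        x + G ≤ he (fun i => P (c i)) r l + l * Real.log r⁻¹ -
          (KC d (Real.sqrt d + 2 * R + 2 * (2 * Real.sqrt d + 2)) +
            Real.log (2 * ((Real.sqrt d + 2 * (2 * Real.sqrt d + 2)) / r ^ g) + 1))) →
      ∀ (F : Type) [Fintype F] [Nonempty F] (Y : F → E d), (∀ ω ω', Y ω - Y ω' ∈ V) →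
      ∀ (k m A : ℕ) (φ : Bool × Fin A → F), m + l ≤ k → Function.Injective φ →
        (∀ a, cl r (m + l) (Y (φ (true, a))) = cl r (m + l) (Y (φ (false, a))) ∧
          r ^ (m + l + g) ≤ ‖Y (φ (true, a)) - Y (φ (false, a))‖) →
        p * Fintype.card F ≤ 2 * A →
        x + G / 16 - KC d (2 * R + 3 * (2 * Real.sqrt d + 2)) ≤
          CE univ (fun ω : (Fin k → I) × (Fin j → F) =>
              cl r (m + l) (X c r k ω.1 + ∑ i, Y (ω.2 i)))
            (fun ω => cl r m (X c r k ω.1 + ∑ i, Y (ω.2 i))) := by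
  set L : ℕ := ⌈(r ^ l)⁻¹⌉₊ with hL
  have hrl : 0 < r ^ l := pow_pos hr l
  have hrl1 : r ^ l ≤ 1 := pow_le_one₀ hr.le hr1.le
  have hinv : 1 ≤ (r ^ l)⁻¹ := (one_le_inv₀ hrl).2 hrl1
  have hL1 : 1 ≤ L := by
    rw [hL, Nat.one_le_ceil_iff]
    exact inv_pos.2 hrl
  have hLge : (r ^ l)⁻¹ ≤ L := Nat.le_ceil _
  have hLle : (L : ℝ) ≤ 2 * (r ^ l)⁻¹ := by
    have := (Nat.ceil_lt_add_one (inv_pos.2 hrl).le).le
    rw [← hL] at this
    linarith
  obtain ⟨j, hj⟩ := hF d p L hp hL1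
  refine ⟨j, fun I _ _ c V x G hG0 hX hx hV F _ _ Y hYV k m A φ hk hφ hφ2 hpA => ?_⟩
  have hsd : 0 ≤ Real.sqrt d := Real.sqrt_nonneg _
  have hri : 0 < r ^ (m + l) := pow_pos hr _
  obtain ⟨m₀, M', _, Φ, s, hΦ, hcard, hΦ2⟩ := hj F (Fin A) φ Y ((Real.sqrt d + 1) * r ^ (m + l))
    (by positivity) inferInstance hφ (by rw [Fintype.card_fin]; exact hpA) (fun a => by
      refine (norm_sub_le_of_cl_eq hr (hφ2 a).1).trans ?_
      nlinarith)
  set z := Y (φ (true, m₀)) - Y (φ (false, m₀)) with hz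
  have hznorm : r ^ g * r ^ (m + l) ≤ ‖z‖ := by
    have := (hφ2 m₀).2
    rw [pow_add, mul_comm] at this
    exact this
  have hz0 : z ≠ 0 := by
    intro h
    rw [h, norm_zero] at hznorm
    exact absurd hznorm (not_le.2 (mul_pos (pow_pos hr _) hri))
  have hzle : ‖z‖ ≤ Real.sqrt d * r ^ (m + l) := norm_sub_le_of_cl_eq hr (hφ2 m₀).1
  obtain ⟨P, hP, hPz, hPG⟩ := hV z (hYV _ _) hz0
  have hlog : l * Real.log r⁻¹ ≤ Real.log L := by
    rw [← Real.log_pow, inv_pow]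
    exact Real.log_le_log (inv_pos.2 hrl) hLge
  have hLz : L * ‖z‖ ≤ (2 * Real.sqrt d + 2) * r ^ m := by
    have e1 : (L : ℝ) * ‖z‖ ≤ 2 * (r ^ l)⁻¹ * (Real.sqrt d * r ^ (m + l)) :=
      mul_le_mul hLle hzle (norm_nonneg _) (by positivity)
    have e2 : 2 * (r ^ l)⁻¹ * (Real.sqrt d * r ^ (m + l)) = 2 * Real.sqrt d * r ^ m := by
      rw [pow_add]
      field_simp
    rw [e2] at e1
    have : 0 < r ^ m := pow_pos hr _
    nlinarith
  have h1 := gain_block c hr hr1 hR hX P hP hk L hL1 z hPz (fun y : Fin j → F => ∑ i, Y (y i)) Φ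
    hΦ s (C₀ := 2 * Real.sqrt d + 2) (β := r ^ g) (by positivity) (pow_pos hr _)
    (fun h m' => (hΦ2 h m').trans (mul_le_mul_of_nonneg_right (by clear hPG; linarith) hri.le))
    hznorm hLz hx (hPG.trans (sub_le_sub_right (add_le_add le_rfl hlog) _))
  refine le_trans ?_ h1
  clear hPG
  have hcF : (0 : ℝ) < Fintype.card (Fin j → F) := by exact_mod_cast Fintype.card_pos
  have h2 : (1 : ℝ) / 16 ≤ (L * Fintype.card M' : ℕ) / Fintype.card (Fin j → F) := by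
    rw [div_le_div_iff₀ (by norm_num) hcF, one_mul]
    have h3 : Fintype.card (Fin j → F) = Fintype.card F ^ j := by
      rw [Fintype.card_fun, Fintype.card_fin]
    rw [h3]
    have : ((Fintype.card F ^ j : ℕ) : ℝ) ≤ ((16 * (L * Fintype.card M') : ℕ) : ℝ) := by
      exact_mod_cast hcard
    push_cast at this ⊢
    linarith
  have h3 : G / 16 ≤ G * ((L * Fintype.card M' : ℕ) / Fintype.card (Fin j → F)) := by
    have := mul_le_mul_of_nonneg_left h2 hG0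
    linarith
  linarith

theorem inverse_arith {k l Q N j x Cb Cx G EZ E1 K1 K3 Kj hk τ ε₃ κ₂ T₀ D1 Dt : ℝ}
    (hEZ : Q * (x - Cb) + N * (G / 16) ≤ EZ + K1)
    (hkv : EZ ≤ hk + j * (E1 + K3 - hk) + Kj)
    (hx : x = (τ - ε₃) * l - Cx)
    (s1 : k * (τ - ε₃) - 3 * l * (T₀ + ε₃) ≤ Q * l * (τ - ε₃))
    (s2 : Q * (Cx + Cb) ≤ κ₂ / 8 * k) (s3 : κ₂ * k - D1 ≤ N * (G / 16))
    (hhek : hk ≤ (τ + ε₃) * k) (hDt : Dt = 3 * l * (T₀ + ε₃) + D1 + K1 + j * K3 + Kj)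
    (hDk : Dt ≤ κ₂ / 8 * k) (hε₃ : ε₃ = κ₂ / 8) : κ₂ / 2 * k ≤ j * (E1 - hk) := by
  have s4 : Q * (x - Cb) = Q * l * (τ - ε₃) - Q * (Cx + Cb) := by
    rw [hx]; ring
  rw [s4] at hEZ
  subst hε₃
  rw [hDt] at hDk
  linarith

theorem div_arith {a b j : ℝ} (hj : 0 ≤ j) (ha : 0 < a) (h : a ≤ j * b) : a / (j + 1) ≤ b := by
  rw [div_le_iff₀ (by linarith)]
  have hb : 0 ≤ b := by
    by_contra hcon
    push Not at hcon
    have h1 : j * b ≤ 0 := mul_nonpos_of_nonneg_of_nonpos hj hcon.le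
    linarith
  nlinarith

/-- The core of the inverse lemma, with explicit constants. -/
theorem inverse_core (d : ℕ) {r R ε κ T₀ A κg p κ₂ ε₃ Cx Cb CG D1 Dt : ℝ} (hr : 0 < r)
    (hr1 : r < 1) (hR : 0 ≤ R) (hε : 0 < ε) (hκ : 0 < κ) (g l l' j : ℕ) (hg1 : 1 ≤ g)
    (hA : A = ε * g / 2) (hg : 2 * (Real.log 2 + KC d 1) ≤ A) (hκg : κg = KC d ((r ^ g)⁻¹))
    (hp : p = A / 2 / (κg + 1)) (hκ₂ : κ₂ = ε * κ * g / (64 * (κg + 1))) (hε₃ : ε₃ = κ₂ / 8)
    (hCx : Cx = KC d (2 * R + 1))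
    (hCb : KC d (2 * R + 3 * (2 * Real.sqrt d + 2)) + KC d 1 + KC d (2 * R) = Cb)
    (hCG : CG = KC d (Real.sqrt d + 2 * R + 2 * (2 * Real.sqrt d + 2)) +
      Real.log (2 * ((Real.sqrt d + 2 * (2 * Real.sqrt d + 2)) / r ^ g) + 1))
    (hl'1 : 1 ≤ l') (hl'a : Cx + Cb ≤ κ₂ / 8 * l') (hl'b : CG ≤ κ / 2 * l') (hl : l = g * l')
    (hD1 : D1 = ((KC d 1 + κg) / (κg + 1) + l') * κ * g / 32)
    (hDt : Dt = 3 * l * (T₀ + ε₃) + D1 + KC d 1 + j * KC d 3 + KC d (j + 1))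
    (I : Type) [Fintype I] [Nonempty I] (c : I → E d) (V : Submodule ℝ (E d)) (τ : ℝ)
    (hj : ∀ (x G : ℝ), 0 ≤ G →
      x ≤ he c r l - KC d (2 * R + 1) →
      (∀ z ∈ V, z ≠ 0 → ∃ P : E d →ₗ[ℝ] E d, (∀ x, ‖P x‖ ≤ ‖x‖) ∧ P z = 0 ∧
        x + G ≤ he (fun i => P (c i)) r l + l * Real.log r⁻¹ -
          (KC d (Real.sqrt d + 2 * R + 2 * (2 * Real.sqrt d + 2)) +
            Real.log (2 * ((Real.sqrt d + 2 * (2 * Real.sqrt d + 2)) / r ^ g) + 1))) →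
      ∀ (F : Type) [Fintype F] [Nonempty F] (Y : F → E d), (∀ ω ω', Y ω - Y ω' ∈ V) →
      ∀ (k m A : ℕ) (φ : Bool × Fin A → F), m + l ≤ k → Function.Injective φ →
        (∀ a, cl r (m + l) (Y (φ (true, a))) = cl r (m + l) (Y (φ (false, a))) ∧
          r ^ (m + l + g) ≤ ‖Y (φ (true, a)) - Y (φ (false, a))‖) →
        p * Fintype.card F ≤ 2 * A →
        x + G / 16 - KC d (2 * R + 3 * (2 * Real.sqrt d + 2)) ≤
          CE univ (fun ω : (Fin k → I) × (Fin j → F) =>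
              cl r (m + l) (X c r k ω.1 + ∑ i, Y (ω.2 i)))
            (fun ω => cl r m (X c r k ω.1 + ∑ i, Y (ω.2 i))))
    (hτ : |τ| ≤ T₀) (hX : ∀ (k : ℕ) (ω : Fin k → I), ‖X c r k ω‖ ≤ R)
    (hhe : (τ - ε₃) * l ≤ he c r l)
    (hV : ∀ z ∈ V, z ≠ 0 → ∃ P : E d →ₗ[ℝ] E d, (∀ x, ‖P x‖ ≤ ‖x‖) ∧ P z = 0 ∧
        (τ - Real.log r⁻¹ + κ - ε₃) * l ≤ he (fun i => P (c i)) r l)
    (k : ℕ) (hDk : Dt ≤ κ₂ / 8 * k) (hhek : he c r k ≤ (τ + ε₃) * k)
    (F : Type) [Fintype F] [Nonempty F] (Y : F → E d)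
    (hY : ∀ ω ω' i, |Y ω' i - Y ω i| ≤ 1) (hYV : ∀ ω ω', Y ω - Y ω' ∈ V)
    (hEnt : ε * k ≤ Ent univ (fun ω => cl r k (Y ω))) :
    κ₂ / 2 * k ≤ j * (Ent univ (fun x : (Fin k → I) × F => cl r k (X c r k x.1 + Y x.2)) -
      he c r k) := by
  classical
  have hKC1 : 0 ≤ KC d 1 := KC_nonneg zero_le_one
  have hlog2 : 0 ≤ Real.log 2 := Real.log_nonneg (by norm_num)
  have hκg0 : 0 ≤ κg := by rw [hκg]; exact KC_nonneg (inv_pos.2 (pow_pos hr _)).le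
  have hg0 : (0 : ℝ) < g := by exact_mod_cast hg1
  have hApos : 0 < A := by rw [hA]; positivity
  have hκ₂0 : 0 < κ₂ := by rw [hκ₂]; positivity
  have hsd : 0 ≤ Real.sqrt d := Real.sqrt_nonneg _
  have hK1 : 0 ≤ KC d (2 * R + 3 * (2 * Real.sqrt d + 2)) := KC_nonneg (by positivity)
  have hK2 : 0 ≤ KC d (2 * R) := KC_nonneg (by positivity)
  have hCx0 : 0 ≤ Cx := by rw [hCx]; exact KC_nonneg (by positivity)
  have hll' : l' ≤ l := by rw [hl]; exact Nat.le_mul_of_pos_left _ hg1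
  have hl'0 : (0 : ℝ) < l' := by exact_mod_cast hl'1
  have hllR : (l' : ℝ) ≤ l := by exact_mod_cast hll'
  have hlR : (l : ℝ) = g * l' := by rw [hl]; push_cast; ring
  have hε₃0 : 0 < ε₃ := by rw [hε₃]; positivity
  -- the variable
  let Z : (Fin k → I) × (Fin j → F) → E d := fun x => X c r k x.1 + ∑ i, Y (x.2 i)
  obtain ⟨n, hn⟩ : ∃ n, n = k / g := ⟨_, rfl⟩
  obtain ⟨B, hB⟩ : ∃ B, B = (range n).filter fun b => A ≤ bE r Y g (b * g) := ⟨_, rfl⟩
  have hBcard := good_levels hr hr1 Y hY g k hg1 hA hε.le hEnt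
  rw [← hκg, ← hn, ← hB] at hBcard
  obtain ⟨ρ, hρ, hres⟩ := residue B n l' hl'1 (by rw [hB]; exact Finset.filter_subset _ _)
  obtain ⟨Q, hQ⟩ : ∃ Q, Q = (n - 1 - ρ) / l' := ⟨_, rfl⟩
  rw [← hQ] at hres
  obtain ⟨N, hN⟩ : ∃ N, N = ((range Q).filter fun q => ρ + l' * (q + 1) ∈ B) := ⟨_, rfl⟩
  rw [← hN] at hres
  have hgn : g * n ≤ k := by rw [hn]; exact Nat.mul_div_le k g
  have hkn : k < g * (n + 1) := by
    have := Nat.lt_mul_div_succ k hg1
    simpa [hn] using this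
  have hQl : Q * l' ≤ n - 1 - ρ := by rw [hQ]; exact Nat.div_mul_le_self _ _
  have hQl2 : n ≤ (Q + 2) * l' := by
    have h1 : n - 1 - ρ < (Q + 1) * l' := by
      have := Nat.lt_mul_div_succ (n - 1 - ρ) hl'1
      rw [← hQ] at this
      rw [mul_comm]
      exact this
    have h2 : (Q + 2) * l' = (Q + 1) * l' + l' := by ring
    omega
  -- blocks
  let i : ℕ → ℕ := fun q => (ρ + l' * q) * g
  have hisucc : ∀ q, i (q + 1) = i q + l := by
    intro q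
    simp only [i, hl]
    ring
  have hik : ∀ q, q < Q → i q + l ≤ k := by
    intro q hq
    rw [← hisucc]
    simp only [i]
    have h1 : l' * (q + 1) ≤ Q * l' := by
      rw [mul_comm Q]
      exact Nat.mul_le_mul_left _ hq
    have h2 : 1 ≤ l' * (q + 1) := Nat.one_le_iff_ne_zero.2 (by positivity)
    have h3 : ρ + l' * (q + 1) ≤ n := by omega
    calc (ρ + l' * (q + 1)) * g ≤ n * g := Nat.mul_le_mul_right _ h3
      _ = g * n := mul_comm _ _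
      _ ≤ k := hgn
  obtain ⟨x, hx⟩ : ∃ x : ℝ, x = (τ - ε₃) * l - Cx := ⟨_, rfl⟩
  obtain ⟨G, hG⟩ : ∃ G : ℝ, G = κ * l / 2 := ⟨_, rfl⟩
  have hG0 : 0 ≤ G := by rw [hG]; positivity
  have hxhe : x ≤ he c r l - KC d (2 * R + 1) := by
    rw [hx, hCx]; exact sub_le_sub_right hhe _
  have hVG : ∀ z ∈ V, z ≠ 0 → ∃ P : E d →ₗ[ℝ] E d, (∀ x, ‖P x‖ ≤ ‖x‖) ∧ P z = 0 ∧
        x + G ≤ he (fun i => P (c i)) r l + l * Real.log r⁻¹ -
          (KC d (Real.sqrt d + 2 * R + 2 * (2 * Real.sqrt d + 2)) +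
            Real.log (2 * ((Real.sqrt d + 2 * (2 * Real.sqrt d + 2)) / r ^ g) + 1)) := by
    intro z hz hz0
    obtain ⟨P, hP1, hP2, hP3⟩ := hV z hz hz0
    refine ⟨P, hP1, hP2, ?_⟩
    rw [← hCG]
    have h3 : CG ≤ κ / 2 * l := hl'b.trans (mul_le_mul_of_nonneg_left hllR (by positivity))
    rw [hx, hG]
    clear hj hB hBcard hEnt hhek hCG
    nlinarith
  have hblock : ∀ q ∈ range Q, x - Cb + (if ρ + l' * (q + 1) ∈ B then G / 16 else 0) ≤
      CE univ (fun ω => cl r (i (q + 1)) (Z ω)) (fun ω => cl r (i q) (Z ω)) - KC d 1 := by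
    intro q hq
    rw [Finset.mem_range] at hq
    rw [hisucc]
    by_cases hgood : ρ + l' * (q + 1) ∈ B
    · rw [if_pos hgood]
      rw [hB] at hgood
      have hb := (Finset.mem_filter.1 hgood).2
      obtain ⟨M, φ, hφ, hφ2, hM⟩ := exists_matching hr Y g ((ρ + l' * (q + 1)) * g) hb
      have e1 : (ρ + l' * (q + 1)) * g = i q + l := by rw [← hisucc]
      rw [e1] at hφ2
      have hpM : p * Fintype.card F ≤ 2 * M := by
        have hcF : (0 : ℝ) ≤ Fintype.card F := Nat.cast_nonneg _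
        have hM0 : (0 : ℝ) ≤ M := Nat.cast_nonneg _
        rw [hp, div_mul_eq_mul_div, div_le_iff₀ (by positivity)]
        have h1 : A / 2 ≤ A - Real.log 2 - KC d 1 := by linarith
        rw [← hκg] at hM
        have h2 : A / 2 * Fintype.card F ≤ 2 * M * κg :=
          (mul_le_mul_of_nonneg_right h1 hcF).trans hM
        linarith
      have h1 := hj x G hG0 hxhe hVG F Y hYV k (i q) M φ (hik q hq) hφ hφ2 hpM
      have h2 : x - Cb + G / 16 ≤ x + G / 16 - KC d (2 * R + 3 * (2 * Real.sqrt d + 2)) -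
          KC d 1 := by rw [← hCb]; linarith
      exact h2.trans (sub_le_sub_right h1 _)
    · rw [if_neg hgood, add_zero]
      have h1 := base_CE c hr hR hX (hik q hq) (fun y : Fin j → F => ∑ i, Y (y i))
      have h2 : x - Cb ≤ he c r l - KC d (2 * R + 1) - KC d (2 * R) - KC d 1 := by
        rw [← hCb]; linarith
      exact h2.trans (sub_le_sub_right h1 _)
  have hsum := Finset.sum_le_sum hblock
  rw [Finset.sum_add_distrib, Finset.sum_const, Finset.card_range, nsmul_eq_mul,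
    ← Finset.sum_filter, Finset.sum_const, nsmul_eq_mul, ← hN] at hsum
  have htele := tele hr hr1 Z i (fun q => by rw [hisucc]; omega) Q
  have hEZ : (Q : ℝ) * (x - Cb) + (N.card : ℝ) * (G / 16) ≤
      Ent univ (fun ω => cl r k (Z ω)) + KC d 1 := by
    rcases Nat.eq_zero_or_pos Q with h0 | hQpos
    · have hN0 : N.card = 0 := by
        rw [hN, h0]
        simp
      rw [hN0, h0]
      have := Ent_nonneg (s := univ) (fun ω => cl r k (Z ω))
      push_cast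
      linarith
    · have h1 : Ent univ (fun ω => cl r (i Q) (Z ω)) ≤
          Ent univ (fun ω => cl r k (Z ω)) + KC d 1 := by
        refine Ent_cl_mono hr hr1 Z ?_
        have h2 := hisucc (Q - 1)
        have h3 := hik (Q - 1) (by omega)
        rw [Nat.sub_add_cancel hQpos] at h2
        rw [h2]
        exact h3
      exact (hsum.trans htele).trans h1
  have hkv := KV_cells c hr Y k j
  -- arithmetic
  have hQlk : (Q : ℝ) * l ≤ k := by
    rcases Nat.eq_zero_or_pos Q with h0 | hQpos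
    · rw [h0]; push_cast; simp
    · have h1 : Q * l' ≤ n := by omega
      have h2 : Q * l ≤ k := by
        calc Q * l = g * (Q * l') := by rw [hl]; ring
          _ ≤ g * n := Nat.mul_le_mul_left _ h1
          _ ≤ k := hgn
      exact_mod_cast h2
  have hQlk2 : (k : ℝ) ≤ Q * l + 3 * l := by
    have h1 : k ≤ Q * l + 3 * l := by
      have h2 : g * (n + 1) ≤ g * ((Q + 2) * l' + l') := Nat.mul_le_mul_left _ (by omega)
      have h3 : g * ((Q + 2) * l' + l') = Q * l + 3 * l := by rw [hl]; ring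
      omega
    exact_mod_cast h1
  have hQ0 : (0 : ℝ) ≤ Q := Nat.cast_nonneg _
  have hl0 : (0 : ℝ) ≤ l := Nat.cast_nonneg _
  have hk0 : (0 : ℝ) ≤ k := Nat.cast_nonneg _
  have hT0 : 0 ≤ T₀ := (abs_nonneg _).trans hτ
  have s1 : (k : ℝ) * (τ - ε₃) - 3 * l * (T₀ + ε₃) ≤ Q * l * (τ - ε₃) := by
    have h1 : τ - ε₃ ≤ T₀ + ε₃ := by
      rw [abs_le] at hτ
      linarith [hτ.2]
    have h2 : (0 : ℝ) ≤ k - Q * l := by linarith
    have h3 : (k : ℝ) - Q * l ≤ 3 * l := by linarith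
    have h4 : ((k : ℝ) - Q * l) * (τ - ε₃) ≤ (k - Q * l) * (T₀ + ε₃) :=
      mul_le_mul_of_nonneg_left h1 h2
    have h5 : ((k : ℝ) - Q * l) * (T₀ + ε₃) ≤ 3 * l * (T₀ + ε₃) :=
      mul_le_mul_of_nonneg_right h3 (by positivity)
    have h6 : ((k : ℝ) - Q * l) * (τ - ε₃) = k * (τ - ε₃) - Q * l * (τ - ε₃) := by ring
    linarith
  have s2 : (Q : ℝ) * (Cx + Cb) ≤ κ₂ / 8 * k := by
    have h1 : Cx + Cb ≤ κ₂ / 8 * l := hl'a.trans (mul_le_mul_of_nonneg_left hllR (by positivity))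
    have h2 : (Q : ℝ) * (Cx + Cb) ≤ Q * (κ₂ / 8 * l) := mul_le_mul_of_nonneg_left h1 hQ0
    have h3 : (Q : ℝ) * (κ₂ / 8 * l) = κ₂ / 8 * (Q * l) := by ring
    have h4 : κ₂ / 8 * (Q * l) ≤ κ₂ / 8 * k := mul_le_mul_of_nonneg_left hQlk (by positivity)
    linarith
  have s3 : κ₂ * k - D1 ≤ (N.card : ℝ) * (G / 16) := by
    have h1 : (ε * k / 2 - KC d 1 - κg) / (κg + 1) ≤ B.card := by
      rw [div_le_iff₀ (by positivity)]
      have : (0 : ℝ) ≤ B.card := Nat.cast_nonneg _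
      linarith
    have h2 : (ε * k / 2 - KC d 1 - κg) / (κg + 1) - l' ≤ l' * N.card := by
      linarith only [h1, hres]
    have h3 : ((ε * k / 2 - KC d 1 - κg) / (κg + 1) - l') * (κ * g / 32) ≤
        l' * N.card * (κ * g / 32) := mul_le_mul_of_nonneg_right h2 (by positivity)
    have h4 : (N.card : ℝ) * (G / 16) = l' * N.card * (κ * g / 32) := by
      rw [hG, hlR]; ring
    have h5 : ((ε * k / 2 - KC d 1 - κg) / (κg + 1) - l') * (κ * g / 32) = κ₂ * k - D1 := by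
      rw [hκ₂, hD1]
      field_simp
      ring
    rw [h4, ← h5]
    exact h3
  exact inverse_arith hEZ hkv hx s1 s2 s3 hhek hDt hDk hε₃

/-- **The inverse lemma.** If a self-similar family has, at the block length `l`, almost its full
entropy density `τ`, and a definite gain after dividing by any direction in `V`, then adding a
variable of positive entropy density with differences in `V` increases the entropy density. -/
theorem inverse (hF : JobF) (d : ℕ) {r R ε κ T₀ : ℝ} (hr : 0 < r) (hr1 : r < 1) (hR : 0 ≤ R)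
    (hε : 0 < ε) (hκ : 0 < κ) :
    ∃ ε₃ : ℝ, 0 < ε₃ ∧ ∀ lmin : ℕ, ∃ l : ℕ, lmin ≤ l ∧ ∃ c₁ : ℝ, 0 < c₁ ∧ ∃ k₀ : ℕ,
      ∀ (I : Type) [Fintype I] [Nonempty I] (c : I → E d) (V : Submodule ℝ (E d)) (τ : ℝ),
      |τ| ≤ T₀ → (∀ (k : ℕ) (ω : Fin k → I), ‖X c r k ω‖ ≤ R) → (τ - ε₃) * l ≤ he c r l →
      (∀ z ∈ V, z ≠ 0 → ∃ P : E d →ₗ[ℝ] E d, (∀ x, ‖P x‖ ≤ ‖x‖) ∧ P z = 0 ∧
        (τ - Real.log r⁻¹ + κ - ε₃) * l ≤ he (fun i => P (c i)) r l) →
      ∀ k : ℕ, k₀ ≤ k → he c r k ≤ (τ + ε₃) * k →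
      ∀ (F : Type) [Fintype F] [Nonempty F] (Y : F → E d),
        (∀ ω ω' i, |Y ω' i - Y ω i| ≤ 1) → (∀ ω ω', Y ω - Y ω' ∈ V) →
        ε * k ≤ Ent univ (fun ω => cl r k (Y ω)) →
        he c r k + c₁ * k ≤
          Ent univ (fun x : (Fin k → I) × F => cl r k (X c r k x.1 + Y x.2)) := by
  have hKC1 : 0 ≤ KC d 1 := KC_nonneg zero_le_one
  have hlog2 : 0 ≤ Real.log 2 := Real.log_nonneg (by norm_num)
  -- the small block length
  obtain ⟨g, hg1, hg⟩ : ∃ g : ℕ, 1 ≤ g ∧ 2 * (Real.log 2 + KC d 1) ≤ ε * g / 2 := by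
    obtain ⟨g, hg⟩ := exists_nat_ge ((2 * (Real.log 2 + KC d 1)) * 2 / ε)
    refine ⟨g + 1, by omega, ?_⟩
    rw [div_le_iff₀ hε] at hg
    push_cast
    nlinarith
  obtain ⟨A, hA⟩ : ∃ A : ℝ, A = ε * g / 2 := ⟨_, rfl⟩
  rw [← hA] at hg
  obtain ⟨κg, hκg⟩ : ∃ κg : ℝ, κg = KC d ((r ^ g)⁻¹) := ⟨_, rfl⟩
  have hκg0 : 0 ≤ κg := by rw [hκg]; exact KC_nonneg (inv_pos.2 (pow_pos hr _)).le
  have hg0 : (0 : ℝ) < g := by exact_mod_cast hg1
  have hApos : 0 < A := by rw [hA]; positivity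
  obtain ⟨p, hp⟩ : ∃ p : ℝ, p = A / 2 / (κg + 1) := ⟨_, rfl⟩
  have hp0 : 0 < p := by rw [hp]; positivity
  obtain ⟨κ₂, hκ₂⟩ : ∃ κ₂ : ℝ, κ₂ = ε * κ * g / (64 * (κg + 1)) := ⟨_, rfl⟩
  have hκ₂0 : 0 < κ₂ := by rw [hκ₂]; positivity
  refine ⟨κ₂ / 8, by positivity, fun lmin => ?_⟩
  obtain ⟨ε₃, hε₃⟩ : ∃ ε₃ : ℝ, ε₃ = κ₂ / 8 := ⟨_, rfl⟩
  rw [← hε₃]
  obtain ⟨Cx, hCx⟩ : ∃ Cx : ℝ, Cx = KC d (2 * R + 1) := ⟨_, rfl⟩
  obtain ⟨Cb, hCb⟩ : ∃ Cb : ℝ,
    KC d (2 * R + 3 * (2 * Real.sqrt d + 2)) + KC d 1 + KC d (2 * R) = Cb := ⟨_, rfl⟩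
  obtain ⟨CG, hCG⟩ : ∃ CG : ℝ, CG = KC d (Real.sqrt d + 2 * R + 2 * (2 * Real.sqrt d + 2)) +
    Real.log (2 * ((Real.sqrt d + 2 * (2 * Real.sqrt d + 2)) / r ^ g) + 1) := ⟨_, rfl⟩
  -- the large block length
  obtain ⟨l', hl'1, hl'min, hl'a, hl'b⟩ : ∃ l' : ℕ, 1 ≤ l' ∧ lmin ≤ l' ∧
      Cx + Cb ≤ κ₂ / 8 * l' ∧ CG ≤ κ / 2 * l' := by
    obtain ⟨a, ha⟩ := exists_nat_ge ((Cx + Cb) / (κ₂ / 8))
    obtain ⟨b, hb⟩ := exists_nat_ge (CG / (κ / 2))
    rw [div_le_iff₀ (by positivity)] at ha hb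
    refine ⟨max (max a b) (max lmin 1), by simp, by simp, ?_, ?_⟩
    · have h1 : (a : ℝ) ≤ (max (max a b) (max lmin 1) : ℕ) := by
        exact_mod_cast (le_max_left a b).trans (le_max_left _ _)
      rw [mul_comm] at ha
      exact ha.trans (mul_le_mul_of_nonneg_left h1 (by positivity))
    · have h1 : (b : ℝ) ≤ (max (max a b) (max lmin 1) : ℕ) := by
        exact_mod_cast (le_max_right a b).trans (le_max_left _ _)
      rw [mul_comm] at hb
      exact hb.trans (mul_le_mul_of_nonneg_left h1 (by positivity))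
  obtain ⟨l, hl⟩ : ∃ l : ℕ, l = g * l' := ⟨_, rfl⟩
  have hll' : l' ≤ l := by rw [hl]; exact Nat.le_mul_of_pos_left _ hg1
  obtain ⟨j, hj⟩ := good_gain hF d hr hr1 hR hp0 g l
  have hj0 : (0 : ℝ) ≤ j := Nat.cast_nonneg _
  obtain ⟨D1, hD1⟩ : ∃ D1 : ℝ, D1 = ((KC d 1 + κg) / (κg + 1) + l') * κ * g / 32 := ⟨_, rfl⟩
  obtain ⟨Dt, hDt⟩ : ∃ Dt : ℝ, Dt = 3 * l * (T₀ + ε₃) + D1 + KC d 1 + j * KC d 3 + KC d (j + 1) :=
    ⟨_, rfl⟩
  refine ⟨l, hl'min.trans hll', κ₂ / (2 * (j + 1)), by positivity, ⌈Dt / (κ₂ / 8)⌉₊ + 1, ?_⟩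
  intro I _ _ c V τ hτ hX hhe hV k hk hhek F _ _ Y hY hYV hEnt
  have hDk : Dt ≤ κ₂ / 8 * k := by
    have h1 := Nat.le_ceil (Dt / (κ₂ / 8))
    have h2 : ((⌈Dt / (κ₂ / 8)⌉₊ : ℕ) : ℝ) ≤ k := by exact_mod_cast (Nat.le_succ _).trans hk
    have h3 := h1.trans h2
    rw [div_le_iff₀ (by positivity)] at h3
    linarith
  have hk1 : (0 : ℝ) < k := by
    have : 1 ≤ k := le_trans (by omega) hk
    exact_mod_cast this
  have key := inverse_core d hr hr1 hR hε hκ g l l' j hg1 hA hg hκg hp hκ₂ hε₃ hCx hCb hCG hl'1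
    hl'a hl'b hl hD1 hDt I c V τ (fun x G hG => hj I c V x G hG hX) hτ hX hhe hV k hDk hhek F Y hY
    hYV hEnt
  have h1 := div_arith hj0 (by positivity) key
  have h2 : κ₂ / (2 * (j + 1)) * k = κ₂ / 2 * k / (j + 1) := by
    field_simp
  rw [h2]
  linarith

end Pool.Agent.V5helper28.SSK
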