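import Pool.Agent.V5helper28.SSK.Block
import Pool.Agent.V5helper28.SSK.Branch
import Pool.Agent.V5helper28.SSK.DefsF

/-!
# Ingredients of the inverse lemma
-/

set_option autoImplicit false

namespace Pool.Agent.V5helper28.SSK

open Finset

variable {d : ℕ}

theorem CE_coarse_le {Ω : Type*} {s : Finset Ω} (hs : s.Nonempty) {r : ℝ} (hr : 0 < r)
    (hr1 : r < 1) (Z : Ω → E d) {m n : ℕ} (hmn : m ≤ n) :
    CE s (fun ω => cl r m (Z ω)) (fun ω => cl r n (Z ω)) ≤ KC d 1 := by
  refine CE_le_KC hs hr zero_le_one fun ω _ ω' _ h k => ?_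
  rw [one_mul]
  exact (abs_sub_le_of_cl_eq hr h k).trans (pow_le_pow_of_le_one hr.le hr1.le hmn)

/-- telescoping -/
theorem tele {Ω : Type*} [Fintype Ω] [Nonempty Ω] {r : ℝ} (hr : 0 < r) (hr1 : r < 1)
    (Z : Ω → E d) (i : ℕ → ℕ) (hi : ∀ q, i q ≤ i (q + 1)) (Q : ℕ) :
    ∑ q ∈ range Q, (CE univ (fun ω => cl r (i (q + 1)) (Z ω)) (fun ω => cl r (i q) (Z ω)) -
      KC d 1) ≤ Ent univ (fun ω => cl r (i Q) (Z ω)) := by
  induction Q with
  | zero => simpa using Ent_nonneg _
  | succ Q ih =>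
    rw [Finset.sum_range_succ]
    have h1 := CE_coarse_le (s := (univ : Finset Ω)) Finset.univ_nonempty hr hr1 Z (hi Q)
    have h2 : Ent univ (fun ω => cl r (i (Q + 1)) (Z ω)) +
        CE univ (fun ω => cl r (i Q) (Z ω)) (fun ω => cl r (i (Q + 1)) (Z ω)) =
        Ent univ (fun ω => cl r (i Q) (Z ω)) +
        CE univ (fun ω => cl r (i (Q + 1)) (Z ω)) (fun ω => cl r (i Q) (Z ω)) := by
      rw [← chain_Ent, ← chain_Ent]
      exact Ent_congr fun x _ y _ => by simp only [Prod.mk.injEq]; tauto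
    linarith

theorem Ent_cl_mono {Ω : Type*} [Fintype Ω] [Nonempty Ω] {r : ℝ} (hr : 0 < r) (hr1 : r < 1)
    (Z : Ω → E d) {m n : ℕ} (hmn : m ≤ n) :
    Ent univ (fun ω => cl r m (Z ω)) ≤ Ent univ (fun ω => cl r n (Z ω)) + KC d 1 := by
  refine (Ent_succ_le univ _ _).trans (add_le_add le_rfl ?_)
  exact CE_coarse_le Finset.univ_nonempty hr hr1 Z hmn

variable {I : Type} [Fintype I] [Nonempty I] {ΩY : Type} [Fintype ΩY] [Nonempty ΩY]

/-- the block entropy without gain -/
theorem base_CE (c : I → E d) {r R : ℝ} (hr : 0 < r) (hR : 0 ≤ R)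
    (hX : ∀ (k : ℕ) (ω : Fin k → I), ‖X c r k ω‖ ≤ R) {k m l : ℕ} (hk : m + l ≤ k)
    (Y : ΩY → E d) :
    he c r l - KC d (2 * R + 1) - KC d (2 * R) ≤
      CE univ (fun ω : (Fin k → I) × ΩY => cl r (m + l) (X c r k ω.1 + Y ω.2))
        (fun ω => cl r m (X c r k ω.1 + Y ω.2)) := by
  obtain ⟨e, rfl⟩ := Nat.exists_eq_add_of_le hk
  rw [Nat.add_assoc]
  let f : ((Fin m → I) × ΩY) × ((Fin l → I) × (Fin e → I)) ≃ (Fin (m + (l + e)) → I) × ΩY :=
    { toFun := fun x => (splitW m (l + e) (x.1.1, splitW l e x.2), x.1.2)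
      invFun := fun y => ((((splitW m (l + e)).symm y.1).1, y.2),
        (splitW l e).symm ((splitW m (l + e)).symm y.1).2)
      left_inv := fun x => by simp
      right_inv := fun y => by simp }
  rw [← CE_equiv f]
  set Z := fun ω : ((Fin m → I) × ΩY) × ((Fin l → I) × (Fin e → I)) =>
    X c r m ω.1.1 + r ^ m • (X c r l ω.2.1 + r ^ l • X c r e ω.2.2) + Y ω.1.2 with hZ
  have hf : ∀ ω, X c r (m + (l + e)) (f ω).1 + Y (f ω).2 = Z ω := by
    intro ω
    have h1 : (f ω).1 = Fin.append ω.1.1 (Fin.append ω.2.1 ω.2.2) := rfl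
    have h2 : (f ω).2 = ω.1.2 := rfl
    rw [h1, h2, X_append, X_append]
  have e1 : CE univ ((fun ω : (Fin (m + (l + e)) → I) × ΩY =>
      cl r (m + l) (X c r (m + (l + e)) ω.1 + Y ω.2)) ∘ f)
      ((fun ω => cl r m (X c r (m + (l + e)) ω.1 + Y ω.2)) ∘ f) =
      CE univ (fun ω => cl r (m + l) (Z ω)) (fun ω => cl r m (Z ω)) := by
    congr 1 <;> funext ω <;> simp only [Function.comp, hf]
  rw [e1]
  refine le_trans ?_ (CE_ge_sub (fun ω => cl r (m + l) (Z ω)) (fun ω => cl r m (Z ω))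
    (fun ω => ω.1))
  have h1 : CE univ (fun ω => cl r m (Z ω)) (fun ω => ω.1) ≤ KC d (2 * R) := by
    refine CE_le_KC Finset.univ_nonempty hr (by positivity) fun ω _ ω' _ hG k => ?_
    rw [← PiLp.sub_apply]
    refine (abs_apply_le_norm _ k).trans ?_
    have hXf : ∀ f : (Fin l → I) × (Fin e → I), ‖X c r l f.1 + r ^ l • X c r e f.2‖ ≤ R := by
      intro f
      rw [← X_append]
      exact hX _ _
    have e2 : Z ω' - Z ω = r ^ m • (X c r l ω'.2.1 + r ^ l • X c r e ω'.2.2) -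
          r ^ m • (X c r l ω.2.1 + r ^ l • X c r e ω.2.2) := by
      simp only [hZ, hG]
      module
    have hrm : 0 < r ^ m := pow_pos hr _
    rw [e2, ← smul_sub, norm_smul, Real.norm_eq_abs, abs_of_pos hrm]
    have q1 := hXf ω'.2
    have q2 := hXf ω.2
    have q3 := norm_sub_le (X c r l ω'.2.1 + r ^ l • X c r e ω'.2.2)
      (X c r l ω.2.1 + r ^ l • X c r e ω.2.2)
    nlinarith
  have h2 : he c r l - KC d (2 * R + 1) ≤ CE univ (fun ω => cl r (m + l) (Z ω)) (fun ω => ω.1) := by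
    refine CE_fst_ge _ fun y => ?_
    have h3 := base_block c hr hR hX m l e (X c r m y.1 + Y y.2)
    have h4 : (fun f : (Fin l → I) × (Fin e → I) =>
          cl r (m + l) (X c r m y.1 + Y y.2 + r ^ m • (X c r l f.1 + r ^ l • X c r e f.2))) =
        fun z => cl r (m + l) (Z (y, z)) := by
      funext q
      simp only [hZ]
      congr 1
      module
    rw [h4] at h3
    linarith
  linarith

/-- the real vector of an integer vector -/
noncomputable def rv (v : Fin d → ℤ) : E d := WithLp.toLp 2 fun k => (v k : ℝ)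

theorem cl_rv (r : ℝ) (v : Fin d → ℤ) : cl r 0 (rv v) = v := by
  funext k
  unfold cl rv
  simp

/-- the sum of the integer parts against the integer part of the sum -/
theorem KV_cells (c : I → E d) {r : ℝ} (hr : 0 < r) {F : Type} [Fintype F]
    [Nonempty F] (Y : F → E d) (k j : ℕ) :
    Ent univ (fun x : (Fin k → I) × (Fin j → F) => cl r k (X c r k x.1 + ∑ l, Y (x.2 l))) ≤
      he c r k + j * (Ent univ (fun x : (Fin k → I) × F => cl r k (X c r k x.1 + Y x.2)) + KC d 3 -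
        he c r k) + KC d (j + 1) := by
  have hrk : 0 < r ^ k := pow_pos hr k
  have h1 := kv (fun ω : Fin k → I => cl r k (X c r k ω)) (fun y : F => cl r k (Y y)) j
  -- one summand
  have h2 : Ent univ (fun x : (Fin k → I) × F => cl r k (X c r k x.1) + cl r k (Y x.2)) ≤
      Ent univ (fun x : (Fin k → I) × F => cl r k (X c r k x.1 + Y x.2)) + KC d 3 := by
    have h3 := comp_Ent (s := (univ : Finset ((Fin k → I) × F))) Finset.univ_nonempty
      (r := (1 : ℝ)) one_pos (n := 0)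
      (U := fun x => rv (cl r k (X c r k x.1) + cl r k (Y x.2)))
      (B := fun x : (Fin k → I) × F => cl r k (X c r k x.1 + Y x.2)) (C := 3) (by norm_num)
      (fun x _ y _ h l => by
        have h4 := abs_sub_le_of_cl_eq hr h l
        simp only [PiLp.add_apply] at h4
        have e1 : ∀ z : (Fin k → I) × F, (rv (cl r k (X c r k z.1) + cl r k (Y z.2)) : E d) l =
            (⌊X c r k z.1 l / r ^ k⌋ : ℝ) + (⌊Y z.2 l / r ^ k⌋ : ℝ) := by
          intro z
          unfold rv cl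
          simp
        rw [e1, e1]
        have f1 := Int.floor_le (X c r k x.1 l / r ^ k)
        have f2 := Int.lt_floor_add_one (X c r k x.1 l / r ^ k)
        have f3 := Int.floor_le (Y x.2 l / r ^ k)
        have f4 := Int.lt_floor_add_one (Y x.2 l / r ^ k)
        have f5 := Int.floor_le (X c r k y.1 l / r ^ k)
        have f6 := Int.lt_floor_add_one (X c r k y.1 l / r ^ k)
        have f7 := Int.floor_le (Y y.2 l / r ^ k)
        have f8 := Int.lt_floor_add_one (Y y.2 l / r ^ k)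
        have h5 : |(X c r k y.1 l / r ^ k + Y y.2 l / r ^ k) -
            (X c r k x.1 l / r ^ k + Y x.2 l / r ^ k)| ≤ 1 := by
          rw [← add_div, ← add_div, ← sub_div, abs_div, abs_of_pos hrk, div_le_one hrk]
          exact h4
        rw [abs_le] at h5 ⊢
        constructor <;> linarith [h5.1, h5.2])
    simp only [cl_rv] at h3
    exact h3
  -- all summands
  have h3 : Ent univ (fun x : (Fin k → I) × (Fin j → F) => cl r k (X c r k x.1 + ∑ l, Y (x.2 l))) ≤
      Ent univ (fun x : (Fin k → I) × (Fin j → F) =>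
        cl r k (X c r k x.1) + ∑ l, cl r k (Y (x.2 l))) + KC d (j + 1) := by
    refine comp_Ent Finset.univ_nonempty hr (by positivity) fun x _ y _ h l => ?_
    have h4 := congrFun h l
    simp only [Pi.add_apply, Finset.sum_apply] at h4
    have h5 : (⌊X c r k y.1 l / r ^ k⌋ : ℝ) + ∑ i, (⌊Y (y.2 i) l / r ^ k⌋ : ℝ) =
        (⌊X c r k x.1 l / r ^ k⌋ : ℝ) + ∑ i, (⌊Y (x.2 i) l / r ^ k⌋ : ℝ) := by
      unfold cl at h4
      exact_mod_cast h4
    have hb : ∀ z : (Fin k → I) × (Fin j → F),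
        (⌊X c r k z.1 l / r ^ k⌋ : ℝ) + ∑ i, (⌊Y (z.2 i) l / r ^ k⌋ : ℝ) ≤
          (X c r k z.1 l + ∑ i, Y (z.2 i) l) / r ^ k ∧
        (X c r k z.1 l + ∑ i, Y (z.2 i) l) / r ^ k ≤
          (⌊X c r k z.1 l / r ^ k⌋ : ℝ) + ∑ i, (⌊Y (z.2 i) l / r ^ k⌋ : ℝ) + (j + 1) := by
      intro z
      rw [add_div, Finset.sum_div]
      have f1 := Int.floor_le (X c r k z.1 l / r ^ k)
      have f2 := Int.lt_floor_add_one (X c r k z.1 l / r ^ k)
      have f3 : ∑ i, (⌊Y (z.2 i) l / r ^ k⌋ : ℝ) ≤ ∑ i, Y (z.2 i) l / r ^ k :=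
        Finset.sum_le_sum fun i _ => Int.floor_le _
      have f4 : ∑ i, Y (z.2 i) l / r ^ k ≤ ∑ i, ((⌊Y (z.2 i) l / r ^ k⌋ : ℝ) + 1) :=
        Finset.sum_le_sum fun i _ => (Int.lt_floor_add_one _).le
      rw [Finset.sum_add_distrib] at f4
      simp only [Finset.sum_const, Finset.card_univ, Fintype.card_fin, nsmul_eq_mul,
        mul_one] at f4
      constructor <;> linarith
    have h6 : ∀ z : (Fin k → I) × (Fin j → F), (X c r k z.1 + ∑ i, Y (z.2 i)) l =
        X c r k z.1 l + ∑ i, Y (z.2 i) l := by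
      intro z
      simp
    rw [h6, h6]
    obtain ⟨a1, a2⟩ := hb x
    obtain ⟨b1, b2⟩ := hb y
    have h7 : |(X c r k y.1 l + ∑ i, Y (y.2 i) l) / r ^ k -
        (X c r k x.1 l + ∑ i, Y (x.2 i) l) / r ^ k| ≤ j + 1 := by
      rw [abs_le]
      constructor <;> linarith
    rw [← sub_div, abs_div, abs_of_pos hrk, div_le_iff₀ hrk] at h7
    exact h7
  have h4 : Ent univ (fun x : (Fin k → I) × (Fin j → F) =>
        cl r k (X c r k x.1) + ∑ l, cl r k (Y (x.2 l))) ≤ he c r k +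
      j * (Ent univ (fun x : (Fin k → I) × F => cl r k (X c r k x.1 + Y x.2)) + KC d 3 -
        he c r k) := by
    refine h1.trans ?_
    unfold he
    have hj : (0 : ℝ) ≤ j := Nat.cast_nonneg _
    nlinarith
  linarith

end Pool.Agent.V5helper28.SSK
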