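import Pool.Agent.V5helper28.SSK.Main
import Pool.Agent.V5helper12.SSK.Thin

/-!
# Job A
-/

set_option autoImplicit false

namespace Pool.Agent.V5helper28.SSK

open Finset

theorem finrank_sup_span {d : ℕ} (W : Submodule ℝ (E d)) {z : E d} (hz : z ∈ Wᗮ) (hz0 : z ≠ 0) :
    Module.finrank ℝ (W ⊔ Submodule.span ℝ {z} : Submodule ℝ (E d)) = Module.finrank ℝ W + 1 := by
  have h1 := Submodule.finrank_sup_add_finrank_inf_eq W (Submodule.span ℝ {z})
  have h2 : W ⊓ Submodule.span ℝ {z} = ⊥ := by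
    rw [eq_bot_iff]
    intro x hx
    obtain ⟨hx1, hx2⟩ := Submodule.mem_inf.1 hx
    obtain ⟨a, rfl⟩ := Submodule.mem_span_singleton.1 hx2
    have h3 : inner ℝ (a • z) (a • z) = 0 := Submodule.inner_right_of_mem_orthogonal hx1
      (Wᗮ.smul_mem a hz)
    rw [Submodule.mem_bot]
    exact inner_self_eq_zero.1 h3
  rw [h2, finrank_bot, finrank_span_singleton hz0] at h1
  omega

theorem arithA {a k lam η m θ κ w N ε₂ ε₄ Cs D2 q τ Ea Ek Eak B K : ℝ} (ha : 0 ≤ a)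
    (hk : k = (q + 1) * a) (hq : 0 ≤ q) (hlam : 0 < lam) (hη : 0 < η)
    (hτ : τ = m - θ * w) (hθ : θ = lam - κ) (hm : m ≤ N - η * lam) (hκw : κ * w ≤ lam * η / 8)
    (hup : Eak ≤ (τ + ε₄) * (a + k)) (hla : (τ - ε₄) * a ≤ Ea) (hlk : (τ - ε₄) * k ≤ Ek)
    (hsup : Ea + Ek ≤ Eak + Cs) (hB : B = Eak - Ea - Ek + Cs) (hK0 : 0 ≤ K) (hK : K ≤ D2)
    (hε₄ : 0 ≤ ε₄) (hCs : 0 ≤ Cs) (h2 : ε₂ * (q + 2) = η * lam / 8) (hε₂ : 0 ≤ ε₂)
    (h4 : 2 * ε₄ * (q + 2) ≤ η * lam / 8) (h5 : 2 * ε₄ * (q + 2) * D2 ≤ η * lam / 8)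
    (h6 : Cs + Cs * D2 ≤ η * lam / 8 * a) :
    Ea + ε₂ * k + B * K ≤ a * N - lam * (w + η / 4) * a := by
  have hk0 : 0 ≤ k := by rw [hk]; positivity
  have b1 : B ≤ 2 * ε₄ * (a + k) + Cs := by rw [hB]; linarith
  have b2 : B * K ≤ (2 * ε₄ * (a + k) + Cs) * K := mul_le_mul_of_nonneg_right b1 hK0
  have b3 : (2 * ε₄ * (a + k) + Cs) * K ≤ (2 * ε₄ * (a + k) + Cs) * D2 :=
    mul_le_mul_of_nonneg_left hK (by positivity)
  have e1 : a + k = (q + 2) * a := by rw [hk]; ring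
  have b4 : (2 * ε₄ * (a + k) + Cs) * D2 = 2 * ε₄ * (q + 2) * D2 * a + Cs * D2 := by
    rw [e1]; ring
  have b5 : 2 * ε₄ * (q + 2) * D2 * a ≤ η * lam / 8 * a := mul_le_mul_of_nonneg_right h5 ha
  have b6 : Ea ≤ τ * a + ε₄ * (a + 2 * k) + Cs := by linarith
  have b7 : ε₄ * (a + 2 * k) ≤ η * lam / 8 * a := by
    have c1 : ε₄ * (a + 2 * k) ≤ 2 * ε₄ * (a + k) := by nlinarith
    have c2 : 2 * ε₄ * (a + k) = 2 * ε₄ * (q + 2) * a := by rw [e1]; ring
    have c3 : 2 * ε₄ * (q + 2) * a ≤ η * lam / 8 * a := mul_le_mul_of_nonneg_right h4 ha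
    linarith
  have b8 : ε₂ * k ≤ η * lam / 8 * a := by
    have c1 : ε₂ * k ≤ ε₂ * ((q + 2) * a) := mul_le_mul_of_nonneg_left (by linarith) hε₂
    have c2 : ε₂ * ((q + 2) * a) = η * lam / 8 * a := by rw [← h2]; ring
    linarith
  have b9 : τ * a ≤ (N - lam * w - 7 / 8 * (lam * η)) * a := by
    refine mul_le_mul_of_nonneg_right ?_ ha
    rw [hτ, hθ]
    linarith
  nlinarith [mul_nonneg (mul_nonneg hlam.le hη.le) ha]

theorem jobA (hF : JobF) : JobA := by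
  intro d I _ _ c r ρ η hr hr1 hρ hη hThin q
  obtain ⟨lam, hlam⟩ : ∃ lam : ℝ, lam = Real.log r⁻¹ := ⟨_, rfl⟩
  have hlam0 : 0 < lam := by
    rw [hlam]
    exact Real.log_pos ((one_lt_inv₀ hr).2 hr1)
  -- bounds for the points
  obtain ⟨R, hR, hX⟩ : ∃ R : ℝ, 0 ≤ R ∧ ∀ (k : ℕ) (ω : Fin k → I), ‖X c r k ω‖ ≤ R := by
    have h0 : 0 ≤ ∑ i, ‖c i‖ := Finset.sum_nonneg fun _ _ => norm_nonneg _
    refine ⟨(∑ i, ‖c i‖) / (1 - r), div_nonneg h0 (by linarith), fun k ω => ?_⟩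
    exact norm_X_le hr hr1 h0 (fun i => Finset.single_le_sum (f := fun i => ‖c i‖)
      (fun _ _ => norm_nonneg _) (Finset.mem_univ i)) k ω
  -- the parameter `θ`
  obtain ⟨κ, hκ⟩ : ∃ κ : ℝ, κ = lam * min η 1 / (8 * (d + 1)) := ⟨_, rfl⟩
  have hmin : 0 < min η 1 := lt_min hη one_pos
  have hκ0 : 0 < κ := by rw [hκ]; positivity
  have hd0 : (0 : ℝ) ≤ d := Nat.cast_nonneg _
  have hκd : κ * (d + 1) ≤ lam * η / 8 := by
    have e1 : κ * (d + 1) = lam * min η 1 / 8 := by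
      rw [hκ]; field_simp
    rw [e1]
    have : lam * min η 1 ≤ lam * η := mul_le_mul_of_nonneg_left (min_le_left _ _) hlam0.le
    linarith
  have hκ1 : κ ≤ lam := by
    have e1 : κ * (d + 1) = lam * min η 1 / 8 := by
      rw [hκ]; field_simp
    have e2 : lam * min η 1 ≤ lam * 1 := mul_le_mul_of_nonneg_left (min_le_right _ _) hlam0.le
    nlinarith
  obtain ⟨θ, hθ⟩ : ∃ θ : ℝ, θ = lam - κ := ⟨_, rfl⟩
  have hθ0 : 0 ≤ θ := by rw [hθ]; linarith
  obtain ⟨m, hm⟩ := exists_family c hr hr1 hR hX hθ0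
  -- `m ≤ log N - η λ`
  obtain ⟨N, hN⟩ : ∃ N : ℝ, N = Real.log (Fintype.card I) := ⟨_, rfl⟩
  have hmN : m ≤ N - η * lam := by
    obtain ⟨C, n₀, hC⟩ := Pool.Agent.V5helper12.SSK.thin_he c hr hr1 hρ hThin
    refine le_of_forall_pos_le_add fun ε hε => ?_
    obtain ⟨n₁, hn₁, _, hlow⟩ := hm ε hε
    by_contra hcon
    push Not at hcon
    have hpos : 0 < m - ε - (N - η * lam) := by linarith
    obtain ⟨b, hb⟩ := exists_nat_gt (C / (m - ε - (N - η * lam)))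
    rw [div_lt_iff₀ hpos] at hb
    set l := max b (max n₀ n₁) with hl
    have hbl : (b : ℝ) ≤ l := by exact_mod_cast le_max_left _ _
    have h1 := hlow l ((le_max_right _ _).trans (le_max_right _ _)) ⊥
    have h2 := hC l ((le_max_left _ _).trans (le_max_right _ _))
    rw [finrank_bot] at h1
    have h3 : hW c r (⊥ : Submodule ℝ (E d)) l = he c r l := by
      unfold hW
      congr 1
      funext i
      exact PW_bot (c i)
    rw [h3] at h1
    have h4 : Real.log r = -lam := by rw [hlam, Real.log_inv, neg_neg]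
    rw [h4, ← hN] at h2
    have hl0 : (0 : ℝ) ≤ l := Nat.cast_nonneg _
    push_cast at h1
    have h5 : (m - ε - (N - η * lam)) * b ≤ (m - ε - (N - η * lam)) * l :=
      mul_le_mul_of_nonneg_left hbl hpos.le
    nlinarith
  -- parameters
  have hq0 : (0 : ℝ) ≤ q := Nat.cast_nonneg _
  obtain ⟨T₀, hT₀⟩ : ∃ T₀ : ℝ, T₀ = |m| + θ * d := ⟨_, rfl⟩
  obtain ⟨ε₂, hε₂⟩ : ∃ ε₂ : ℝ, ε₂ = η * lam / (8 * (q + 2)) := ⟨_, rfl⟩
  have hε₂0 : 0 < ε₂ := by rw [hε₂]; positivity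
  obtain ⟨ε₃, hε₃, hinv⟩ := inverse hF d (T₀ := T₀) hr hr1 hR hε₂0 hκ0
  obtain ⟨n₃, _, _, hlow3⟩ := hm ε₃ hε₃
  obtain ⟨l, hl, c₁, hc₁, k₀, hinv⟩ := hinv n₃
  have hlog5 : 0 ≤ Real.log 5 := Real.log_nonneg (by norm_num)
  obtain ⟨D2, hD2⟩ : ∃ D2 : ℝ, D2 = d * (lam + Real.log 5) / c₁ := ⟨_, rfl⟩
  have hD20 : 0 ≤ D2 := by rw [hD2]; positivity
  obtain ⟨Cs, hCs⟩ : ∃ Cs : ℝ, Cs = KC d (2 * R + 1) + KC d 1 := ⟨_, rfl⟩
  have hCs0 : 0 ≤ Cs := by
    rw [hCs]; exact add_nonneg (KC_nonneg (by positivity)) (KC_nonneg zero_le_one)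
  obtain ⟨ε₄, hε₄⟩ : ∃ ε₄ : ℝ, ε₄ = min (ε₃ / (4 * (q + 3))) (η * lam / (16 * (q + 2) * (D2 + 1))) :=
    ⟨_, rfl⟩
  have hε₄0 : 0 < ε₄ := by rw [hε₄]; exact lt_min (by positivity) (by positivity)
  have h4a : ε₄ * (q + 3) ≤ ε₃ / 4 := by
    have h1 : ε₄ ≤ ε₃ / (4 * (q + 3)) := by rw [hε₄]; exact min_le_left _ _
    have h2 : ε₃ / (4 * (q + 3)) * (q + 3) = ε₃ / 4 := by field_simp
    rw [← h2]
    exact mul_le_mul_of_nonneg_right h1 (by positivity)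
  have h4b : 2 * ε₄ * (q + 2) * (D2 + 1) ≤ η * lam / 8 := by
    have h1 : ε₄ ≤ η * lam / (16 * (q + 2) * (D2 + 1)) := by rw [hε₄]; exact min_le_right _ _
    have h2 : η * lam / (16 * (q + 2) * (D2 + 1)) * (2 * (q + 2) * (D2 + 1)) = η * lam / 8 := by
      field_simp
      ring
    rw [← h2]
    have h3 : 2 * ε₄ * (q + 2) * (D2 + 1) = ε₄ * (2 * (q + 2) * (D2 + 1)) := by ring
    rw [h3]
    exact mul_le_mul_of_nonneg_right h1 (by positivity)
  obtain ⟨n₄, hn₄1, hup4, hlow4⟩ := hm ε₄ hε₄0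
  -- large `a`
  obtain ⟨b₁, hb₁⟩ := exists_nat_ge (Cs / (ε₃ / 2))
  obtain ⟨b₂, hb₂⟩ := exists_nat_ge ((Cs + Cs * D2) / (η * lam / 8))
  rw [div_le_iff₀ (by positivity)] at hb₁ hb₂
  have hsd : 0 ≤ Real.sqrt d := Real.sqrt_nonneg _
  obtain ⟨b₃, hb₃⟩ := exists_pow_lt_of_lt_one (show 0 < 1 / (Real.sqrt d + 1) by positivity) hr1
  refine ⟨max (max n₄ k₀) (max b₁ (max b₂ (max b₃ 1))), fun a ha => ?_⟩
  have ha4 : n₄ ≤ a := (le_max_left _ _).trans ((le_max_left _ _).trans ha)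
  have hak₀ : k₀ ≤ a := (le_max_right _ _).trans ((le_max_left _ _).trans ha)
  have hab₁ : b₁ ≤ a := (le_max_left _ _).trans ((le_max_right _ _).trans ha)
  have hab₂ : b₂ ≤ a :=
    (le_max_left _ _).trans ((le_max_right _ _).trans ((le_max_right _ _).trans ha))
  have hab₃ : b₃ ≤ a := (le_max_left _ _).trans
    ((le_max_right _ _).trans ((le_max_right _ _).trans ((le_max_right _ _).trans ha)))
  have ha1 : 1 ≤ a := (le_max_right _ _).trans
    ((le_max_right _ _).trans ((le_max_right _ _).trans ((le_max_right _ _).trans ha)))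
  have haR : (0 : ℝ) < a := by exact_mod_cast ha1
  obtain ⟨k, hk⟩ : ∃ k : ℕ, k = (q + 1) * a := ⟨_, rfl⟩
  have hak : a ≤ k := by rw [hk]; exact Nat.le_mul_of_pos_left _ (by omega)
  have hkR : (k : ℝ) = (q + 1) * a := by rw [hk]; push_cast; ring
  have hakR : (a : ℝ) ≤ k := by exact_mod_cast hak
  have hk1 : 1 ≤ k := ha1.trans hak
  have hkpos : (0 : ℝ) < k := by exact_mod_cast hk1
  obtain ⟨W, hWup⟩ := hup4 (a + k) (by omega)
  obtain ⟨w, hw⟩ : ∃ w : ℝ, w = Module.finrank ℝ W := ⟨_, rfl⟩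
  have hw0 : 0 ≤ w := by rw [hw]; exact Nat.cast_nonneg _
  have hwd : w ≤ d := by
    rw [hw]
    have := Submodule.finrank_le W
    rw [finrank_euclideanSpace_fin] at this
    exact_mod_cast this
  obtain ⟨τ, hτ⟩ : ∃ τ : ℝ, τ = m - θ * w := ⟨_, rfl⟩
  rw [← hw, ← hτ] at hWup
  have hc' : ∀ (k : ℕ) (ω : Fin k → I), ‖X (fun i => PW W (c i)) r k ω‖ ≤ R := fun k ω => by
    rw [X_PW]; exact (PW_norm_le _ _).trans (hX k ω)
  have hlowa := hlow4 a ha4 W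
  have hlowk := hlow4 k (ha4.trans hak) W
  rw [← hw, ← hτ] at hlowa hlowk
  unfold hW at hWup hlowa hlowk
  have hsup := he_superadd (fun i => PW W (c i)) hr hr1 hR hc' a k
  rw [← hCs] at hsup
  push_cast at hWup
  -- the hypothesis of the inverse lemma at level `k`
  have hek : he (fun i => PW W (c i)) r k ≤ (τ + ε₃) * k := by
    have h1 : Cs ≤ ε₃ / 2 * k := by
      have : (b₁ : ℝ) ≤ k := by exact_mod_cast hab₁.trans hak
      have h2 : (b₁ : ℝ) * (ε₃ / 2) ≤ k * (ε₃ / 2) := mul_le_mul_of_nonneg_right this (by positivity)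
      linarith
    have h2 : ε₄ * (2 * a + k) ≤ ε₃ / 2 * k := by
      have h3 : 2 * (a : ℝ) + k = (q + 3) * a := by rw [hkR]; ring
      rw [h3]
      have h4 : ε₄ * ((q + 3) * a) = ε₄ * (q + 3) * a := by ring
      rw [h4]
      have h5 : ε₄ * (q + 3) * a ≤ ε₃ / 4 * a := mul_le_mul_of_nonneg_right h4a haR.le
      have h6 : ε₃ / 4 * a ≤ ε₃ / 2 * k := by nlinarith
      linarith
    nlinarith
  have hτT : |τ| ≤ T₀ := by
    rw [hτ, hT₀]
    refine (abs_sub _ _).trans (add_le_add le_rfl ?_)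
    rw [abs_of_nonneg (mul_nonneg hθ0 hw0)]
    exact mul_le_mul_of_nonneg_left hwd hθ0
  have hinv' := hinv I (fun i => PW W (c i)) Wᗮ τ hτT hc'
    (by
      have := hlow3 l hl W
      rw [← hw, ← hτ] at this
      exact this)
    (fun z hz hz0 => by
      refine ⟨PW (W ⊔ Submodule.span ℝ {z}), PW_norm_le _, PW_eq_zero
        (Submodule.mem_sup_right (Submodule.mem_span_singleton_self z)), ?_⟩
      have h1 := hlow3 l hl (W ⊔ Submodule.span ℝ {z})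
      rw [finrank_sup_span W hz hz0] at h1
      push_cast at h1
      rw [← hw] at h1
      unfold hW at h1
      have h2 : (fun i => PW (W ⊔ Submodule.span ℝ {z}) (PW W (c i))) =
          fun i => PW (W ⊔ Submodule.span ℝ {z}) (c i) := by
        funext i
        exact PW_comp le_sup_left (c i)
      rw [h2]
      refine le_trans (le_of_eq ?_) h1
      rw [hτ, ← hlam, hθ]
      ring)
    k (hak₀.trans hak) hek
  have hone := one_level (fun i => PW W (c i)) hr hr1 hR hc' Wᗮ (fun i => PW_mem W (c i))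
    (a := a) (k := k) hε₂0.le hc₁ hk1 hinv' le_rfl
  have hKk := KC_inv_le (d := d) hr hr1 k
  rw [← hlam] at hKk
  have hKfrac : KC d ((r ^ k)⁻¹) / (c₁ * k) ≤ D2 := by
    rw [div_le_iff₀ (by positivity), hD2, div_mul_eq_mul_div, le_div_iff₀ hc₁]
    have h1 : d * (k * lam + Real.log 5) ≤ d * (lam + Real.log 5) * k := by
      have h2 : (1 : ℝ) ≤ k := by exact_mod_cast hk1
      have h3 : k * lam + Real.log 5 ≤ (lam + Real.log 5) * k := by nlinarith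
      rw [mul_assoc]
      exact mul_le_mul_of_nonneg_left h3 hd0
    nlinarith
  have hKfrac0 : 0 ≤ KC d ((r ^ k)⁻¹) / (c₁ * k) :=
    div_nonneg (KC_nonneg (inv_pos.2 (pow_pos hr _)).le) (by positivity)
  have hκw : κ * w ≤ lam * η / 8 := by
    refine le_trans (mul_le_mul_of_nonneg_left ?_ hκ0.le) hκd
    linarith
  have hfin := arithA (a := a) (k := k) (lam := lam) (η := η) (m := m) (θ := θ) (κ := κ) (w := w)
    (N := N) (ε₂ := ε₂) (ε₄ := ε₄) (Cs := Cs) (D2 := D2) (q := q) (τ := τ)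
    (Ea := he (fun i => PW W (c i)) r a) (Ek := he (fun i => PW W (c i)) r k)
    (Eak := he (fun i => PW W (c i)) r (a + k))
    (B := he (fun i => PW W (c i)) r (a + k) - he (fun i => PW W (c i)) r a -
      he (fun i => PW W (c i)) r k + KC d (2 * R + 1) + KC d 1)
    (K := KC d ((r ^ k)⁻¹) / (c₁ * k)) haR.le hkR hq0 hlam0 hη hτ hθ hmN hκw hWup hlowa hlowk hsup
    (by rw [hCs]; ring) hKfrac0 hKfrac hε₄0.le hCs0 (by rw [hε₂]; field_simp) hε₂0.le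
    (by
      have : 2 * ε₄ * (q + 2) * 1 ≤ 2 * ε₄ * (q + 2) * (D2 + 1) :=
        mul_le_mul_of_nonneg_left (by linarith) (by positivity)
      linarith)
    (by
      have : 2 * ε₄ * (q + 2) * D2 ≤ 2 * ε₄ * (q + 2) * (D2 + 1) :=
        mul_le_mul_of_nonneg_left (by linarith) (by positivity)
      linarith)
    (by
      have : (b₂ : ℝ) ≤ a := by exact_mod_cast hab₂
      have h2 : (b₂ : ℝ) * (η * lam / 8) ≤ a * (η * lam / 8) :=
        mul_le_mul_of_nonneg_right this (by positivity)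
      linarith)
  obtain ⟨ω, hω⟩ := exists_fibre (fun ω : Fin a → I => cl r (a + k) (X (fun i => PW W (c i)) r a ω))
    (x := lam * (w + η / 4) * a) (by rw [← hN]; exact hone.trans hfin)
  refine ⟨W, fib univ (fun ω : Fin a → I => cl r (a + k) (X (fun i => PW W (c i)) r a ω)) ω,
    ?_, ?_⟩
  · refine le_trans (le_of_eq ?_) hω
    rw [Real.rpow_def_of_pos (inv_pos.2 hr), ← hlam, ← hw]
    ring_nf
  · intro ω₁ h₁ ω₂ h₂
    have e1 := (mem_fib.1 h₁).2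
    have e2 := (mem_fib.1 h₂).2
    refine ⟨(X c r a ω₁ - X c r a ω₂) - PW W (X c r a ω₁ - X c r a ω₂), PW_sub_mem W _, ?_⟩
    have e3 : X c r a ω₁ - X c r a ω₂ -
        ((X c r a ω₁ - X c r a ω₂) - PW W (X c r a ω₁ - X c r a ω₂)) =
        X (fun i => PW W (c i)) r a ω₁ - X (fun i => PW W (c i)) r a ω₂ := by
      rw [X_PW, X_PW, map_sub]
      abel
    rw [e3]
    refine (norm_sub_le_of_cl_eq hr (e1.trans e2.symm)).trans ?_
    have e4 : a + k = q * a + 2 * a := by rw [hk]; ring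
    rw [e4, pow_add, ← mul_assoc, mul_comm (Real.sqrt d), mul_assoc]
    have e5 : Real.sqrt d * r ^ (2 * a) ≤ 1 := by
      have e6 : r ^ (2 * a) ≤ r ^ b₃ := pow_le_pow_of_le_one hr.le hr1.le (by omega)
      have e7 : r ^ (2 * a) ≤ 1 / (Real.sqrt d + 1) := e6.trans hb₃.le
      rw [le_div_iff₀ (by positivity)] at e7
      have e8 : 0 < r ^ (2 * a) := pow_pos hr _
      nlinarith
    have e9 : 0 < r ^ (q * a) := pow_pos hr _
    calc r ^ (q * a) * (Real.sqrt d * r ^ (2 * a)) ≤ r ^ (q * a) * 1 :=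
          mul_le_mul_of_nonneg_left e5 e9.le
      _ = r ^ (q * a) := mul_one _

end Pool.Agent.V5helper28.SSK
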