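import Pool.Agent.V5helper28.SSK.Ent

/-!
# The inequality of Kaimanovich and Vershik for sums of independent variables
-/

set_option autoImplicit false

namespace Pool.Agent.V5helper28.SSK

open Finset

variable {Ω₁ Ω₂ F S T G : Type*} [Fintype Ω₁] [Fintype Ω₂] [Fintype F] [Nonempty Ω₁] [Nonempty Ω₂]
  [Nonempty F]

theorem CE_indep (A : Ω₁ → S) (B : Ω₂ → T) :
    CE univ (fun x : Ω₁ × Ω₂ => A x.1) (fun x => B x.2) = Ent univ A := by
  refine le_antisymm ?_ ?_
  · refine (CE_le_Ent _ _).trans ?_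
    rw [Ent_fst]
  · rw [Ent_eq_CE, ← CE_fst_snd (Ω₂ := Ω₂) A (fun _ => ())]
    refine CE_anti fun x _ y _ h => ?_
    simp only [Prod.mk.injEq, true_and] at h
    rw [h]

theorem CE_indep' (A : Ω₂ → S) (B : Ω₁ → T) :
    CE univ (fun x : Ω₁ × Ω₂ => A x.2) (fun x => B x.1) = Ent univ A := by
  rw [← CE_indep A B, ← CE_equiv (Equiv.prodComm Ω₁ Ω₂)]
  rfl

variable [AddCommGroup G]

theorem Ent_add_eq (A : Ω₁ → G) (B : F → G) :
    Ent univ (fun x : Ω₁ × F => A x.1 + B x.2) +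
      CE univ (fun x : Ω₁ × F => B x.2) (fun x => A x.1 + B x.2) = Ent univ A + Ent univ B := by
  rw [← chain_Ent]
  have h1 : Ent univ (fun x : Ω₁ × F => (B x.2, A x.1 + B x.2)) =
      Ent univ (fun x : Ω₁ × F => (A x.1, B x.2)) := by
    refine Ent_congr fun x _ y _ => ?_
    simp only [Prod.mk.injEq]
    constructor
    · rintro ⟨h, h'⟩
      rw [h] at h'
      exact ⟨add_right_cancel h', h⟩
    · rintro ⟨h, h'⟩
      exact ⟨h', by rw [h, h']⟩
  rw [h1, chain_Ent, CE_indep, Ent_snd]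
  ring

theorem kv_step (A : Ω₁ → G) (C : Ω₂ → G) (B : F → G) :
    Ent univ (fun x : (Ω₁ × Ω₂) × F => A x.1.1 + C x.1.2 + B x.2) +
      Ent univ A ≤ Ent univ (fun x : Ω₁ × Ω₂ => A x.1 + C x.2) +
        Ent univ (fun x : Ω₁ × F => A x.1 + B x.2) := by
  have h1 := Ent_add_eq (fun x : Ω₁ × Ω₂ => A x.1 + C x.2) B
  have h2 := Ent_add_eq A B
  have h3 : CE univ (fun x : Ω₁ × F => B x.2) (fun x => A x.1 + B x.2) ≤
      CE univ (fun x : (Ω₁ × Ω₂) × F => B x.2) (fun x => A x.1.1 + C x.1.2 + B x.2) := by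
    rw [← CE_fst_snd (Ω₂ := Ω₂)]
    let e : (Ω₁ × Ω₂) × F ≃ (Ω₁ × F) × Ω₂ :=
      { toFun := fun x => ((x.1.1, x.2), x.1.2)
        invFun := fun x => ((x.1.1, x.2), x.1.2)
        left_inv := fun _ => rfl
        right_inv := fun _ => rfl }
    rw [← CE_equiv e]
    refine CE_anti fun x _ y _ h => ?_
    have h' : A y.1.1 + B y.2 = A x.1.1 + B x.2 ∧ y.1.2 = x.1.2 := by
      simpa [e] using h
    calc A y.1.1 + C y.1.2 + B y.2 = (A y.1.1 + B y.2) + C y.1.2 := by abel
      _ = (A x.1.1 + B x.2) + C x.1.2 := by rw [h'.1, h'.2]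
      _ = _ := by abel
  linarith

/-- Sums of `j` independent copies. -/
theorem kv (A : Ω₁ → G) (B : F → G) (j : ℕ) :
    Ent univ (fun x : Ω₁ × (Fin j → F) => A x.1 + ∑ l, B (x.2 l)) ≤
      Ent univ A + j * (Ent univ (fun x : Ω₁ × F => A x.1 + B x.2) - Ent univ A) := by
  induction j with
  | zero =>
    have : Ent univ (fun x : Ω₁ × (Fin 0 → F) => A x.1 + ∑ l, B (x.2 l)) = Ent univ A := by
      simp only [Finset.univ_eq_empty, Finset.sum_empty, add_zero]
      exact Ent_fst A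
    rw [this]
    simp
  | succ j ih =>
    have h := kv_step A (fun y : Fin j → F => ∑ l, B (y l)) B
    let e : (Ω₁ × (Fin j → F)) × F ≃ Ω₁ × (Fin (j + 1) → F) :=
      { toFun := fun x => (x.1.1, Fin.snoc (α := fun _ => F) x.1.2 x.2)
        invFun := fun x => ((x.1, fun i => x.2 i.castSucc), x.2 (Fin.last j))
        left_inv := fun x => by simp
        right_inv := fun x => by
          refine Prod.ext rfl ?_
          exact Fin.snoc_init_self (α := fun _ => F) x.2 }
    have h1 : Ent univ (fun x : Ω₁ × (Fin (j + 1) → F) => A x.1 + ∑ l, B (x.2 l)) =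
        Ent univ (fun x : (Ω₁ × (Fin j → F)) × F => A x.1.1 + ∑ l, B (x.1.2 l) + B x.2) := by
      rw [← Ent_equiv e]
      congr 1
      funext x
      simp only [Function.comp, e, Equiv.coe_fn_mk]
      rw [Fin.sum_univ_castSucc]
      simp [add_assoc]
    rw [h1]
    push_cast
    linarith

end Pool.Agent.V5helper28.SSK
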