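import Pool.Agent.V5helper28.SSK.Fam
import Pool.Agent.V5helper28.SSK.IL

/-!
# Job A: dimension drop implies clumps at all scales
-/

set_option autoImplicit false

namespace Pool.Agent.V5helper28.SSK

open Finset

variable {d : ℕ} {I : Type} [Fintype I] [Nonempty I]

theorem PW_comp {W W' : Submodule ℝ (E d)} (h : W ≤ W') (x : E d) :
    PW W' (PW W x) = PW W' x := by
  have h1 : PW W' (x - PW W x) = 0 := PW_eq_zero (h (PW_sub_mem W x))
  rw [map_sub, sub_eq_zero] at h1
  exact h1.symm

theorem cl_scale {r : ℝ} (hr : 0 < r) (a k : ℕ) (x : E d) :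
    cl r (a + k) x = cl r k ((r ^ a)⁻¹ • x) := by
  funext i
  unfold cl
  congr 1
  simp only [PiLp.smul_apply, smul_eq_mul]
  rw [pow_add]
  have := (pow_pos hr a).ne'
  field_simp

/-- **One level.** -/
theorem one_level (c : I → E d) {r R : ℝ} (hr : 0 < r) (hr1 : r < 1) (hR : 0 ≤ R)
    (hX : ∀ (k : ℕ) (ω : Fin k → I), ‖X c r k ω‖ ≤ R) (V : Submodule ℝ (E d))
    (hcV : ∀ i, c i ∈ V) {a k : ℕ} {ε c₁ B : ℝ} (hε : 0 ≤ ε) (hc₁ : 0 < c₁) (hk : 1 ≤ k)
    (hinv : ∀ (F : Type) [Fintype F] [Nonempty F] (Y : F → E d),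
        (∀ ω ω' i, |Y ω' i - Y ω i| ≤ 1) → (∀ ω ω', Y ω - Y ω' ∈ V) →
        ε * k ≤ Ent univ (fun ω => cl r k (Y ω)) →
        he c r k + c₁ * k ≤
          Ent univ (fun x : (Fin k → I) × F => cl r k (X c r k x.1 + Y x.2)))
    (hB : he c r (a + k) - he c r a - he c r k + KC d (2 * R + 1) + KC d 1 ≤ B) :
    Ent univ (fun ω : Fin a → I => cl r (a + k) (X c r a ω)) ≤
      he c r a + ε * k + B * (KC d ((r ^ k)⁻¹) / (c₁ * k)) := by
  classical
  have hra : 0 < r ^ a := pow_pos hr a
  have hk0 : (0 : ℝ) < k := by exact_mod_cast hk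
  set A : (Fin a → I) → Fin d → ℤ := fun ω => cl r a (X c r a ω) with hA
  -- the fibres
  let FQ : (Fin a → I) → Type := fun ω => {ω' : Fin a → I // A ω' = A ω}
  have hne : ∀ ω, Nonempty (FQ ω) := fun ω => ⟨⟨ω, rfl⟩⟩
  let YQ : (ω : Fin a → I) → FQ ω → E d := fun ω y => (r ^ a)⁻¹ • X c r a y.1
  set gval : (Fin a → I) → ℝ := fun ω =>
    Ent univ (fun x : (Fin k → I) × FQ ω => cl r k (X c r k x.1 + YQ ω x.2)) with hgval
  set ent : (Fin a → I) → ℝ := fun ω => Ent univ (fun y : FQ ω => cl r k (YQ ω y)) with hent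
  have hcard : (0 : ℝ) < Fintype.card (Fin a → I) := by exact_mod_cast Fintype.card_pos
  -- average of `ent`
  have h1 : CE univ (fun ω : Fin a → I => cl r (a + k) (X c r a ω)) A =
      (∑ ω, ent ω) / Fintype.card (Fin a → I) := by
    rw [CE_eq_avg, Finset.card_univ]
    congr 1
    refine Finset.sum_congr rfl fun ω _ => ?_
    have hfib : fib univ A ω = (univ : Finset (FQ ω)).map ⟨fun y => y.1, Subtype.val_injective⟩ := by
      ext ω'
      rw [mem_fib, Finset.mem_map]
      constructor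
      · rintro ⟨_, h⟩
        exact ⟨⟨ω', h⟩, Finset.mem_univ _, rfl⟩
      · rintro ⟨y, _, hy⟩
        rw [← hy]
        exact ⟨Finset.mem_univ _, y.2⟩
    rw [hfib, Ent_map, hent]
    simp only
    congr 1
    funext y
    simp only [Function.comp, YQ, Function.Embedding.coeFn_mk]
    rw [cl_scale hr]
  -- average of `gval`
  have h2 : CE univ (fun x : (Fin a → I) × (Fin k → I) =>
      cl r (a + k) (X c r a x.1 + r ^ a • X c r k x.2)) (fun x => A x.1) =
      (∑ ω, gval ω) / Fintype.card (Fin a → I) := by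
    rw [CE_eq_avg, Finset.card_univ]
    have h3 : ∀ x : (Fin a → I) × (Fin k → I), Ent (fib univ (fun x => A x.1) x)
        (fun x : (Fin a → I) × (Fin k → I) => cl r (a + k) (X c r a x.1 + r ^ a • X c r k x.2)) =
        gval x.1 := by
      intro x
      have hfib : fib univ (fun x : (Fin a → I) × (Fin k → I) => A x.1) x =
          (univ : Finset ((Fin k → I) × FQ x.1)).map ⟨fun z => (z.2.1, z.1), fun z z' h => by
            simp only [Prod.mk.injEq] at h
            exact Prod.ext h.2 (Subtype.ext h.1)⟩ := by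
        ext ω'
        rw [mem_fib, Finset.mem_map]
        constructor
        · rintro ⟨_, h⟩
          exact ⟨(ω'.2, ⟨ω'.1, h⟩), Finset.mem_univ _, rfl⟩
        · rintro ⟨y, _, hy⟩
          rw [← hy]
          exact ⟨Finset.mem_univ _, y.2.2⟩
      rw [hfib, Ent_map, hgval]
      simp only
      congr 1
      funext z
      simp only [Function.comp, YQ]
      rw [cl_scale hr, smul_add, smul_smul, inv_mul_cancel₀ hra.ne', one_smul, add_comm]
      rfl
    rw [Finset.sum_congr rfl fun x _ => h3 x]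
    rw [Fintype.sum_prod_type]
    simp only [Finset.sum_const, Finset.card_univ, nsmul_eq_mul]
    rw [← Finset.mul_sum, Fintype.card_prod]
    have hc2 : (0 : ℝ) < Fintype.card (Fin k → I) := by exact_mod_cast Fintype.card_pos
    push_cast
    rw [mul_comm (Fintype.card (Fin a → I) : ℝ), mul_div_mul_left _ _ hc2.ne']
  have h3 := he_add_ge c hr hr1 hR hX a k
  rw [h2] at h3
  -- lower bounds for `gval`
  have hYd : ∀ ω, ∀ (y y' : FQ ω) (i : Fin d), |YQ ω y' i - YQ ω y i| ≤ 1 := by
    intro ω y y' i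
    have e1 : cl r a (X c r a y'.1) = cl r a (X c r a y.1) := y'.2.trans y.2.symm
    have e2 := abs_sub_le_of_cl_eq hr e1 i
    simp only [YQ, PiLp.smul_apply, smul_eq_mul]
    rw [← mul_sub, abs_mul, abs_of_pos (inv_pos.2 hra), inv_mul_le_iff₀ hra, mul_one]
    exact e2
  have hYV : ∀ ω, ∀ (y y' : FQ ω), YQ ω y - YQ ω y' ∈ V := by
    intro ω y y'
    have e1 : ∀ ω' : Fin a → I, X c r a ω' ∈ V := by
      intro ω'
      unfold X
      exact Submodule.sum_mem _ fun j _ => V.smul_mem _ (hcV _)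
    exact V.sub_mem (V.smul_mem _ (e1 _)) (V.smul_mem _ (e1 _))
  have hg0 : ∀ ω, he c r k - KC d 1 ≤ gval ω := by
    intro ω
    have e1 : he c r k - KC d 1 ≤ CE univ
        (fun x : (Fin k → I) × FQ ω => cl r k (X c r k x.1 + YQ ω x.2)) (fun x => x.2) := by
      refine CE_snd_ge _ fun y => ?_
      have := Ent_cl_shift (s := (univ : Finset (Fin k → I))) Finset.univ_nonempty hr 0 k
        (fun ω => X c r k ω) (fun ω' => X c r k ω' + YQ ω y) (C := 0) le_rfl (YQ ω y)
        (fun ω' _ l => by simp [add_comm])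
      simp only [mul_zero, zero_add] at this
      unfold he
      linarith
    exact e1.trans (CE_le_Ent _ _)
  have hg1 : ∀ ω, ε * k ≤ ent ω → he c r k - KC d 1 + c₁ * k ≤ gval ω := by
    intro ω hω
    have e1 := hinv (FQ ω) (YQ ω) (hYd ω) (hYV ω) hω
    have : 0 ≤ KC d 1 := KC_nonneg zero_le_one
    linarith
  -- the proportion of the good fibres
  set S := (univ : Finset (Fin a → I)).filter fun ω => ε * k ≤ ent ω with hS
  have h4 : (Fintype.card (Fin a → I) : ℝ) * (he c r k - KC d 1) + S.card * (c₁ * k) ≤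
      ∑ ω, gval ω := by
    have e1 : ∀ ω ∈ (univ : Finset (Fin a → I)),
        (he c r k - KC d 1) + (if ε * k ≤ ent ω then c₁ * k else 0) ≤ gval ω := by
      intro ω _
      by_cases h : ε * k ≤ ent ω
      · rw [if_pos h]; exact hg1 ω h
      · rw [if_neg h, add_zero]; exact hg0 ω
    have e2 := Finset.sum_le_sum e1
    rw [Finset.sum_add_distrib, Finset.sum_const, nsmul_eq_mul, Finset.card_univ,
      ← Finset.sum_filter, Finset.sum_const, nsmul_eq_mul, ← hS] at e2
    exact e2
  have h5 : (S.card : ℝ) / Fintype.card (Fin a → I) * (c₁ * k) ≤ B := by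
    have e1 : (he c r k - KC d 1) + (S.card : ℝ) / Fintype.card (Fin a → I) * (c₁ * k) ≤
        (∑ ω, gval ω) / Fintype.card (Fin a → I) := by
      rw [le_div_iff₀ hcard]
      have e2 : ((he c r k - KC d 1) + (S.card : ℝ) / Fintype.card (Fin a → I) * (c₁ * k)) *
          Fintype.card (Fin a → I) =
          (Fintype.card (Fin a → I) : ℝ) * (he c r k - KC d 1) + S.card * (c₁ * k) := by
        field_simp
      rw [e2]
      exact h4
    linarith
  -- upper bound for `ent`
  have hKk : 0 ≤ KC d ((r ^ k)⁻¹) := KC_nonneg (inv_pos.2 (pow_pos hr _)).le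
  have hu : ∀ ω, ent ω ≤ KC d ((r ^ k)⁻¹) := by
    intro ω
    refine Ent_le_KC Finset.univ_nonempty hr (inv_pos.2 (pow_pos hr _)).le fun y _ y' _ i => ?_
    rw [inv_mul_cancel₀ (pow_pos hr k).ne']
    exact hYd ω y y' i
  have h6 : ∑ ω, ent ω ≤ Fintype.card (Fin a → I) * (ε * k) + S.card * KC d ((r ^ k)⁻¹) := by
    have e1 : ∀ ω ∈ (univ : Finset (Fin a → I)),
        ent ω ≤ ε * k + (if ε * k ≤ ent ω then KC d ((r ^ k)⁻¹) else 0) := by
      intro ω _
      by_cases h : ε * k ≤ ent ω
      · rw [if_pos h]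
        have := hu ω
        have : 0 ≤ ε * k := by positivity
        linarith
      · rw [if_neg h, add_zero]
        exact (not_le.1 h).le
    have e2 := Finset.sum_le_sum e1
    rw [Finset.sum_add_distrib, Finset.sum_const, nsmul_eq_mul, Finset.card_univ,
      ← Finset.sum_filter, Finset.sum_const, nsmul_eq_mul, ← hS] at e2
    exact e2
  have h7 : (∑ ω, ent ω) / Fintype.card (Fin a → I) ≤
      ε * k + B * (KC d ((r ^ k)⁻¹) / (c₁ * k)) := by
    rw [div_le_iff₀ hcard]
    refine h6.trans ?_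
    have e1 : (S.card : ℝ) ≤ B / (c₁ * k) * Fintype.card (Fin a → I) := by
      rw [div_mul_eq_mul_div, le_div_iff₀ (by positivity)]
      have e2 : (S.card : ℝ) / Fintype.card (Fin a → I) * (c₁ * k) * Fintype.card (Fin a → I) ≤
          B * Fintype.card (Fin a → I) := mul_le_mul_of_nonneg_right h5 hcard.le
      have e3 : (S.card : ℝ) / Fintype.card (Fin a → I) * (c₁ * k) * Fintype.card (Fin a → I) =
          S.card * (c₁ * k) := by field_simp
      linarith
    have e4 : (S.card : ℝ) * KC d ((r ^ k)⁻¹) ≤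
        B / (c₁ * k) * Fintype.card (Fin a → I) * KC d ((r ^ k)⁻¹) :=
      mul_le_mul_of_nonneg_right e1 hKk
    have e5 : (ε * k + B * (KC d ((r ^ k)⁻¹) / (c₁ * k))) * Fintype.card (Fin a → I) =
        Fintype.card (Fin a → I) * (ε * k) +
        B / (c₁ * k) * Fintype.card (Fin a → I) * KC d ((r ^ k)⁻¹) := by ring
    linarith
  have h8 := Ent_succ_le univ (fun ω : Fin a → I => cl r (a + k) (X c r a ω)) A
  rw [h1] at h8
  have h9 : Ent univ A = he c r a := rfl
  rw [h9] at h8
  linarith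

/-- the logarithm of the number of cells -/
theorem KC_inv_le {r : ℝ} (hr : 0 < r) (hr1 : r < 1) (k : ℕ) :
    KC d ((r ^ k)⁻¹) ≤ d * (k * Real.log r⁻¹ + Real.log 5) := by
  unfold KC
  have hrk : 0 < r ^ k := pow_pos hr k
  have h1 : 1 ≤ (r ^ k)⁻¹ := (one_le_inv₀ hrk).2 (pow_le_one₀ hr.le hr1.le)
  have h2 : Real.log (2 * (r ^ k)⁻¹ + 3) ≤ Real.log (5 * (r ^ k)⁻¹) :=
    Real.log_le_log (by positivity) (by linarith)
  rw [Real.log_mul (by norm_num) (by positivity), ← inv_pow, Real.log_pow] at h2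
  rw [← inv_pow]
  exact mul_le_mul_of_nonneg_left (by linarith) (Nat.cast_nonneg _)

/-- A large fibre. -/
theorem exists_fibre {S : Type} {n : ℕ} (A : (Fin n → I) → S) {x : ℝ}
    (hx : Ent univ A ≤ n * Real.log (Fintype.card I) - x) :
    ∃ ω : Fin n → I, Real.exp x ≤ nf univ A ω := by
  by_contra hcon
  push Not at hcon
  have hcard : (0 : ℝ) < Fintype.card (Fin n → I) := by exact_mod_cast Fintype.card_pos
  have hI : (0 : ℝ) < Fintype.card I := by exact_mod_cast Fintype.card_pos
  have h1 : n * Real.log (Fintype.card I) - x < Ent univ A := by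
    unfold Ent
    rw [Finset.card_univ, lt_div_iff₀ hcard]
    have h2 : ∀ ω ∈ (univ : Finset (Fin n → I)), n * Real.log (Fintype.card I) - x <
        Real.log (Fintype.card (Fin n → I) / nf univ A ω) := by
      intro ω _
      have p := nf_pos (A := A) (Finset.mem_univ ω)
      have h3 : Real.log (nf univ A ω) < x := by
        rw [← Real.log_exp x]
        exact Real.log_lt_log p (hcon ω)
      rw [Real.log_div hcard.ne' p.ne']
      have h4 : Real.log (Fintype.card (Fin n → I)) = n * Real.log (Fintype.card I) := by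
        rw [Fintype.card_fun, Fintype.card_fin]
        push_cast
        rw [Real.log_pow]
      rw [h4]
      linarith
    have h5 := Finset.sum_lt_sum_of_nonempty (s := (univ : Finset (Fin n → I)))
      Finset.univ_nonempty h2
    rw [Finset.sum_const, nsmul_eq_mul, Finset.card_univ] at h5
    rw [mul_comm]
    exact h5
  linarith

end Pool.Agent.V5helper28.SSK
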